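import Mathlib

/-!
# ST79/Defs: the notions in the statement of SymmetryTypes
-/

open scoped ComplexConjugate
open Classical

namespace Pool.Agent.ST79

/-- A straight line of the Euclidean plane `ℂ`. -/
def IsLine (l : Set ℂ) : Prop :=
  ∃ a e : ℂ, e ≠ 0 ∧ l = {z | ∃ t : ℝ, z = a + t * e}

/-- `(P, L)` is a geometric `(n_k)` configuration of points and lines in the plane `ℂ`. -/
structure IsConfig (n k : ℕ) (P : Finset ℂ) (L : Finset (Set ℂ)) : Prop where
  line : ∀ l ∈ L, IsLine l
  cardP : P.card = n
  cardL : L.card = n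
  deg : ∀ p ∈ P, (L.filter (fun l => p ∈ l)).card = k
  size : ∀ l ∈ L, (P.filter (fun p => p ∈ l)).card = k

/-- `g` maps the set of points onto itself and the set of lines onto itself. -/
def Preserves (P : Finset ℂ) (L : Finset (Set ℂ)) (g : ℂ → ℂ) : Prop :=
  P.image g = P ∧ L.image (fun l => g '' l) = L

/-- the rotation about `c` with factor `u` -/
def rho (c u : ℂ) (z : ℂ) : ℂ := c + u * (z - c)

/-- the line through `c` with direction `d` -/
def mirror (c d : ℂ) : Set ℂ := {z | ∃ t : ℝ, z = c + t * d}

/-- the reflection in the line through `c` with direction `d`, where `‖d‖ = 1` -/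
def refl (c d : ℂ) (z : ℂ) : ℂ := c + d ^ 2 * conj (z - c)

/-- `g` preserves the orientation: it is `z ↦ u z + v`. -/
def Direct (g : ℂ → ℂ) : Prop := ∃ u v : ℂ, ∀ z, g z = u * z + v

end Pool.Agent.ST79
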