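import Pool.Agent.ST79.Defs

open scoped ComplexConjugate
open Classical

namespace Pool.Agent.ST79

/-! ### parity -/

lemma parity {α : Type*} (S : Finset α) (f : α → α) (hf : ∀ x ∈ S, f x ∈ S)
    (hff : ∀ x ∈ S, f (f x) = x) :
    S.card % 2 = (S.filter (fun x => f x = x)).card % 2 := by
  have h1 : (S.filter (fun x => f x = x)).card + (S.filter (fun x => ¬ f x = x)).card = S.card :=
    Finset.card_filter_add_card_filter_not _
  have h2 : ((S.filter (fun x => ¬ f x = x)).card : ZMod 2) = 0 := by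
    have : ∑ x ∈ S.filter (fun x => ¬ f x = x), (1 : ZMod 2) = 0 := by
      refine Finset.sum_involution (fun a _ => f a) ?_ ?_ ?_ ?_
      · intro a ha; decide
      · intro a ha _
        exact (Finset.mem_filter.1 ha).2
      · intro a ha
        rw [Finset.mem_filter] at ha ⊢
        refine ⟨hf a ha.1, ?_⟩
        intro h
        rw [hff a ha.1] at h
        exact ha.2 h.symm
      · intro a ha
        exact hff a (Finset.mem_filter.1 ha).1
    simpa using this
  have h3 : 2 ∣ (S.filter (fun x => ¬ f x = x)).card := (ZMod.natCast_eq_zero_iff _ _).1 h2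
  omega

/-! ### lines -/

lemma line_eq_of_two {l m : Set ℂ} (hl : IsLine l) (hm : IsLine m) {x y : ℂ} (hxy : x ≠ y)
    (hxl : x ∈ l) (hyl : y ∈ l) (hxm : x ∈ m) (hym : y ∈ m) : l = m := by
  have key : ∀ l : Set ℂ, IsLine l → x ∈ l → y ∈ l → l = {z | ∃ t : ℝ, z = x + t * (y - x)} := by
    rintro l ⟨a, e, he, rfl⟩ ⟨s, hs⟩ ⟨t, ht⟩
    have hst : t - s ≠ 0 := by
      intro h
      have : t = s := by linarith
      apply hxy
      rw [hs, ht, this]
    have hstc : ((t : ℂ) - s) ≠ 0 := by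
      intro h
      apply hst
      exact_mod_cast h
    ext z
    constructor
    · rintro ⟨r, hr⟩
      refine ⟨(r - s) / (t - s), ?_⟩
      rw [hr, hs, ht]
      push_cast
      field_simp
      ring
    · rintro ⟨r, hr⟩
      refine ⟨s + r * (t - s), ?_⟩
      rw [hr, hs, ht]
      push_cast
      ring
  rw [key l hl hxl hyl, key m hm hxm hym]

/-- three different points of a line are not at the same distance from a point -/
lemma not_three_circle {l : Set ℂ} (hl : IsLine l) (c : ℂ) (r : ℝ) {x y z : ℂ} (hx : x ∈ l)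
    (hy : y ∈ l) (hz : z ∈ l) (hxy : x ≠ y) (hxz : x ≠ z) (hyz : y ≠ z)
    (h1 : Complex.normSq (x - c) = r) (h2 : Complex.normSq (y - c) = r)
    (h3 : Complex.normSq (z - c) = r) : False := by
  obtain ⟨a, e, he, rfl⟩ := hl
  obtain ⟨s, hs⟩ := hx
  obtain ⟨t, ht⟩ := hy
  obtain ⟨q, hq⟩ := hz
  have hst : s ≠ t := by rintro rfl; exact hxy (by rw [hs, ht])
  have hsq : s ≠ q := by rintro rfl; exact hxz (by rw [hs, hq])
  have htq : t ≠ q := by rintro rfl; exact hyz (by rw [ht, hq])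
  have hA : e.re * e.re + e.im * e.im ≠ 0 := by
    intro h
    apply he
    rw [← Complex.normSq_eq_zero, Complex.normSq_apply]
    exact h
  rw [hs, Complex.normSq_apply] at h1
  rw [ht, Complex.normSq_apply] at h2
  rw [hq, Complex.normSq_apply] at h3
  simp only [Complex.sub_re, Complex.add_re, Complex.mul_re, Complex.ofReal_re, Complex.ofReal_im,
    Complex.sub_im, Complex.add_im, Complex.mul_im, zero_mul, sub_zero, add_zero] at h1 h2 h3
  have e1 : (s - t) * ((e.re * e.re + e.im * e.im) * (s + t) +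
      2 * ((a.re - c.re) * e.re + (a.im - c.im) * e.im)) = 0 := by linear_combination h1 - h2
  have e2 : (s - q) * ((e.re * e.re + e.im * e.im) * (s + q) +
      2 * ((a.re - c.re) * e.re + (a.im - c.im) * e.im)) = 0 := by linear_combination h1 - h3
  have f1 := (mul_eq_zero.1 e1).resolve_left (sub_ne_zero.2 hst)
  have f2 := (mul_eq_zero.1 e2).resolve_left (sub_ne_zero.2 hsq)
  have f3 : (e.re * e.re + e.im * e.im) * (t - q) = 0 := by linear_combination f1 - f2
  exact htq (sub_eq_zero.1 ((mul_eq_zero.1 f3).resolve_left hA))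

/-! ### maps that preserve the configuration -/

variable {P : Finset ℂ} {L : Finset (Set ℂ)}

lemma Preserves.comp {f g : ℂ → ℂ} (hf : Preserves P L f) (hg : Preserves P L g) :
    Preserves P L (fun z => f (g z)) := by
  constructor
  · have : P.image (fun z => f (g z)) = (P.image g).image f := by
      rw [Finset.image_image]; rfl
    rw [this, hg.1, hf.1]
  · have : L.image (fun l => (fun z => f (g z)) '' l)
        = (L.image (fun l => g '' l)).image (fun l => f '' l) := by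
      rw [Finset.image_image]
      congr 1
      funext l
      simp only [Function.comp]
      rw [Set.image_image]
    rw [this, hg.2, hf.2]

lemma preserves_id : Preserves P L (fun z => z) := by
  constructor
  · exact Finset.image_id
  · simp

lemma Preserves.inv {f g : ℂ → ℂ} (hf : Preserves P L f) (h : ∀ z, g (f z) = z) :
    Preserves P L g := by
  have e : g ∘ f = id := funext h
  constructor
  · have : P.image g = (P.image f).image g := by rw [hf.1]
    rw [this, Finset.image_image, e, Finset.image_id]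
  · have : L.image (fun l => g '' l) = (L.image (fun l => f '' l)).image (fun l => g '' l) := by
      rw [hf.2]
    rw [this, Finset.image_image]
    have e2 : (fun l : Set ℂ => g '' l) ∘ (fun l => f '' l) = id := by
      funext l
      simp only [Function.comp, Set.image_image, h, Set.image_id', id]
    rw [e2, Finset.image_id]

lemma Preserves.mem {f : ℂ → ℂ} (hf : Preserves P L f) {p : ℂ} (hp : p ∈ P) : f p ∈ P := by
  rw [← hf.1]; exact Finset.mem_image_of_mem f hp

lemma Preserves.memL {f : ℂ → ℂ} (hf : Preserves P L f) {l : Set ℂ} (hl : l ∈ L) :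
    f '' l ∈ L := by
  have := Finset.mem_image_of_mem (fun l : Set ℂ => f '' l) hl
  rwa [hf.2] at this

lemma rho_rho (c u v z : ℂ) : rho c u (rho c v z) = rho c (u * v) z := by
  unfold rho; ring

lemma rho_one (c z : ℂ) : rho c 1 z = z := by unfold rho; ring

/-- three different points of the configuration on a line -/
lemma IsConfig.three {n : ℕ} (h : IsConfig n 4 P L) {l : Set ℂ} (hl : l ∈ L) :
    ∃ x y z, x ∈ P ∧ y ∈ P ∧ z ∈ P ∧ x ∈ l ∧ y ∈ l ∧ z ∈ l ∧ x ≠ y ∧ x ≠ z ∧ y ≠ z := by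
  have h1 : 2 < (P.filter (fun p => p ∈ l)).card := by rw [h.size l hl]; norm_num
  obtain ⟨x, hx, y, hy, z, hz, h1, h2, h3⟩ := Finset.two_lt_card.1 h1
  rw [Finset.mem_filter] at hx hy hz
  exact ⟨x, y, z, hx.1, hy.1, hz.1, hx.2, hy.2, hz.2, h1, h2, h3⟩

/-- the centre is fixed: direct case -/
lemma centre_direct {u c : ℂ} (hu : u ≠ 0) (hn : P.card ≠ 0)
    (h : P.image (fun z => u * z + c) = P) :
    u * ((∑ p ∈ P, p) / P.card) + c = (∑ p ∈ P, p) / P.card := by
  have hinj : Set.InjOn (fun z : ℂ => u * z + c) P := by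
    intro x _ y _ hxy
    simp only [add_left_inj] at hxy
    exact mul_left_cancel₀ hu hxy
  have h1 : ∑ p ∈ P, p = ∑ p ∈ P, (u * p + c) := by
    conv_lhs => rw [← h]
    rw [Finset.sum_image hinj]
  have hn' : (P.card : ℂ) ≠ 0 := by exact_mod_cast hn
  rw [Finset.sum_add_distrib, ← Finset.mul_sum, Finset.sum_const, nsmul_eq_mul] at h1
  field_simp
  exact h1.symm

lemma centre_conj {u c : ℂ} (hu : u ≠ 0) (hn : P.card ≠ 0)
    (h : P.image (fun z => u * conj z + c) = P) :
    u * conj ((∑ p ∈ P, p) / P.card) + c = (∑ p ∈ P, p) / P.card := by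
  have hinj : Set.InjOn (fun z : ℂ => u * conj z + c) P := by
    intro x _ y _ hxy
    simp only [add_left_inj] at hxy
    exact (starRingEnd ℂ).injective (mul_left_cancel₀ hu hxy)
  have h1 : ∑ p ∈ P, p = ∑ p ∈ P, (u * conj p + c) := by
    conv_lhs => rw [← h]
    rw [Finset.sum_image hinj]
  have hn' : (P.card : ℂ) ≠ 0 := by exact_mod_cast hn
  rw [Finset.sum_add_distrib, ← Finset.mul_sum, Finset.sum_const, nsmul_eq_mul, ← map_sum] at h1
  rw [map_div₀, map_natCast]
  field_simp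
  exact h1.symm

lemma isometry_form (g : ℂ ≃ᵢ ℂ) : ∃ u c : ℂ, ‖u‖ = 1 ∧
    ((∀ z, g z = u * z + c) ∨ (∀ z, g z = u * conj z + c)) := by
  let h : ℂ ≃ᵢ ℂ := g.trans (IsometryEquiv.addRight (-(g 0)))
  have hz : ∀ z, h z = g z - g 0 := by
    intro z
    simp [h, sub_eq_add_neg]
  have h0 : h 0 = 0 := by rw [hz]; ring
  let f := h.toRealLinearIsometryEquivOfMapZero h0
  have hf : ∀ z, f z = g z - g 0 := by
    intro z
    rw [← hz]
    rfl
  obtain ⟨a, ha | ha⟩ := linear_isometry_complex f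
  · refine ⟨(a : ℂ), g 0, Circle.norm_coe a, Or.inl ?_⟩
    intro z
    have := hf z
    rw [ha] at this
    rw [rotation_apply] at this
    rw [this]; ring
  · refine ⟨(a : ℂ), g 0, Circle.norm_coe a, Or.inr ?_⟩
    intro z
    have := hf z
    rw [ha] at this
    simp only [LinearIsometryEquiv.trans_apply, rotation_apply, Complex.conjLIE_apply] at this
    rw [this]; ring

lemma dvd_of_classes {α : Type*} (S : Finset α) (m : ℕ) (O : α → Finset α)
    (h1 : ∀ x ∈ S, x ∈ O x) (h2 : ∀ x ∈ S, O x ⊆ S) (h3 : ∀ x ∈ S, (O x).card = m)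
    (h4 : ∀ x ∈ S, ∀ y ∈ O x, O y = O x) : m ∣ S.card := by
  rw [Finset.card_eq_sum_card_image O S]
  apply Finset.dvd_sum
  intro b hb
  obtain ⟨x, hx, rfl⟩ := Finset.mem_image.1 hb
  have : S.filter (fun y => O y = O x) = O x := by
    ext y
    rw [Finset.mem_filter]
    constructor
    · rintro ⟨hy, he⟩
      rw [← he]; exact h1 y hy
    · intro hy
      exact ⟨h2 x hx hy, h4 x hx y hy⟩
  rw [this, h3 x hx]

/-! ### rotations -/

lemma fixed_line {l : Set ℂ} (hl : IsLine l) {c u : ℂ} (hu : ‖u‖ = 1)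
    (h : rho c u '' l = l) : u = 1 ∨ u = -1 := by
  obtain ⟨a, e, he, rfl⟩ := hl
  have h1 : rho c u a ∈ {z | ∃ t : ℝ, z = a + t * e} := by
    rw [← h]; exact Set.mem_image_of_mem _ ⟨0, by simp⟩
  have h2 : rho c u (a + e) ∈ {z | ∃ t : ℝ, z = a + t * e} := by
    rw [← h]; exact Set.mem_image_of_mem _ ⟨1, by simp⟩
  obtain ⟨s, hs⟩ := h1
  obtain ⟨t, ht⟩ := h2
  unfold rho at hs ht
  have h3 : (u - ((t - s : ℝ) : ℂ)) * e = 0 := by
    push_cast
    linear_combination ht - hs
  have h4 : u = ((t - s : ℝ) : ℂ) := sub_eq_zero.1 ((mul_eq_zero.1 h3).resolve_right he)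
  rw [h4, Complex.norm_real, Real.norm_eq_abs] at hu
  rcases eq_or_eq_neg_of_abs_eq hu with h5 | h5
  · left; rw [h4, h5]; simp
  · right; rw [h4, h5]; simp

lemma no_half_turn (h : IsConfig 21 4 P L) (c : ℂ) : ¬ Preserves P L (rho c (-1)) := by
  intro hp
  have hinv : ∀ z, rho c (-1) (rho c (-1) z) = z := by
    intro z; unfold rho; ring
  have hc : c ∈ P := by
    by_contra hc
    have h1 := parity P (rho c (-1)) (fun x hx => hp.mem hx) (fun x _ => hinv x)
    have h2 : P.filter (fun x => rho c (-1) x = x) = ∅ := by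
      apply Finset.filter_eq_empty_iff.2
      intro x hx hxx
      apply hc
      have : c = x := by
        unfold rho at hxx
        linear_combination (1/2 : ℂ) * hxx
      rw [this]; exact hx
    rw [h2, h.cardP] at h1
    simp at h1
  have h1 := parity L (fun l => rho c (-1) '' l) (fun l hl => hp.memL hl) (fun l _ => by
    simp only [Set.image_image, hinv, Set.image_id'])
  have h2 : L.filter (fun l => rho c (-1) '' l = l) = L.filter (fun l => c ∈ l) := by
    apply Finset.filter_congr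
    intro l hl
    obtain ⟨a, e, he, hle⟩ := h.line l hl
    constructor
    · intro hh
      have h3 : rho c (-1) a ∈ l := by
        rw [← hh]; exact Set.mem_image_of_mem _ (by rw [hle]; exact ⟨0, by simp⟩)
      rw [hle] at h3 ⊢
      obtain ⟨t, ht⟩ := h3
      refine ⟨t / 2, ?_⟩
      unfold rho at ht
      push_cast
      linear_combination (1/2 : ℂ) * ht
    · intro hh
      have hsub : ∀ z ∈ l, rho c (-1) z ∈ l := by
        intro z hz
        rw [hle] at hz hh ⊢
        obtain ⟨t, ht⟩ := hz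
        obtain ⟨s, hs⟩ := hh
        refine ⟨2 * s - t, ?_⟩
        unfold rho
        push_cast
        linear_combination 2 * hs - ht
      apply Set.Subset.antisymm
      · rintro _ ⟨z, hz, rfl⟩
        exact hsub z hz
      · intro z hz
        exact ⟨rho c (-1) z, hsub z hz, hinv z⟩
  have h3 : L.card % 2 = (L.filter (fun l => rho c (-1) '' l = l)).card % 2 := by
    convert h1
  rw [h2, h.deg c hc, h.cardL] at h3
  norm_num at h3

/-- the group of the factors of the rotations about `c` that preserve the configuration -/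
def rotGroup (P : Finset ℂ) (L : Finset (Set ℂ)) (c : ℂ) : Subgroup ℂˣ where
  carrier := {u | ‖(u : ℂ)‖ = 1 ∧ Preserves P L (rho c u)}
  one_mem' := by
    refine ⟨by simp, ?_⟩
    have : rho c ((1 : ℂˣ) : ℂ) = fun z => z := by
      funext z; rw [Units.val_one, rho_one]
    rw [this]
    exact preserves_id
  mul_mem' := by
    rintro u v ⟨hu, hu'⟩ ⟨hv, hv'⟩
    refine ⟨by rw [Units.val_mul, norm_mul, hu, hv, one_mul], ?_⟩
    have : rho c ((u * v : ℂˣ) : ℂ) = fun z => rho c u (rho c v z) := by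
      funext z; rw [rho_rho, Units.val_mul]
    rw [this]
    exact hu'.comp hv'
  inv_mem' := by
    rintro u ⟨hu, hu'⟩
    refine ⟨by rw [Units.val_inv_eq_inv_val, norm_inv, hu, inv_one], ?_⟩
    apply hu'.inv
    intro z
    rw [rho_rho]
    simp [rho_one]

lemma rot_group (h : IsConfig 21 4 P L) (c : ℂ) : ∃ m : ℕ, (m = 1 ∨ m = 3 ∨ m = 7) ∧
    (∀ w : ℂ, w ^ m = 1 ↔ (‖w‖ = 1 ∧ Preserves P L (rho c w))) ∧
    (∀ w : ℂ, w ^ m = 1 → w ≠ 1 → (∀ p ∈ P, rho c w p ≠ p) ∧ (∀ l ∈ L, rho c w '' l ≠ l)) ∧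
    (∀ p ∈ P, (P.filter (fun q => ∃ w : ℂ, w ^ m = 1 ∧ q = rho c w p)).card = m) ∧
    (∀ l ∈ L, (L.filter (fun l' => ∃ w : ℂ, w ^ m = 1 ∧ l' = rho c w '' l)).card = m) := by
  have h21 : 1 < P.card := by rw [h.cardP]; norm_num
  obtain ⟨p0, hp0, hp0c⟩ := Finset.exists_mem_ne h21 c
  have hp0c' : p0 - c ≠ 0 := sub_ne_zero.2 hp0c
  have hfin : Finite (rotGroup P L c) := by
    apply Finite.of_injective (fun u : rotGroup P L c =>
      (⟨rho c (u : ℂˣ) p0, u.2.2.mem hp0⟩ : {p // p ∈ P}))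
    intro u v huv
    have h1 : rho c (u : ℂˣ) p0 = rho c (v : ℂˣ) p0 := congrArg Subtype.val huv
    unfold rho at h1
    have h2 : ((u : ℂˣ) : ℂ) = ((v : ℂˣ) : ℂ) := mul_right_cancel₀ hp0c' (add_left_cancel h1)
    exact Subtype.ext (Units.ext h2)
  have : Fintype (rotGroup P L c) := Fintype.ofFinite _
  set m := Fintype.card (rotGroup P L c) with hm
  have hm0 : 0 < m := Fintype.card_pos
  have hW : (Polynomial.nthRootsFinset m (1 : ℂ)).card = m :=
    (Complex.isPrimitiveRoot_exp m hm0.ne').card_nthRootsFinset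
  have hwm : ∀ w : ℂ, w ^ m = 1 ↔ (‖w‖ = 1 ∧ Preserves P L (rho c w)) := by
    have hsub : (Finset.univ : Finset (rotGroup P L c)).image (fun u : rotGroup P L c => ((u : ℂˣ) : ℂ))
        ⊆ Polynomial.nthRootsFinset m (1 : ℂ) := by
      intro w hw
      obtain ⟨u, _, rfl⟩ := Finset.mem_image.1 hw
      rw [Polynomial.mem_nthRootsFinset hm0]
      have : u ^ m = 1 := pow_card_eq_one
      have h2 : ((u ^ m : rotGroup P L c) : ℂˣ) = 1 := by rw [this]; rfl
      have h3 : (((u : ℂˣ) ^ m : ℂˣ) : ℂ) = 1 := by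
        rw [← Subgroup.coe_pow, h2, Units.val_one]
      simpa using h3
    have hcard : ((Finset.univ : Finset (rotGroup P L c)).image (fun u : rotGroup P L c => ((u : ℂˣ) : ℂ))).card
        = m := by
      rw [Finset.card_image_of_injective]
      · exact Finset.card_univ
      · intro u v huv
        exact Subtype.ext (Units.ext huv)
    have heq := Finset.eq_of_subset_of_card_le hsub (by rw [hW, hcard])
    intro w
    rw [← Polynomial.mem_nthRootsFinset hm0, ← heq, Finset.mem_image]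
    constructor
    · rintro ⟨u, _, rfl⟩
      exact u.2
    · intro hw
      have hw0 : w ≠ 0 := by
        rintro rfl
        simp at hw
      exact ⟨⟨Units.mk0 w hw0, hw⟩, Finset.mem_univ _, rfl⟩
  have hmul : ∀ v w : ℂ, v ^ m = 1 → w ^ m = 1 → (v * w) ^ m = 1 := by
    intro v w hv hw; rw [mul_pow, hv, hw, one_mul]
  have hinv : ∀ w : ℂ, w ^ m = 1 → (w⁻¹) ^ m = 1 := by
    intro w hw; rw [inv_pow, hw, inv_one]
  have hne : ∀ w : ℂ, w ^ m = 1 → w ≠ 0 := by
    rintro w hw rfl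
    rw [zero_pow hm0.ne'] at hw
    exact zero_ne_one hw
  -- free on lines
  have hfreeL : ∀ w : ℂ, w ^ m = 1 → w ≠ 1 → ∀ l ∈ L, rho c w '' l ≠ l := by
    intro w hw hw1 l hl hll
    have h1 := (hwm w).1 hw
    rcases fixed_line (h.line l hl) h1.1 hll with h2 | h2
    · exact hw1 h2
    · rw [h2] at h1
      exact no_half_turn h c h1.2
  have hOL : ∀ l ∈ L, ((Polynomial.nthRootsFinset m (1 : ℂ)).image
      (fun w => rho c w '' l)).card = m := by
    intro l hl
    rw [Finset.card_image_of_injOn, hW]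
    intro v hv w hw hvw
    rw [Finset.mem_coe, Polynomial.mem_nthRootsFinset hm0] at hv hw
    by_contra hne'
    apply hfreeL (w⁻¹ * v) (hmul _ _ (hinv w hw) hv) _ l hl
    · have e1 : rho c (w⁻¹ * v) '' l = rho c w⁻¹ '' (rho c v '' l) := by
        rw [Set.image_image]
        simp only [rho_rho]
      have e2 : rho c w⁻¹ '' (rho c w '' l) = l := by
        rw [Set.image_image]
        simp only [rho_rho]
        rw [inv_mul_cancel₀ (hne w hw)]
        simp only [rho_one, Set.image_id']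
      rw [e1]
      have hvw' : rho c v '' l = rho c w '' l := hvw
      rw [hvw', e2]
    · intro h1
      apply hne'
      have : w * (w⁻¹ * v) = w := by rw [h1, mul_one]
      rwa [mul_inv_cancel_left₀ (hne w hw)] at this
  have hdvdL : m ∣ 21 := by
    rw [← h.cardL]
    apply dvd_of_classes L m (fun l => (Polynomial.nthRootsFinset m (1 : ℂ)).image
      (fun w => rho c w '' l))
    · intro l hl
      refine Finset.mem_image.2 ⟨1, ?_, ?_⟩
      · rw [Polynomial.mem_nthRootsFinset hm0, one_pow]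
      · simp only [rho_one, Set.image_id']
    · intro l hl x hx
      obtain ⟨w, hw, rfl⟩ := Finset.mem_image.1 hx
      rw [Polynomial.mem_nthRootsFinset hm0] at hw
      exact ((hwm w).1 hw).2.memL hl
    · exact hOL
    · intro l hl x hx
      obtain ⟨w, hw, rfl⟩ := Finset.mem_image.1 hx
      rw [Polynomial.mem_nthRootsFinset hm0] at hw
      ext y
      rw [Finset.mem_image, Finset.mem_image]
      constructor
      · rintro ⟨v, hv, rfl⟩
        rw [Polynomial.mem_nthRootsFinset hm0] at hv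
        refine ⟨v * w, ?_, ?_⟩
        · rw [Polynomial.mem_nthRootsFinset hm0]; exact hmul _ _ hv hw
        · rw [Set.image_image]; simp only [rho_rho]
      · rintro ⟨v, hv, rfl⟩
        rw [Polynomial.mem_nthRootsFinset hm0] at hv
        refine ⟨v * w⁻¹, ?_, ?_⟩
        · rw [Polynomial.mem_nthRootsFinset hm0]; exact hmul _ _ hv (hinv w hw)
        · rw [Set.image_image]; simp only [rho_rho]
          rw [mul_assoc, inv_mul_cancel₀ (hne w hw), mul_one]
  -- the centre is not a point of the configuration unless `m = 1`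
  have hstepP : ∀ v w : ℂ, ∀ p : ℂ, p ≠ c → rho c v p = rho c w p → v = w := by
    intro v w p hp h1
    unfold rho at h1
    exact mul_right_cancel₀ (sub_ne_zero.2 hp) (add_left_cancel h1)
  have hm1 : c ∈ P → m = 1 := by
    intro hc
    have h20 : m ∣ 20 := by
      have e : (P.erase c).card = 20 := by rw [Finset.card_erase_of_mem hc, h.cardP]
      rw [← e]
      apply dvd_of_classes (P.erase c) m (fun p => (Polynomial.nthRootsFinset m (1 : ℂ)).image
        (fun w => rho c w p))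
      · intro p hp
        refine Finset.mem_image.2 ⟨1, ?_, ?_⟩
        · rw [Polynomial.mem_nthRootsFinset hm0, one_pow]
        · rw [rho_one]
      · intro p hp x hx
        obtain ⟨w, hw, rfl⟩ := Finset.mem_image.1 hx
        rw [Polynomial.mem_nthRootsFinset hm0] at hw
        rw [Finset.mem_erase] at hp ⊢
        refine ⟨?_, ((hwm w).1 hw).2.mem hp.2⟩
        intro h1
        unfold rho at h1
        have h2 : w * (p - c) = 0 := by linear_combination h1
        rcases mul_eq_zero.1 h2 with h3 | h3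
        · exact hne w hw h3
        · exact hp.1 (sub_eq_zero.1 h3)
      · intro p hp
        rw [Finset.card_image_of_injOn, hW]
        intro v _ w _ hvw
        exact hstepP v w p (Finset.mem_erase.1 hp).1 hvw
      · intro p hp x hx
        obtain ⟨w, hw, rfl⟩ := Finset.mem_image.1 hx
        rw [Polynomial.mem_nthRootsFinset hm0] at hw
        ext y
        rw [Finset.mem_image, Finset.mem_image]
        constructor
        · rintro ⟨v, hv, rfl⟩
          rw [Polynomial.mem_nthRootsFinset hm0] at hv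
          refine ⟨v * w, ?_, ?_⟩
          · rw [Polynomial.mem_nthRootsFinset hm0]; exact hmul _ _ hv hw
          · rw [rho_rho]
        · rintro ⟨v, hv, rfl⟩
          rw [Polynomial.mem_nthRootsFinset hm0] at hv
          refine ⟨v * w⁻¹, ?_, ?_⟩
          · rw [Polynomial.mem_nthRootsFinset hm0]; exact hmul _ _ hv (hinv w hw)
          · rw [rho_rho, mul_assoc, inv_mul_cancel₀ (hne w hw), mul_one]
    have h1 : m ∣ 21 - 20 := Nat.dvd_sub hdvdL h20
    exact Nat.dvd_one.1 h1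
  have hfreeP : ∀ w : ℂ, w ^ m = 1 → w ≠ 1 → ∀ p ∈ P, rho c w p ≠ p := by
    intro w hw hw1 p hp hpp
    by_cases hpc : p = c
    · rw [hpc] at hp
      rw [hm1 hp, pow_one] at hw
      exact hw1 hw
    · apply hw1
      apply hstepP w 1 p hpc
      rw [hpp, rho_one]
  have hOP : ∀ p ∈ P, ((Polynomial.nthRootsFinset m (1 : ℂ)).image
      (fun w => rho c w p)).card = m := by
    intro p hp
    rw [Finset.card_image_of_injOn, hW]
    intro v hv w hw hvw
    rw [Finset.mem_coe, Polynomial.mem_nthRootsFinset hm0] at hv hw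
    by_cases hpc : p = c
    · rw [hpc] at hp
      rw [hm1 hp, pow_one] at hv hw
      rw [hv, hw]
    · exact hstepP v w p hpc hvw
  have hfilP : ∀ p ∈ P, (P.filter (fun q => ∃ w : ℂ, w ^ m = 1 ∧ q = rho c w p)) =
      (Polynomial.nthRootsFinset m (1 : ℂ)).image (fun w => rho c w p) := by
    intro p hp
    ext q
    rw [Finset.mem_filter, Finset.mem_image]
    constructor
    · rintro ⟨_, w, hw, rfl⟩
      exact ⟨w, by rw [Polynomial.mem_nthRootsFinset hm0]; exact hw, rfl⟩
    · rintro ⟨w, hw, rfl⟩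
      rw [Polynomial.mem_nthRootsFinset hm0] at hw
      exact ⟨((hwm w).1 hw).2.mem hp, w, hw, rfl⟩
  have hfilL : ∀ l ∈ L, (L.filter (fun l' => ∃ w : ℂ, w ^ m = 1 ∧ l' = rho c w '' l)) =
      (Polynomial.nthRootsFinset m (1 : ℂ)).image (fun w => rho c w '' l) := by
    intro l hl
    ext q
    rw [Finset.mem_filter, Finset.mem_image]
    constructor
    · rintro ⟨_, w, hw, rfl⟩
      exact ⟨w, by rw [Polynomial.mem_nthRootsFinset hm0]; exact hw, rfl⟩
    · rintro ⟨w, hw, rfl⟩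
      rw [Polynomial.mem_nthRootsFinset hm0] at hw
      exact ⟨((hwm w).1 hw).2.memL hl, w, hw, rfl⟩
  have h21' : m ≠ 21 := by
    intro hm21
    have hsub : (Polynomial.nthRootsFinset m (1 : ℂ)).image (fun w => rho c w p0) = P := by
      apply Finset.eq_of_subset_of_card_le
      · intro x hx
        obtain ⟨w, hw, rfl⟩ := Finset.mem_image.1 hx
        rw [Polynomial.mem_nthRootsFinset hm0] at hw
        exact ((hwm w).1 hw).2.mem hp0
      · rw [hOP p0 hp0, h.cardP, hm21]
    have hcirc : ∀ p ∈ P, Complex.normSq (p - c) = Complex.normSq (p0 - c) := by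
      intro p hp
      rw [← hsub] at hp
      obtain ⟨w, hw, rfl⟩ := Finset.mem_image.1 hp
      rw [Polynomial.mem_nthRootsFinset hm0] at hw
      have e : rho c w p0 - c = w * (p0 - c) := by unfold rho; ring
      rw [e, Complex.normSq_mul, Complex.normSq_eq_norm_sq, ((hwm w).1 hw).1]
      ring
    have hLne : L.Nonempty := by
      rw [← Finset.card_pos, h.cardL]; norm_num
    obtain ⟨l, hl⟩ := hLne
    obtain ⟨x, y, z, hx, hy, hz, hxl, hyl, hzl, hxy, hxz, hyz⟩ := h.three hl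
    exact not_three_circle (h.line l hl) c _ hxl hyl hzl hxy hxz hyz (hcirc x hx) (hcirc y hy)
      (hcirc z hz)
  refine ⟨m, ?_, hwm, fun w hw hw1 => ⟨hfreeP w hw hw1, hfreeL w hw hw1⟩, ?_, ?_⟩
  · have h1 : m ∈ Nat.divisors 21 := Nat.mem_divisors.2 ⟨hdvdL, by norm_num⟩
    have h2 : Nat.divisors 21 = {1, 3, 7, 21} := by decide
    rw [h2] at h1
    simp only [Finset.mem_insert, Finset.mem_singleton] at h1
    omega
  · intro p hp
    rw [hfilP p hp, hOP p hp]
  · intro l hl
    rw [hfilL l hl, hOL l hl]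

/-! ### reflections -/

/-- coordinates in which the mirror is the real axis -/
def coord (c d : ℂ) (z : ℂ) : ℂ := (z - c) * conj d

lemma double_count (A : Finset ℂ) (B : Finset (Set ℂ)) :
    ∑ p ∈ A, (B.filter (fun l => p ∈ l)).card = ∑ l ∈ B, (A.filter (fun p => p ∈ l)).card := by
  simp only [Finset.card_filter]
  exact Finset.sum_comm

lemma d_conj {d : ℂ} (hd : ‖d‖ = 1) : d * conj d = 1 := by
  rw [Complex.mul_conj, Complex.normSq_eq_norm_sq, hd]; norm_num

lemma coord_spec {c d : ℂ} (hd : ‖d‖ = 1) (z : ℂ) : z = c + d * coord c d z := by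
  unfold coord
  linear_combination (-(z - c)) * d_conj hd

lemma coord_refl {c d : ℂ} (hd : ‖d‖ = 1) (z : ℂ) :
    coord c d (refl c d z) = conj (coord c d z) := by
  unfold coord refl
  simp only [map_mul, map_sub, Complex.conj_conj]
  linear_combination (d * (conj z - conj c)) * d_conj hd

lemma coord_inj {c d : ℂ} (hd : ‖d‖ = 1) {z w : ℂ} (h : coord c d z = coord c d w) : z = w := by
  rw [coord_spec hd z, h, ← coord_spec hd w]

lemma refl_refl {c d : ℂ} (hd : ‖d‖ = 1) (z : ℂ) : refl c d (refl c d z) = z := by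
  apply coord_inj hd
  rw [coord_refl hd, coord_refl hd, Complex.conj_conj]

lemma refl_fix {c d : ℂ} (hd : ‖d‖ = 1) (z : ℂ) : refl c d z = z ↔ (coord c d z).im = 0 := by
  rw [← Complex.conj_eq_iff_im, ← coord_refl hd]
  exact ⟨fun h => by rw [h], fun h => coord_inj hd h⟩

lemma mem_mirror {c d : ℂ} (hd : ‖d‖ = 1) (z : ℂ) : z ∈ mirror c d ↔ (coord c d z).im = 0 := by
  constructor
  · rintro ⟨t, rfl⟩
    have : coord c d (c + t * d) = t := by
      unfold coord
      linear_combination (t : ℂ) * d_conj hd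
    rw [this, Complex.ofReal_im]
  · intro h
    refine ⟨(coord c d z).re, ?_⟩
    have h2 : ((coord c d z).re : ℂ) = coord c d z := by
      apply Complex.ext
      · simp
      · simp [h]
    rw [h2]
    have h3 := coord_spec (c := c) hd z
    linear_combination h3

lemma mem_perp {c d : ℂ} (hd : ‖d‖ = 1) (s : ℝ) (z : ℂ) :
    z ∈ mirror (c + s * d) (Complex.I * d) ↔ (coord c d z).re = s := by
  constructor
  · rintro ⟨t, rfl⟩
    have : coord c d (c + s * d + t * (Complex.I * d)) = s + t * Complex.I := by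
      unfold coord
      linear_combination (s + t * Complex.I : ℂ) * d_conj hd
    rw [this]
    simp
  · intro h
    refine ⟨(coord c d z).im, ?_⟩
    have h2 : coord c d z = s + (coord c d z).im * Complex.I := by
      rw [← h]
      exact (Complex.re_add_im _).symm
    conv_lhs => rw [coord_spec hd z, h2]
    ring

lemma perp_fixed {c d : ℂ} (hd : ‖d‖ = 1) (s : ℝ) :
    refl c d '' mirror (c + s * d) (Complex.I * d) = mirror (c + s * d) (Complex.I * d) := by
  have hsub : ∀ z ∈ mirror (c + s * d) (Complex.I * d),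
      refl c d z ∈ mirror (c + s * d) (Complex.I * d) := by
    intro z hz
    rw [mem_perp hd] at hz ⊢
    rw [coord_refl hd, Complex.conj_re]
    exact hz
  apply Set.Subset.antisymm
  · rintro _ ⟨z, hz, rfl⟩
    exact hsub z hz
  · intro z hz
    exact ⟨refl c d z, hsub z hz, refl_refl hd z⟩

lemma fixed_line_refl {c d : ℂ} (hd : ‖d‖ = 1) {l : Set ℂ} (hl : IsLine l)
    (h : refl c d '' l = l) :
    l = mirror c d ∨ ∃ s : ℝ, l = mirror (c + s * d) (Complex.I * d) := by
  obtain ⟨a, e, he, rfl⟩ := hl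
  have hd0 : conj d ≠ 0 := by
    intro h0
    have := d_conj hd
    rw [h0, mul_zero] at this
    exact zero_ne_one this
  set A := coord c d a with hA
  set E := e * conj d with hE
  have hE0 : E ≠ 0 := mul_ne_zero he hd0
  have hline : ∀ t : ℝ, coord c d (a + t * e) = A + t * E := by
    intro t
    rw [hA, hE]; unfold coord; ring
  have h1 : refl c d (a + (0 : ℝ) * e) ∈ {z | ∃ t : ℝ, z = a + t * e} := by
    rw [← h]; exact Set.mem_image_of_mem _ ⟨0, rfl⟩
  have h2 : refl c d (a + (1 : ℝ) * e) ∈ {z | ∃ t : ℝ, z = a + t * e} := by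
    rw [← h]; exact Set.mem_image_of_mem _ ⟨1, rfl⟩
  obtain ⟨s, hs⟩ := h1
  obtain ⟨t, ht⟩ := h2
  have hs' := congrArg (coord c d) hs
  have ht' := congrArg (coord c d) ht
  rw [coord_refl hd, hline, hline] at hs' ht'
  have r1 := congrArg Complex.re hs'
  have i1 := congrArg Complex.im hs'
  have r2 := congrArg Complex.re ht'
  have i2 := congrArg Complex.im ht'
  simp only [Complex.conj_re, Complex.add_re, Complex.mul_re, Complex.ofReal_re,
    Complex.ofReal_im, Complex.conj_im, Complex.add_im, Complex.mul_im, zero_mul, sub_zero,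
    add_zero, one_mul] at r1 i1 r2 i2
  -- `(t - s) E = conj E`
  have r3 : E.re = (t - s) * E.re := by linarith
  have i3 : -E.im = (t - s) * E.im := by linarith
  have hcase : E.im = 0 ∨ E.re = 0 := by
    by_contra hcon
    rw [not_or] at hcon
    have e1 : t - s = 1 := by
      have : (t - s - 1) * E.re = 0 := by linarith
      have := (mul_eq_zero.1 this).resolve_right hcon.2
      linarith
    rw [e1] at i3
    apply hcon.1
    linarith
  have hmem : ∀ z, z ∈ {z | ∃ t : ℝ, z = a + t * e} ↔ ∃ t : ℝ, coord c d z = A + t * E := by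
    intro z
    constructor
    · rintro ⟨t, rfl⟩; exact ⟨t, hline t⟩
    · rintro ⟨t, ht⟩
      refine ⟨t, coord_inj (c := c) hd ?_⟩
      rw [ht, hline]
  rcases hcase with him | hre
  · left
    have hre : E.re ≠ 0 := by
      intro h0
      exact hE0 (Complex.ext h0 him)
    have hAim : A.im = 0 := by
      rw [him] at i1
      linarith
    ext z
    rw [hmem, mem_mirror hd]
    constructor
    · rintro ⟨t, ht⟩
      rw [ht]; simp [hAim, him]
    · intro hz
      refine ⟨((coord c d z).re - A.re) / E.re, ?_⟩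
      apply Complex.ext
      · simp
        field_simp
        ring
      · simp [hz, hAim, him]
  · right
    have him : E.im ≠ 0 := by
      intro h0
      exact hE0 (Complex.ext hre h0)
    refine ⟨A.re, ?_⟩
    ext z
    rw [hmem, mem_perp hd]
    constructor
    · rintro ⟨t, ht⟩
      rw [ht]; simp [hre]
    · intro hz
      refine ⟨((coord c d z).im - A.im) / E.im, ?_⟩
      apply Complex.ext
      · simp [hz, hre]
      · simp
        field_simp
        ring

lemma reflection_types (h : IsConfig 21 4 P L) {c d : ℂ} (hd : ‖d‖ = 1)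
    (hp : Preserves P L (refl c d)) : mirror c d ∉ L ∧
    (∀ l ∈ L, (∃ s : ℝ, l = mirror (c + s * d) (Complex.I * d)) →
      ∀ p ∈ P, p ∈ l → p ∉ mirror c d) ∧
    ∃ a b : ℕ, (P.filter (fun p => p ∈ mirror c d)).card = a ∧
      (L.filter (fun l => ∃ s : ℝ, l = mirror (c + s * d) (Complex.I * d))).card = b ∧
      a % 2 = 1 ∧ b % 2 = 1 ∧ a + 4 * b ≤ 21 ∧ 4 * a + b ≤ 21 := by
  -- points on the mirror
  have hPfix : P.filter (fun p => refl c d p = p) = P.filter (fun p => p ∈ mirror c d) := by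
    apply Finset.filter_congr
    intro p _
    rw [refl_fix hd, mem_mirror hd]
  have hodd : (P.filter (fun p => p ∈ mirror c d)).card % 2 = 1 := by
    have h1 := parity P (refl c d) (fun x hx => hp.mem hx) (fun x _ => refl_refl hd x)
    have h2 : P.card % 2 = (P.filter (fun p => refl c d p = p)).card % 2 := by convert h1
    rw [hPfix, h.cardP] at h2
    omega
  have hmL : mirror c d ∉ L := by
    intro hm
    rw [h.size _ hm] at hodd
    omega
  -- perpendicular lines
  have hLfix : L.filter (fun l => refl c d '' l = l) =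
      L.filter (fun l => ∃ s : ℝ, l = mirror (c + s * d) (Complex.I * d)) := by
    apply Finset.filter_congr
    intro l hl
    constructor
    · intro hh
      rcases fixed_line_refl hd (h.line l hl) hh with h1 | h1
      · rw [h1] at hl; exact absurd hl hmL
      · exact h1
    · rintro ⟨s, rfl⟩
      exact perp_fixed hd s
  have hoddL : (L.filter (fun l => ∃ s : ℝ, l = mirror (c + s * d) (Complex.I * d))).card % 2
      = 1 := by
    have h1 := parity L (fun l => refl c d '' l) (fun l hl => hp.memL hl) (fun l _ => by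
      simp only [Set.image_image, refl_refl hd, Set.image_id'])
    have h2 : L.card % 2 = (L.filter (fun l => refl c d '' l = l)).card % 2 := by convert h1
    rw [hLfix, h.cardL] at h2
    omega
  -- a perpendicular line has no point of the configuration on the mirror
  have hfoot : ∀ l ∈ L, (∃ s : ℝ, l = mirror (c + s * d) (Complex.I * d)) →
      ∀ p ∈ P, p ∈ l → p ∉ mirror c d := by
    rintro l hl ⟨s, hs⟩ p hpP hpl hpm
    have h1 := parity (P.filter (fun p => p ∈ l)) (refl c d) (by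
      intro x hx
      rw [Finset.mem_filter] at hx ⊢
      refine ⟨hp.mem hx.1, ?_⟩
      have h2 := Set.mem_image_of_mem (refl c d) hx.2
      rw [hs, perp_fixed hd s, ← hs] at h2
      exact h2) (fun x _ => refl_refl hd x)
    have h2 : (P.filter (fun p => p ∈ l)).card % 2 =
        ((P.filter (fun p => p ∈ l)).filter (fun p => refl c d p = p)).card % 2 := by convert h1
    have h3 : (P.filter (fun p => p ∈ l)).filter (fun p => refl c d p = p) = {p} := by
      ext q
      rw [Finset.mem_filter, Finset.mem_filter, Finset.mem_singleton]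
      constructor
      · rintro ⟨⟨_, hql⟩, hq⟩
        rw [hs, mem_perp hd] at hql hpl
        rw [refl_fix hd] at hq
        rw [mem_mirror hd] at hpm
        apply coord_inj (c := c) hd
        apply Complex.ext
        · rw [hql, hpl]
        · rw [hq, hpm]
      · rintro rfl
        refine ⟨⟨hpP, hpl⟩, ?_⟩
        rw [refl_fix hd, ← mem_mirror hd]
        exact hpm
    rw [h3, h.size l hl] at h2
    simp at h2
  refine ⟨hmL, hfoot, _, _, rfl, rfl, hodd, hoddL, ?_, ?_⟩
  · -- count the incidences with perpendicular lines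
    have h1 := double_count P
      (L.filter (fun l => ∃ s : ℝ, l = mirror (c + s * d) (Complex.I * d)))
    have h2 : ∑ l ∈ L.filter (fun l => ∃ s : ℝ, l = mirror (c + s * d) (Complex.I * d)),
        (P.filter (fun p => p ∈ l)).card =
        (L.filter (fun l => ∃ s : ℝ, l = mirror (c + s * d) (Complex.I * d))).card * 4 := by
      rw [Finset.sum_const_nat]
      intro l hl
      exact h.size l (Finset.mem_filter.1 hl).1
    have h3 : ∑ p ∈ P, ((L.filter (fun l => ∃ s : ℝ, l = mirror (c + s * d)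
        (Complex.I * d))).filter (fun l => p ∈ l)).card
        ≤ ∑ p ∈ P, (if p ∉ mirror c d then 1 else 0) := by
      apply Finset.sum_le_sum
      intro p hpP
      by_cases hpm : p ∈ mirror c d
      · rw [if_neg (not_not.2 hpm), Nat.le_zero, Finset.card_eq_zero]
        apply Finset.filter_eq_empty_iff.2
        intro l hl hpl
        rw [Finset.mem_filter] at hl
        exact hfoot l hl.1 hl.2 p hpP hpl hpm
      · rw [if_pos hpm, Finset.card_le_one]
        intro l hl l' hl'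
        rw [Finset.mem_filter, Finset.mem_filter] at hl hl'
        obtain ⟨⟨_, s, hs⟩, hpl⟩ := hl
        obtain ⟨⟨_, s', hs'⟩, hpl'⟩ := hl'
        rw [hs, mem_perp hd] at hpl
        rw [hs', mem_perp hd] at hpl'
        rw [hs, hs', ← hpl, ← hpl']
    have h4 : ∑ p ∈ P, (if p ∉ mirror c d then 1 else 0) =
        (P.filter (fun p => p ∉ mirror c d)).card := (Finset.card_filter _ _).symm
    have h5 : (P.filter (fun p => p ∈ mirror c d)).card +
        (P.filter (fun p => ¬ p ∈ mirror c d)).card = P.card :=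
      Finset.card_filter_add_card_filter_not _
    rw [h.cardP] at h5
    rw [h1, h2, h4] at h3
    omega
  · have h1 := double_count (P.filter (fun p => p ∈ mirror c d)) L
    have h2 : ∑ p ∈ P.filter (fun p => p ∈ mirror c d), (L.filter (fun l => p ∈ l)).card =
        (P.filter (fun p => p ∈ mirror c d)).card * 4 := by
      rw [Finset.sum_const_nat]
      intro p hpP
      exact h.deg p (Finset.mem_filter.1 hpP).1
    have h3 : ∑ l ∈ L, ((P.filter (fun p => p ∈ mirror c d)).filter (fun p => p ∈ l)).card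
        ≤ ∑ l ∈ L, (if ¬ ∃ s : ℝ, l = mirror (c + s * d) (Complex.I * d) then 1 else 0) := by
      apply Finset.sum_le_sum
      intro l hl
      by_cases hlp : ∃ s : ℝ, l = mirror (c + s * d) (Complex.I * d)
      · rw [if_neg (not_not.2 hlp), Nat.le_zero, Finset.card_eq_zero]
        apply Finset.filter_eq_empty_iff.2
        intro p hpP hpl
        rw [Finset.mem_filter] at hpP
        exact hfoot l hl hlp p hpP.1 hpl hpP.2
      · rw [if_pos hlp, Finset.card_le_one]
        intro p hp1 q hq1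
        rw [Finset.mem_filter, Finset.mem_filter] at hp1 hq1
        by_contra hpq
        have hd0 : d ≠ 0 := by
          rintro rfl
          simp at hd
        have : l = mirror c d := line_eq_of_two (h.line l hl) ⟨c, d, hd0, rfl⟩ hpq hp1.2 hq1.2
          hp1.1.2 hq1.1.2
        rw [this] at hl
        exact hmL hl
    have h4 : ∑ l ∈ L, (if ¬ ∃ s : ℝ, l = mirror (c + s * d) (Complex.I * d) then 1 else 0) =
        (L.filter (fun l => ¬ ∃ s : ℝ, l = mirror (c + s * d) (Complex.I * d))).card :=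
      (Finset.card_filter _ _).symm
    have h5 : (L.filter (fun l => ∃ s : ℝ, l = mirror (c + s * d) (Complex.I * d))).card +
        (L.filter (fun l => ¬ ∃ s : ℝ, l = mirror (c + s * d) (Complex.I * d))).card = L.card :=
      Finset.card_filter_add_card_filter_not _
    rw [h.cardL] at h5
    rw [← h1, h2, h4] at h3
    omega

/-- a real root of unity of odd order is `1` -/
lemma real_root {m : ℕ} (hm : Odd m) {v : ℂ} (hv : v ^ m = 1) {x : ℝ} (hx : v = x) : v = 1 := by
  have h1 : x ^ m = 1 := by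
    rw [hx] at hv
    exact_mod_cast hv
  have h2 : |x| = 1 := by
    have h3 : |x| ^ m = 1 := by rw [← abs_pow, h1, abs_one]
    have hm0 : m ≠ 0 := by
      rintro rfl
      exact absurd hm (by decide)
    exact (pow_eq_one_iff_of_nonneg (abs_nonneg x) hm0).1 h3
  rcases eq_or_eq_neg_of_abs_eq h2 with h3 | h3
  · rw [hx, h3]; simp
  · rw [h3, hm.neg_one_pow] at h1
    norm_num at h1

lemma mul_axis {m : ℕ} (hm : Odd m) {c d : ℂ}
    (hw : ∀ w : ℂ, w ^ m = 1 → Preserves P L (rho c w)) (hcP : c ∉ P) (hd : ‖d‖ = 1) :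
    m * (P.filter (fun p => p ∈ mirror c d)).card ≤ P.card := by
  have hm0 : 0 < m := hm.pos
  have hW : (Polynomial.nthRootsFinset m (1 : ℂ)).card = m :=
    (Complex.isPrimitiveRoot_exp m hm0.ne').card_nthRootsFinset
  have hd0 : d ≠ 0 := by
    rintro rfl
    simp at hd
  rw [← hW, ← Finset.card_product]
  apply Finset.card_le_card_of_injOn (fun x : ℂ × ℂ => rho c x.1 x.2)
  · rintro ⟨w, p⟩ hx
    rw [Finset.mem_coe, Finset.mem_product, Polynomial.mem_nthRootsFinset hm0,
      Finset.mem_filter] at hx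
    exact (hw w hx.1).mem hx.2.1
  · rintro ⟨w, p⟩ hx ⟨w', p'⟩ hx' hxx
    rw [Finset.mem_coe, Finset.mem_product, Polynomial.mem_nthRootsFinset hm0,
      Finset.mem_filter] at hx hx'
    obtain ⟨h1, hpP, t, ht⟩ := hx
    obtain ⟨h1', hpP', t', ht'⟩ := hx'
    simp only at h1 h1' hpP hpP' ht ht' hxx
    have ht0 : (t : ℂ) ≠ 0 := by
      intro h0
      apply hcP
      rw [h0, zero_mul, add_zero] at ht
      rwa [← ht]
    have hw'0 : w' ≠ 0 := by
      rintro rfl
      rw [zero_pow hm0.ne'] at h1'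
      exact zero_ne_one h1'
    unfold rho at hxx
    rw [ht, ht'] at hxx
    have e1 : (w * t - w' * t') * d = 0 := by linear_combination hxx
    have e2 : w * t = w' * t' := sub_eq_zero.1 ((mul_eq_zero.1 e1).resolve_right hd0)
    have e3 : w / w' = ((t' / t : ℝ) : ℂ) := by
      push_cast
      field_simp
      linear_combination e2
    have e4 : (w / w') ^ m = 1 := by rw [div_pow, h1, h1', div_one]
    have e5 := real_root hm e4 e3
    have e6 : w = w' := by
      rw [div_eq_one_iff_eq hw'0] at e5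
      exact e5
    rw [e6] at e2
    have e7 : (t : ℂ) = t' := mul_left_cancel₀ hw'0 e2
    rw [Prod.mk.injEq]
    exact ⟨e6, by rw [ht, ht', e7]⟩

lemma mul_perp {m : ℕ} (hm : Odd m) {c d : ℂ}
    (hw : ∀ w : ℂ, w ^ m = 1 → Preserves P L (rho c w)) (hd : ‖d‖ = 1) :
    m * (L.filter (fun l => ∃ s : ℝ, l = mirror (c + s * d) (Complex.I * d))).card ≤ L.card := by
  have hm0 : 0 < m := hm.pos
  have hW : (Polynomial.nthRootsFinset m (1 : ℂ)).card = m :=
    (Complex.isPrimitiveRoot_exp m hm0.ne').card_nthRootsFinset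
  have hd0 : Complex.I * d ≠ 0 := by
    apply mul_ne_zero Complex.I_ne_zero
    rintro rfl
    simp at hd
  rw [← hW, ← Finset.card_product]
  apply Finset.card_le_card_of_injOn (fun x : ℂ × Set ℂ => rho c x.1 '' x.2)
  · rintro ⟨w, l⟩ hx
    rw [Finset.mem_coe, Finset.mem_product, Polynomial.mem_nthRootsFinset hm0,
      Finset.mem_filter] at hx
    exact (hw w hx.1).memL hx.2.1
  · rintro ⟨w, l⟩ hx ⟨w', l'⟩ hx' hxx
    rw [Finset.mem_coe, Finset.mem_product, Polynomial.mem_nthRootsFinset hm0,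
      Finset.mem_filter] at hx hx'
    obtain ⟨h1, _, s, hs⟩ := hx
    obtain ⟨h1', _, s', hs'⟩ := hx'
    simp only at h1 h1' hs hs' hxx
    have hw'0 : w' ≠ 0 := by
      rintro rfl
      rw [zero_pow hm0.ne'] at h1'
      exact zero_ne_one h1'
    have k1 : rho c w (c + s * d) ∈ rho c w' '' l' := by
      rw [← hxx]; exact Set.mem_image_of_mem _ (by rw [hs]; exact ⟨0, by simp⟩)
    have k2 : rho c w (c + s * d + Complex.I * d) ∈ rho c w' '' l' := by
      rw [← hxx]; exact Set.mem_image_of_mem _ (by rw [hs]; exact ⟨1, by simp⟩)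
    obtain ⟨z1, hz1, e1⟩ := k1
    obtain ⟨z2, hz2, e2⟩ := k2
    rw [hs'] at hz1 hz2
    obtain ⟨t1, ht1⟩ := hz1
    obtain ⟨t2, ht2⟩ := hz2
    unfold rho at e1 e2
    rw [ht1] at e1
    rw [ht2] at e2
    have e3 : (w - w' * ((t2 - t1 : ℝ) : ℂ)) * (Complex.I * d) = 0 := by
      push_cast
      linear_combination e1 - e2
    have e4 : w = w' * ((t2 - t1 : ℝ) : ℂ) :=
      sub_eq_zero.1 ((mul_eq_zero.1 e3).resolve_right hd0)
    have e5 : w / w' = ((t2 - t1 : ℝ) : ℂ) := by
      rw [e4]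
      field_simp
    have e6 : (w / w') ^ m = 1 := by rw [div_pow, h1, h1', div_one]
    have e7 := real_root hm e6 e5
    rw [div_eq_one_iff_eq hw'0] at e7
    rw [e7] at hxx
    have hinj : Function.Injective (rho c w') := by
      intro x y hxy
      unfold rho at hxy
      have := mul_left_cancel₀ hw'0 (add_left_cancel hxy)
      exact sub_left_injective this
    rw [Prod.mk.injEq]
    exact ⟨e7, hinj.image_injective hxx⟩

/-! ### rotations of order seven -/

/-- the points of the configuration in the orbit of `p` -/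
noncomputable def orbP (P : Finset ℂ) (c : ℂ) (p : ℂ) : Finset ℂ :=
  P.filter (fun q => ∃ w : ℂ, w ^ 7 = 1 ∧ q = rho c w p)

/-- the lines of the configuration in the orbit of `l` -/
noncomputable def orbL (L : Finset (Set ℂ)) (c : ℂ) (l : Set ℂ) : Finset (Set ℂ) :=
  L.filter (fun l' => ∃ w : ℂ, w ^ 7 = 1 ∧ l' = rho c w '' l)

lemma root7_ne {w : ℂ} (hw : w ^ 7 = 1) : w ≠ 0 := by
  rintro rfl
  norm_num at hw

lemma root7_inv {w : ℂ} (hw : w ^ 7 = 1) : w⁻¹ ^ 7 = 1 := by rw [inv_pow, hw, inv_one]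

lemma root7_mul {v w : ℂ} (hv : v ^ 7 = 1) (hw : w ^ 7 = 1) : (v * w) ^ 7 = 1 := by
  rw [mul_pow, hv, hw, one_mul]

lemma root7_norm {w : ℂ} (hw : w ^ 7 = 1) : ‖w‖ = 1 := by
  have h1 : ‖w‖ ^ 7 = 1 := by rw [← norm_pow, hw, norm_one]
  exact (pow_eq_one_iff_of_nonneg (norm_nonneg w) (by norm_num)).1 h1

lemma normSq_rho {c w p : ℂ} (hw : ‖w‖ = 1) :
    Complex.normSq (rho c w p - c) = Complex.normSq (p - c) := by
  have e : rho c w p - c = w * (p - c) := by unfold rho; ring
  rw [e, Complex.normSq_mul, Complex.normSq_eq_norm_sq w, hw]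
  ring

lemma normSq_refl {c d p : ℂ} (hd : ‖d‖ = 1) :
    Complex.normSq (refl c d p - c) = Complex.normSq (p - c) := by
  have e : refl c d p - c = d ^ 2 * conj (p - c) := by unfold refl; ring
  rw [e, Complex.normSq_mul, Complex.normSq_conj, Complex.normSq_eq_norm_sq (d ^ 2), norm_pow, hd]
  ring

lemma rho_image_image (c v w : ℂ) (l : Set ℂ) : rho c v '' (rho c w '' l) = rho c (v * w) '' l := by
  rw [Set.image_image]
  simp only [rho_rho]

lemma rho_image_one (c : ℂ) (l : Set ℂ) : rho c 1 '' l = l := by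
  simp only [rho_one, Set.image_id']

/-- at most two of the points on a circle around `c` are on a line -/
lemma circle_le_two {U : Finset ℂ} {c : ℂ} {r : ℝ} (hU : ∀ x ∈ U, Complex.normSq (x - c) = r)
    {l : Set ℂ} (hl : IsLine l) : (U.filter (fun x => x ∈ l)).card ≤ 2 := by
  by_contra hcon
  rw [not_le] at hcon
  obtain ⟨x, hx, y, hy, z, hz, hxy, hxz, hyz⟩ := Finset.two_lt_card.1 hcon
  rw [Finset.mem_filter] at hx hy hz
  exact not_three_circle hl c r hx.2 hy.2 hz.2 hxy hxz hyz (hU x hx.1) (hU y hy.1) (hU z hz.1)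

lemma radius_orbit (h : IsConfig 21 4 P L) {c : ℂ} (hO : ∀ p ∈ P, (orbP P c p).card = 7)
    {p q : ℂ} (hp : p ∈ P) (hq : q ∈ P) (hpq : Complex.normSq (p - c) = Complex.normSq (q - c)) :
    ∃ w : ℂ, w ^ 7 = 1 ∧ q = rho c w p := by
  by_contra hcon
  have hdisj : Disjoint (orbP P c p) (orbP P c q) := by
    rw [Finset.disjoint_left]
    intro x hx hx'
    unfold orbP at hx hx'
    rw [Finset.mem_filter] at hx hx'
    obtain ⟨_, w, hw, rfl⟩ := hx
    obtain ⟨_, v, hv, hx'⟩ := hx'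
    apply hcon
    refine ⟨v⁻¹ * w, root7_mul (root7_inv hv) hw, ?_⟩
    rw [← rho_rho, hx', rho_rho, inv_mul_cancel₀ (root7_ne hv), rho_one]
  set U := orbP P c p ∪ orbP P c q with hU
  have hUc : U.card = 14 := by
    rw [hU, Finset.card_union_of_disjoint hdisj, hO p hp, hO q hq]
  have hUP : U ⊆ P := by
    rw [hU]
    exact Finset.union_subset (Finset.filter_subset _ _) (Finset.filter_subset _ _)
  have hUr : ∀ x ∈ U, Complex.normSq (x - c) = Complex.normSq (p - c) := by
    intro x hx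
    rw [hU, Finset.mem_union] at hx
    unfold orbP at hx
    rw [Finset.mem_filter, Finset.mem_filter] at hx
    rcases hx with ⟨_, w, hw, rfl⟩ | ⟨_, w, hw, rfl⟩
    · exact normSq_rho (root7_norm hw)
    · rw [normSq_rho (root7_norm hw), hpq]
  have hTc : (P \ U).card = 7 := by
    rw [Finset.card_sdiff_of_subset hUP, hUc, h.cardP]
  have h1 := double_count (P \ U) L
  have h2 : ∑ p ∈ P \ U, (L.filter (fun l => p ∈ l)).card = (P \ U).card * 4 := by
    rw [Finset.sum_const_nat]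
    intro x hx
    exact h.deg x (Finset.mem_sdiff.1 hx).1
  have h3 : L.card * 2 ≤ ∑ l ∈ L, ((P \ U).filter (fun p => p ∈ l)).card := by
    rw [← smul_eq_mul]
    apply Finset.card_nsmul_le_sum
    intro l hl
    have h4 := circle_le_two hUr (h.line l hl)
    have h5 : (P.filter (fun p => p ∈ l)) =
        ((P \ U).filter (fun p => p ∈ l)) ∪ (U.filter (fun p => p ∈ l)) := by
      rw [← Finset.filter_union, Finset.sdiff_union_of_subset hUP]
    have h6 := Finset.card_union_le ((P \ U).filter (fun p => p ∈ l)) (U.filter (fun p => p ∈ l))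
    rw [← h5, h.size l hl] at h6
    omega
  rw [← h1, h2, hTc, h.cardL] at h3
  omega

lemma no_line_through (h : IsConfig 21 4 P L) {c : ℂ} (hcP : c ∉ P)
    (hO : ∀ p ∈ P, (orbP P c p).card = 7) {l : Set ℂ} (hl : l ∈ L) : c ∉ l := by
  intro hcl
  -- points of the line are in different orbits
  have hdiff : ∀ p ∈ P.filter (fun p => p ∈ l), ∀ q ∈ P.filter (fun p => p ∈ l), p ≠ q →
      Disjoint (orbP P c p) (orbP P c q) := by
    intro p hp q hq hpq
    rw [Finset.mem_filter] at hp hq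
    rw [Finset.disjoint_left]
    intro x hx hx'
    unfold orbP at hx hx'
    rw [Finset.mem_filter] at hx hx'
    obtain ⟨_, w, hw, rfl⟩ := hx
    obtain ⟨_, v, hv, hx'⟩ := hx'
    have hu7 : (v⁻¹ * w) ^ 7 = 1 := root7_mul (root7_inv hv) hw
    have hqp : q = rho c (v⁻¹ * w) p := by
      rw [← rho_rho, hx', rho_rho, inv_mul_cancel₀ (root7_ne hv), rho_one]
    obtain ⟨a, e, he, hle⟩ := h.line l hl
    rw [hle] at hcl hp hq
    obtain ⟨t0, ht0⟩ := hcl
    obtain ⟨hpP, t1, ht1⟩ := hp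
    obtain ⟨hqP, t2, ht2⟩ := hq
    have hpc : (t1 : ℂ) - t0 ≠ 0 := by
      intro h0
      apply hcP
      have : c = p := by
        rw [ht0, ht1]
        linear_combination (-e) * h0
      rwa [this]
    have e1 : ((t2 : ℂ) - t0 - (v⁻¹ * w) * (t1 - t0)) * e = 0 := by
      have e0 := hqp
      unfold rho at e0
      rw [ht1, ht2, ht0] at e0
      linear_combination e0
    have e2 := sub_eq_zero.1 ((mul_eq_zero.1 e1).resolve_right he)
    have e3 : v⁻¹ * w = (((t2 - t0) / (t1 - t0) : ℝ) : ℂ) := by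
      push_cast
      rw [eq_div_iff hpc]
      exact e2.symm
    have e4 := real_root (by decide) hu7 e3
    apply hpq
    rw [hqp, e4, rho_one]
  have h1 : ((P.filter (fun p => p ∈ l)).biUnion (orbP P c)).card =
      ∑ p ∈ P.filter (fun p => p ∈ l), (orbP P c p).card := Finset.card_biUnion hdiff
  have h2 : ∑ p ∈ P.filter (fun p => p ∈ l), (orbP P c p).card =
      (P.filter (fun p => p ∈ l)).card * 7 := by
    rw [Finset.sum_const_nat]
    intro p hp
    exact hO p (Finset.mem_filter.1 hp).1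
  have h3 : ((P.filter (fun p => p ∈ l)).biUnion (orbP P c)).card ≤ P.card := by
    apply Finset.card_le_card
    intro x hx
    obtain ⟨p, _, hx⟩ := Finset.mem_biUnion.1 hx
    exact (Finset.mem_filter.1 hx).1
  rw [h1, h2, h.size l hl, h.cardP] at h3
  omega

/-- `l` is the line of all `z` with `Re ((z - c) conj u) = 1` -/
def IsPole (c : ℂ) (l : Set ℂ) (u : ℂ) : Prop := l = {z | ((z - c) * conj u).re = 1}

lemma exists_pole {c : ℂ} {l : Set ℂ} (hl : IsLine l) (hcl : c ∉ l) : ∃ u, IsPole c l u := by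
  obtain ⟨a, e, he, rfl⟩ := hl
  obtain ⟨N, hNd⟩ : ∃ N : ℝ, N = e.re * e.re + e.im * e.im := ⟨_, rfl⟩
  have hN : N ≠ 0 := by
    intro h0
    apply he
    rw [← Complex.normSq_eq_zero, Complex.normSq_apply, ← hNd]
    exact h0
  -- the normal direction is `(-e.im, e.re)`
  set s : ℝ := (a.re - c.re) * (-e.im) + (a.im - c.im) * e.re with hs
  have hs0 : s ≠ 0 := by
    intro h0
    apply hcl
    refine ⟨-((a.re - c.re) * e.re + (a.im - c.im) * e.im) / N, ?_⟩
    rw [hs] at h0
    apply Complex.ext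
    · simp only [Complex.add_re, Complex.mul_re, Complex.ofReal_re, Complex.ofReal_im, zero_mul,
        sub_zero]
      field_simp
      linear_combination e.im * h0 + (c.re - a.re) * hNd
    · simp only [Complex.add_im, Complex.mul_im, Complex.ofReal_re, Complex.ofReal_im, zero_mul,
        add_zero]
      field_simp
      linear_combination (-e.re) * h0 + (c.im - a.im) * hNd
  refine ⟨⟨-e.im / s, e.re / s⟩, ?_⟩
  unfold IsPole
  ext z
  simp only [Set.mem_ofPred_eq, Complex.mul_re, Complex.sub_re, Complex.sub_im, Complex.conj_re,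
    Complex.conj_im]
  constructor
  · rintro ⟨t, rfl⟩
    simp only [Complex.add_re, Complex.mul_re, Complex.ofReal_re, Complex.ofReal_im, zero_mul,
      sub_zero, Complex.add_im, Complex.mul_im, add_zero]
    field_simp
    rw [hs]; ring
  · intro hz
    have hz' : (z.re - c.re) * (-e.im) + (z.im - c.im) * e.re = s := by
      field_simp at hz
      linear_combination hz
    refine ⟨((z.re - a.re) * e.re + (z.im - a.im) * e.im) / N, ?_⟩
    rw [hs] at hz'
    apply Complex.ext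
    · simp only [Complex.add_re, Complex.mul_re, Complex.ofReal_re, Complex.ofReal_im, zero_mul,
        sub_zero]
      field_simp
      linear_combination (-e.im) * hz' + (z.re - a.re) * hNd
    · simp only [Complex.add_im, Complex.mul_im, Complex.ofReal_re, Complex.ofReal_im, zero_mul,
        add_zero]
      field_simp
      linear_combination e.re * hz' + (z.im - a.im) * hNd

lemma pole_ne {c u : ℂ} {l : Set ℂ} (hl : IsLine l) (hu : IsPole c l u) : u ≠ 0 := by
  rintro rfl
  obtain ⟨a, e, _, hle⟩ := hl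
  have ha : a ∈ l := by rw [hle]; exact ⟨0, by simp⟩
  rw [hu] at ha
  simp at ha

lemma pole_unique {c u v : ℂ} {l : Set ℂ} (hl : IsLine l) (hu : IsPole c l u)
    (hv : IsPole c l v) : u = v := by
  have hu0 := pole_ne hl hu
  obtain ⟨N, hNd⟩ : ∃ N : ℝ, N = u.re * u.re + u.im * u.im := ⟨_, rfl⟩
  have hN : N ≠ 0 := by
    intro h0
    apply hu0
    rw [← Complex.normSq_eq_zero, Complex.normSq_apply, ← hNd]
    exact h0
  have hmem : ∀ t : ℝ, (⟨c.re + (u.re / N - t * u.im), c.im + (u.im / N + t * u.re)⟩ : ℂ) ∈ l := by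
    intro t
    rw [hu]
    simp only [Set.mem_ofPred_eq, Complex.mul_re, Complex.sub_re, Complex.sub_im, Complex.conj_re,
      Complex.conj_im]
    field_simp
    linear_combination -hNd
  have h0 := hmem 0
  have h1 := hmem 1
  rw [hv] at h0 h1
  simp only [Set.mem_ofPred_eq, Complex.mul_re, Complex.sub_re, Complex.sub_im, Complex.conj_re,
    Complex.conj_im] at h0 h1
  field_simp at h0 h1
  have e1 : u.re * v.re + u.im * v.im = N := by linear_combination h0
  have e2 : u.re * v.im - u.im * v.re = 0 := by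
    have e3 : N * (u.re * v.im - u.im * v.re) = 0 := by
      linear_combination h1 - h0
    exact (mul_eq_zero.1 e3).resolve_left hN
  apply Complex.ext
  · have : N * (u.re - v.re) = 0 := by
      linear_combination (-u.re) * e1 + u.im * e2 + (-v.re) * hNd
    have := (mul_eq_zero.1 this).resolve_left hN
    linarith
  · have : N * (u.im - v.im) = 0 := by
      linear_combination (-u.im) * e1 - u.re * e2 + (-v.im) * hNd
    have := (mul_eq_zero.1 this).resolve_left hN
    linarith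

lemma pole_rho {c u w : ℂ} {l : Set ℂ} (hw : ‖w‖ = 1) (hu : IsPole c l u) :
    IsPole c (rho c w '' l) (w * u) := by
  have hww := d_conj hw
  unfold IsPole at hu ⊢
  ext z
  constructor
  · rintro ⟨y, hy, rfl⟩
    rw [hu] at hy
    simp only [Set.mem_ofPred_eq] at hy ⊢
    rw [← hy]
    congr 1
    unfold rho
    rw [map_mul]
    linear_combination ((y - c) * conj u) * hww
  · intro hz
    refine ⟨rho c (conj w) z, ?_, ?_⟩
    · rw [hu]
      simp only [Set.mem_ofPred_eq] at hz ⊢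
      rw [← hz]
      congr 1
      unfold rho
      rw [map_mul]
      ring
    · rw [rho_rho, hww, rho_one]

lemma pole_refl {c d u : ℂ} {l : Set ℂ} (hd : ‖d‖ = 1) (hu : IsPole c l u) :
    IsPole c (refl c d '' l) (d ^ 2 * conj u) := by
  have hdd := d_conj hd
  unfold IsPole at hu ⊢
  have key : ∀ z, ((refl c d z - c) * conj u).re = ((z - c) * conj (d ^ 2 * conj u)).re := by
    intro z
    have : (z - c) * conj (d ^ 2 * conj u) = conj ((refl c d z - c) * conj u) := by
      unfold refl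
      simp only [map_mul, map_pow, map_sub, map_add, Complex.conj_conj]
      ring
    rw [this, Complex.conj_re]
  ext z
  constructor
  · rintro ⟨y, hy, rfl⟩
    rw [hu] at hy
    simp only [Set.mem_ofPred_eq] at hy ⊢
    rw [← key, refl_refl hd]
    exact hy
  · intro hz
    refine ⟨refl c d z, ?_, refl_refl hd z⟩
    rw [hu]
    simp only [Set.mem_ofPred_eq] at hz ⊢
    rw [key]
    exact hz

lemma isLine_dual {v : ℂ} (hv : v ≠ 0) : IsLine {u | (v * conj u).re = 1} := by
  obtain ⟨N, hNd⟩ : ∃ N : ℝ, N = v.re * v.re + v.im * v.im := ⟨_, rfl⟩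
  have hN : N ≠ 0 := by
    intro h0
    apply hv
    rw [← Complex.normSq_eq_zero, Complex.normSq_apply, ← hNd]
    exact h0
  refine ⟨⟨v.re / N, v.im / N⟩, ⟨-v.im, v.re⟩, ?_, ?_⟩
  · intro h0
    apply hv
    have h1 := congrArg Complex.re h0
    have h2 := congrArg Complex.im h0
    simp only [Complex.zero_re, Complex.zero_im] at h1 h2
    apply Complex.ext
    · exact h2
    · simp only [Complex.zero_im]; linarith
  ext u
  simp only [Set.mem_ofPred_eq, Complex.mul_re, Complex.conj_re, Complex.conj_im]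
  constructor
  · intro hu
    refine ⟨(v.re * u.im - v.im * u.re) / N, ?_⟩
    apply Complex.ext
    · simp only [Complex.add_re, Complex.mul_re, Complex.ofReal_re,
        Complex.ofReal_im]
      field_simp
      linear_combination v.re * hu + u.re * hNd
    · simp only [Complex.add_im, Complex.mul_im, Complex.ofReal_re,
        Complex.ofReal_im]
      field_simp
      linear_combination v.im * hu + u.im * hNd
  · rintro ⟨t, rfl⟩
    simp only [Complex.add_re, Complex.add_im, Complex.mul_re, Complex.mul_im, Complex.ofReal_re,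
      Complex.ofReal_im]
    field_simp
    linear_combination -hNd

lemma dist_orbit (h : IsConfig 21 4 P L) {c : ℂ} (hcP : c ∉ P)
    (hO : ∀ l ∈ L, (orbL L c l).card = 7) {l1 l2 : Set ℂ} (hl1 : l1 ∈ L) (hl2 : l2 ∈ L)
    {u1 u2 : ℂ} (hu1 : IsPole c l1 u1) (hu2 : IsPole c l2 u2)
    (huu : Complex.normSq u1 = Complex.normSq u2) :
    ∃ w : ℂ, w ^ 7 = 1 ∧ l2 = rho c w '' l1 := by
  by_contra hcon
  have hdisj : Disjoint (orbL L c l1) (orbL L c l2) := by
    rw [Finset.disjoint_left]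
    intro x hx hx'
    unfold orbL at hx hx'
    rw [Finset.mem_filter] at hx hx'
    obtain ⟨_, w, hw, rfl⟩ := hx
    obtain ⟨_, v, hv, hx'⟩ := hx'
    apply hcon
    refine ⟨v⁻¹ * w, root7_mul (root7_inv hv) hw, ?_⟩
    rw [← rho_image_image, hx', rho_image_image, inv_mul_cancel₀ (root7_ne hv), rho_image_one]
  set U := orbL L c l1 ∪ orbL L c l2 with hU
  have hUc : U.card = 14 := by
    rw [hU, Finset.card_union_of_disjoint hdisj, hO l1 hl1, hO l2 hl2]
  have hUL : U ⊆ L := by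
    rw [hU]
    exact Finset.union_subset (Finset.filter_subset _ _) (Finset.filter_subset _ _)
  have hUr : ∀ l ∈ U, ∃ u, IsPole c l u ∧ Complex.normSq (u - 0) = Complex.normSq u1 := by
    intro l hl
    rw [hU, Finset.mem_union] at hl
    unfold orbL at hl
    rw [Finset.mem_filter, Finset.mem_filter] at hl
    rcases hl with ⟨_, w, hw, rfl⟩ | ⟨_, w, hw, rfl⟩
    · refine ⟨w * u1, pole_rho (root7_norm hw) hu1, ?_⟩
      rw [sub_zero, Complex.normSq_mul, Complex.normSq_eq_norm_sq w, root7_norm hw]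
      ring
    · refine ⟨w * u2, pole_rho (root7_norm hw) hu2, ?_⟩
      rw [sub_zero, Complex.normSq_mul, Complex.normSq_eq_norm_sq w, root7_norm hw, huu]
      ring
  have hTc : (L \ U).card = 7 := by
    rw [Finset.card_sdiff_of_subset hUL, hUc, h.cardL]
  have h1 := double_count P (L \ U)
  have h2 : ∑ l ∈ L \ U, (P.filter (fun p => p ∈ l)).card = (L \ U).card * 4 := by
    rw [Finset.sum_const_nat]
    intro x hx
    exact h.size x (Finset.mem_sdiff.1 hx).1
  have h3 : P.card * 2 ≤ ∑ p ∈ P, ((L \ U).filter (fun l => p ∈ l)).card := by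
    rw [← smul_eq_mul]
    apply Finset.card_nsmul_le_sum
    intro p hp
    have h4 : (U.filter (fun l => p ∈ l)).card ≤ 2 := by
      by_contra hcon2
      rw [not_le] at hcon2
      obtain ⟨x, hx, y, hy, z, hz, hxy, hxz, hyz⟩ := Finset.two_lt_card.1 hcon2
      rw [Finset.mem_filter] at hx hy hz
      obtain ⟨ux, hux, hux'⟩ := hUr x hx.1
      obtain ⟨uy, huy, huy'⟩ := hUr y hy.1
      obtain ⟨uz, huz, huz'⟩ := hUr z hz.1
      have hpc : p - c ≠ 0 := by
        rw [sub_ne_zero]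
        rintro rfl
        exact hcP hp
      have hx2 := hx.2
      have hy2 := hy.2
      have hz2 := hz.2
      rw [hux] at hx2
      rw [huy] at hy2
      rw [huz] at hz2
      have n1 : ux ≠ uy := by
        rintro rfl
        exact hxy (hux.trans huy.symm)
      have n2 : ux ≠ uz := by
        rintro rfl
        exact hxz (hux.trans huz.symm)
      have n3 : uy ≠ uz := by
        rintro rfl
        exact hyz (huy.trans huz.symm)
      exact not_three_circle (isLine_dual hpc) 0 _ (x := ux) (y := uy) (z := uz) hx2 hy2 hz2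
        n1 n2 n3 hux' huy' huz'
    have h5 : (L.filter (fun l => p ∈ l)) =
        ((L \ U).filter (fun l => p ∈ l)) ∪ (U.filter (fun l => p ∈ l)) := by
      rw [← Finset.filter_union, Finset.sdiff_union_of_subset hUL]
    have h6 := Finset.card_union_le ((L \ U).filter (fun l => p ∈ l)) (U.filter (fun l => p ∈ l))
    rw [← h5, h.deg p hp] at h6
    omega
  rw [h1, h2, hTc, h.cardP] at h3
  omega

lemma orbP_fixed (h : IsConfig 21 4 P L) {c d : ℂ} (hd : ‖d‖ = 1)
    (hO : ∀ p ∈ P, (orbP P c p).card = 7) (hp : Preserves P L (refl c d)) {p : ℂ} (hpP : p ∈ P) :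
    ∃ x ∈ orbP P c p, x ∈ mirror c d := by
  have h1 := parity (orbP P c p) (refl c d) (by
    intro x hx
    unfold orbP at hx ⊢
    rw [Finset.mem_filter] at hx ⊢
    obtain ⟨hxP, w, hw, rfl⟩ := hx
    refine ⟨hp.mem hxP, radius_orbit h hO hpP (hp.mem hxP) ?_⟩
    rw [normSq_refl hd, normSq_rho (root7_norm hw)]) (fun x _ => refl_refl hd x)
  rw [hO p hpP] at h1
  have h2 : ((orbP P c p).filter (fun x => refl c d x = x)).card ≠ 0 := by
    intro h0
    rw [h0] at h1
    norm_num at h1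
  obtain ⟨x, hx⟩ := Finset.card_pos.1 (Nat.pos_of_ne_zero h2)
  rw [Finset.mem_filter] at hx
  exact ⟨x, hx.1, by rw [mem_mirror hd, ← refl_fix hd]; exact hx.2⟩

lemma orbL_fixed (h : IsConfig 21 4 P L) {c d : ℂ} (hd : ‖d‖ = 1) (hcP : c ∉ P)
    (hO : ∀ p ∈ P, (orbP P c p).card = 7) (hOL : ∀ l ∈ L, (orbL L c l).card = 7)
    (hp : Preserves P L (refl c d)) {l : Set ℂ} (hl : l ∈ L) :
    ∃ l' ∈ orbL L c l, refl c d '' l' = l' := by
  obtain ⟨u, hu⟩ := exists_pole (h.line l hl) (no_line_through h hcP hO hl)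
  have h1 := parity (orbL L c l) (fun l' => refl c d '' l') (by
    intro x hx
    unfold orbL at hx ⊢
    rw [Finset.mem_filter] at hx ⊢
    obtain ⟨hxL, w, hw, rfl⟩ := hx
    refine ⟨hp.memL hxL, dist_orbit h hcP hOL hl (hp.memL hxL) hu
      (pole_refl hd (pole_rho (root7_norm hw) hu)) ?_⟩
    rw [Complex.normSq_mul, Complex.normSq_conj, Complex.normSq_mul,
      Complex.normSq_eq_norm_sq (d ^ 2), norm_pow, hd, Complex.normSq_eq_norm_sq w, root7_norm hw]
    ring) (fun x _ => by simp only [Set.image_image, refl_refl hd, Set.image_id'])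
  rw [hOL l hl] at h1
  have h2 : ((orbL L c l).filter (fun x => refl c d '' x = x)).card ≠ 0 := by
    intro h0
    have h3 : 7 % 2 = ((orbL L c l).filter (fun x => refl c d '' x = x)).card % 2 := by
      convert h1
    rw [h0] at h3
    norm_num at h3
  obtain ⟨x, hx⟩ := Finset.card_pos.1 (Nat.pos_of_ne_zero h2)
  rw [Finset.mem_filter] at hx
  exact ⟨x, hx.1, hx.2⟩

lemma two_axis (h : IsConfig 21 4 P L) {c d : ℂ} (hd : ‖d‖ = 1)
    (hO : ∀ p ∈ P, (orbP P c p).card = 7) (hp : Preserves P L (refl c d)) :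
    1 < (P.filter (fun p => p ∈ mirror c d)).card := by
  have hne : P.Nonempty := by rw [← Finset.card_pos, h.cardP]; norm_num
  obtain ⟨p, hpP⟩ := hne
  obtain ⟨x, hx, hxm⟩ := orbP_fixed h hd hO hp hpP
  have hex : ∃ q ∈ P, q ∉ orbP P c p := by
    by_contra hcon
    push Not at hcon
    have := Finset.card_le_card (show P ⊆ orbP P c p from hcon)
    rw [hO p hpP, h.cardP] at this
    omega
  obtain ⟨q, hqP, hq⟩ := hex
  obtain ⟨y, hy, hym⟩ := orbP_fixed h hd hO hp hqP
  rw [Finset.one_lt_card]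
  refine ⟨x, ?_, y, ?_, ?_⟩
  · rw [Finset.mem_filter]; exact ⟨(Finset.mem_filter.1 hx).1, hxm⟩
  · rw [Finset.mem_filter]; exact ⟨(Finset.mem_filter.1 hy).1, hym⟩
  · rintro rfl
    apply hq
    unfold orbP at hx hy ⊢
    rw [Finset.mem_filter] at hx hy ⊢
    obtain ⟨_, w, hw, rfl⟩ := hx
    obtain ⟨_, v, hv, hy⟩ := hy
    refine ⟨hqP, v⁻¹ * w, root7_mul (root7_inv hv) hw, ?_⟩
    rw [← rho_rho, hy, rho_rho, inv_mul_cancel₀ (root7_ne hv), rho_one]

lemma two_perp (h : IsConfig 21 4 P L) {c d : ℂ} (hd : ‖d‖ = 1) (hcP : c ∉ P)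
    (hO : ∀ p ∈ P, (orbP P c p).card = 7) (hOL : ∀ l ∈ L, (orbL L c l).card = 7)
    (hp : Preserves P L (refl c d)) (hm : mirror c d ∉ L) :
    1 < (L.filter (fun l => ∃ s : ℝ, l = mirror (c + s * d) (Complex.I * d))).card := by
  have hne : L.Nonempty := by rw [← Finset.card_pos, h.cardL]; norm_num
  have hfix : ∀ l ∈ L, refl c d '' l = l →
      ∃ s : ℝ, l = mirror (c + s * d) (Complex.I * d) := by
    intro l hl hll
    rcases fixed_line_refl hd (h.line l hl) hll with h1 | h1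
    · rw [h1] at hl; exact absurd hl hm
    · exact h1
  obtain ⟨p, hpP⟩ := hne
  obtain ⟨x, hx, hxm⟩ := orbL_fixed h hd hcP hO hOL hp hpP
  have hex : ∃ q ∈ L, q ∉ orbL L c p := by
    by_contra hcon
    push Not at hcon
    have := Finset.card_le_card (show L ⊆ orbL L c p from hcon)
    rw [hOL p hpP, h.cardL] at this
    omega
  obtain ⟨q, hqP, hq⟩ := hex
  obtain ⟨y, hy, hym⟩ := orbL_fixed h hd hcP hO hOL hp hqP
  have hxL : x ∈ L := (Finset.mem_filter.1 hx).1
  have hyL : y ∈ L := (Finset.mem_filter.1 hy).1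
  rw [Finset.one_lt_card]
  refine ⟨x, ?_, y, ?_, ?_⟩
  · rw [Finset.mem_filter]; exact ⟨hxL, hfix x hxL hxm⟩
  · rw [Finset.mem_filter]; exact ⟨hyL, hfix y hyL hym⟩
  · rintro rfl
    apply hq
    unfold orbL at hx hy ⊢
    rw [Finset.mem_filter] at hx hy ⊢
    obtain ⟨_, w, hw, rfl⟩ := hx
    obtain ⟨_, v, hv, hy⟩ := hy
    refine ⟨hqP, v⁻¹ * w, root7_mul (root7_inv hv) hw, ?_⟩
    rw [← rho_image_image, hy, rho_image_image, inv_mul_cancel₀ (root7_ne hv), rho_image_one]

lemma even_meet (h : IsConfig 21 4 P L) {c d : ℂ} (hd : ‖d‖ = 1) (hcP : c ∉ P)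
    (hpr : ∀ w : ℂ, w ^ 7 = 1 → Preserves P L (rho c w))
    (hO : ∀ p ∈ P, (orbP P c p).card = 7) (hOL : ∀ l ∈ L, (orbL L c l).card = 7)
    (hp : Preserves P L (refl c d)) {l : Set ℂ} (hl : l ∈ L) {p : ℂ} (hpP : p ∈ P) :
    ((orbP P c p).filter (fun x => x ∈ l)).card = 0 ∨
      ((orbP P c p).filter (fun x => x ∈ l)).card = 2 := by
  obtain ⟨hm, hfoot, -⟩ := reflection_types h hd hp
  obtain ⟨l0, hl0, hfix0⟩ := orbL_fixed h hd hcP hO hOL hp hl
  unfold orbL at hl0
  rw [Finset.mem_filter] at hl0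
  obtain ⟨hl0L, w, hw, hl0w⟩ := hl0
  have hperp : ∃ s : ℝ, l0 = mirror (c + s * d) (Complex.I * d) := by
    rcases fixed_line_refl hd (h.line l0 hl0L) hfix0 with h1 | h1
    · rw [h1] at hl0L; exact absurd hl0L hm
    · exact h1
  have hr : ∀ x ∈ orbP P c p, Complex.normSq (x - c) = Complex.normSq (p - c) := by
    intro x hx
    unfold orbP at hx
    rw [Finset.mem_filter] at hx
    obtain ⟨_, v, hv, rfl⟩ := hx
    exact normSq_rho (root7_norm hv)
  have h1 := parity ((orbP P c p).filter (fun x => x ∈ l0)) (refl c d) (by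
    intro x hx
    rw [Finset.mem_filter] at hx ⊢
    refine ⟨?_, ?_⟩
    · have hxr := hr x hx.1
      have hxP : x ∈ P := (Finset.mem_filter.1 hx.1).1
      unfold orbP
      rw [Finset.mem_filter]
      refine ⟨hp.mem hxP, radius_orbit h hO hpP (hp.mem hxP) ?_⟩
      rw [normSq_refl hd, hxr]
    · have h2 := Set.mem_image_of_mem (refl c d) hx.2
      rwa [hfix0] at h2) (fun x _ => refl_refl hd x)
  have h2 : ((orbP P c p).filter (fun x => x ∈ l0)).filter (fun x => refl c d x = x) = ∅ := by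
    apply Finset.filter_eq_empty_iff.2
    intro x hx hxx
    rw [Finset.mem_filter] at hx
    apply hfoot l0 hl0L hperp x (Finset.mem_filter.1 hx.1).1 hx.2
    rw [mem_mirror hd, ← refl_fix hd]
    exact hxx
  have h3 : ((orbP P c p).filter (fun x => x ∈ l0)).card % 2 =
      (((orbP P c p).filter (fun x => x ∈ l0)).filter (fun x => refl c d x = x)).card % 2 := by
    convert h1
  rw [h2, Finset.card_empty] at h3
  have h4 := circle_le_two hr (h.line l0 hl0L)
  have h5 : ((orbP P c p).filter (fun x => x ∈ l)).image (rho c w) =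
      (orbP P c p).filter (fun x => x ∈ l0) := by
    ext y
    rw [Finset.mem_image, Finset.mem_filter]
    constructor
    · rintro ⟨x, hx, rfl⟩
      rw [Finset.mem_filter] at hx
      refine ⟨?_, ?_⟩
      · obtain ⟨hx1, _⟩ := hx
        unfold orbP at hx1 ⊢
        rw [Finset.mem_filter] at hx1 ⊢
        obtain ⟨hxP, v, hv, rfl⟩ := hx1
        exact ⟨(hpr w hw).mem hxP, w * v, root7_mul hw hv, by rw [rho_rho]⟩
      · rw [hl0w]; exact Set.mem_image_of_mem _ hx.2
    · rintro ⟨hy, hyl⟩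
      rw [hl0w] at hyl
      obtain ⟨x, hxl, rfl⟩ := hyl
      refine ⟨x, ?_, rfl⟩
      rw [Finset.mem_filter]
      refine ⟨?_, hxl⟩
      unfold orbP at hy ⊢
      rw [Finset.mem_filter] at hy ⊢
      obtain ⟨hyP, v, hv, hy⟩ := hy
      have hx' : x = rho c (w⁻¹ * v) p := by
        rw [← rho_rho, ← hy, rho_rho, inv_mul_cancel₀ (root7_ne hw), rho_one]
      refine ⟨?_, w⁻¹ * v, root7_mul (root7_inv hw) hv, hx'⟩
      rw [hx']
      exact (hpr _ (root7_mul (root7_inv hw) hv)).mem hpP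
  have h6 : ((orbP P c p).filter (fun x => x ∈ l0)).card =
      ((orbP P c p).filter (fun x => x ∈ l)).card := by
    rw [← h5]
    apply Finset.card_image_of_injective
    intro x y hxy
    unfold rho at hxy
    exact sub_left_injective (mul_left_cancel₀ (root7_ne hw) (add_left_cancel hxy))
  omega


/-! ### the types `(1, 5)` and `(5, 1)` -/

/-- the counting behind the types `(1, 5)` and `(5, 1)` -/
lemma five_combi {α : Type*} (A : Finset α) (X : Finset ℝ) (hX : X.card = 5) {σ : ℝ}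
    (hσ : σ ∈ X) (R0 R1 : α → ℝ → Prop)
    (h1 : ∀ γ ∈ X, γ ≠ σ → (A.filter (fun a => R0 a γ)).card = 4)
    (h2 : ∀ a ∈ A, ∀ γ ∈ X, γ ≠ σ → R0 a γ → ∃ δ ∈ X, δ ≠ γ ∧ R1 a δ)
    (h3 : ∀ a ∈ A, ∀ b ∈ A, ∀ γ ∈ X, ∀ δ ∈ X, R0 a γ → R0 b γ → R1 a δ → R1 b δ → a = b)
    (h4 : (A.filter (fun a => R1 a σ)).card = 4)
    (h5 : ∃ a ∈ A, R1 a σ ∧ ∀ γ ∈ X, ¬ R0 a γ)
    (h6 : ∀ a ∈ A, ∀ γ ∈ X, ∀ γ' ∈ X, R0 a γ → R0 a γ' → γ = γ') : False := by
  have key : ∀ γ ∈ X.erase σ, ∃ a, a ∈ A ∧ R0 a γ ∧ R1 a σ := by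
    intro γ hγ
    rw [Finset.mem_erase] at hγ
    by_contra hcon
    push Not at hcon
    have h7 : ∀ a ∈ A.filter (fun a => R0 a γ), ∃ δ ∈ (X.erase γ).erase σ, R1 a δ := by
      intro a ha
      rw [Finset.mem_filter] at ha
      obtain ⟨δ, hδ, hδγ, hR⟩ := h2 a ha.1 γ hγ.2 hγ.1 ha.2
      refine ⟨δ, ?_, hR⟩
      rw [Finset.mem_erase, Finset.mem_erase]
      refine ⟨?_, hδγ, hδ⟩
      rintro rfl
      exact hcon a ha.1 ha.2 hR
    choose! f hf hfR using h7
    have hle := Finset.card_le_card_of_injOn f (s := A.filter (fun a => R0 a γ))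
      (t := (X.erase γ).erase σ) hf (by
        intro a ha b hb hab
        have ha' := hf a ha
        rw [Finset.mem_erase, Finset.mem_erase] at ha'
        have h8 := hfR b hb
        rw [← hab] at h8
        exact h3 a (Finset.mem_filter.1 ha).1 b (Finset.mem_filter.1 hb).1 γ hγ.2 (f a) ha'.2.2
          (Finset.mem_filter.1 ha).2 (Finset.mem_filter.1 hb).2 (hfR a ha) h8)
    rw [h1 γ hγ.2 hγ.1, Finset.card_erase_of_mem (Finset.mem_erase.2 ⟨hγ.1.symm, hσ⟩),
      Finset.card_erase_of_mem hγ.2, hX] at hle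
    omega
  obtain ⟨a0, ha0, hR, hno⟩ := h5
  have : Nonempty α := ⟨a0⟩
  choose! g hg1 hg2 hg3 using key
  have hle := Finset.card_le_card_of_injOn g (s := X.erase σ)
    (t := (A.filter (fun a => R1 a σ)).erase a0) (by
      intro γ hγ
      have hγ' : γ ∈ X.erase σ := hγ
      rw [Finset.mem_coe, Finset.mem_erase, Finset.mem_filter]
      refine ⟨?_, hg1 γ hγ', hg3 γ hγ'⟩
      intro h7
      apply hno γ (Finset.mem_erase.1 hγ').2
      rw [← h7]
      exact hg2 γ hγ') (by
      intro γ hγ δ hδ hgg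
      have hγ' : γ ∈ X.erase σ := hγ
      have hδ' : δ ∈ X.erase σ := hδ
      have h7 := hg2 δ hδ'
      rw [← hgg] at h7
      exact h6 (g γ) (hg1 γ hγ') γ (Finset.mem_erase.1 hγ').2 δ (Finset.mem_erase.1 hδ').2
        (hg2 γ hγ') h7)
  rw [Finset.card_erase_of_mem hσ, hX,
    Finset.card_erase_of_mem (Finset.mem_filter.2 ⟨ha0, hR⟩), h4] at hle
  omega

/-- the coordinates of a primitive third root of unity -/
lemma root3 {w : ℂ} (hw : w ^ 3 = 1) (hw1 : w ≠ 1) :
    w.re = -1 / 2 ∧ w.im * w.im = 3 / 4 ∧ w * conj w = 1 := by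
  have h1 : w ^ 2 + w + 1 = 0 := by
    have h2 : (w - 1) * (w ^ 2 + w + 1) = 0 := by linear_combination hw
    exact (mul_eq_zero.1 h2).resolve_left (sub_ne_zero.2 hw1)
  have hn : ‖w‖ = 1 := by
    have h2 : ‖w‖ ^ 3 = 1 := by rw [← norm_pow, hw, norm_one]
    exact (pow_eq_one_iff_of_nonneg (norm_nonneg w) (by norm_num)).1 h2
  have h3 := d_conj hn
  have h4 := congrArg Complex.re h3
  have h5 := congrArg Complex.im h1
  have h6 := congrArg Complex.re h1
  simp only [Complex.mul_re, Complex.conj_re, Complex.conj_im, Complex.one_re, pow_two,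
    Complex.add_re, Complex.add_im, Complex.mul_im, Complex.one_im, Complex.zero_im,
    Complex.zero_re] at h4 h5 h6
  have h7 : w.im ≠ 0 := by
    intro h0
    rw [h0] at h6
    nlinarith [sq_nonneg (2 * w.re + 1)]
  have h8 : w.re = -1 / 2 := by
    have h9 : w.im * (2 * w.re + 1) = 0 := by linear_combination h5
    have := (mul_eq_zero.1 h9).resolve_left h7
    linarith
  refine ⟨h8, ?_, h3⟩
  rw [h8] at h4
  linarith

lemma coord_w (c d w z : ℂ) : coord c (w * d) z = conj w * coord c d z := by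
  unfold coord
  rw [map_mul]
  ring

lemma coord_rho (c d w z : ℂ) : coord c d (rho c w z) = w * coord c d z := by
  unfold coord rho
  ring

/-- no configuration with a threefold rotation and a mirror has type `(1, 5)` -/
lemma no_one_five (h : IsConfig 21 4 P L) {c d : ℂ} (hd : ‖d‖ = 1) (hcP : c ∉ P)
    (hpr : ∀ w : ℂ, w ^ 3 = 1 → Preserves P L (rho c w))
    (hfoot : ∀ l ∈ L, (∃ s : ℝ, l = mirror (c + s * d) (Complex.I * d)) →
      ∀ p ∈ P, p ∈ l → p ∉ mirror c d)
    (ha : (P.filter (fun p => p ∈ mirror c d)).card = 1)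
    (hb : (L.filter (fun l => ∃ s : ℝ, l = mirror (c + s * d) (Complex.I * d))).card = 5) :
    False := by
  -- every point off the mirror is on a perpendicular line
  have hoff : ∀ p ∈ P, (coord c d p).im ≠ 0 →
      mirror (c + ((coord c d p).re : ℝ) * d) (Complex.I * d) ∈ L := by
    have h1 := double_count P
      (L.filter (fun l => ∃ s : ℝ, l = mirror (c + s * d) (Complex.I * d)))
    have h2 : ∑ l ∈ L.filter (fun l => ∃ s : ℝ, l = mirror (c + s * d) (Complex.I * d)),
        (P.filter (fun p => p ∈ l)).card = 5 * 4 := by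
      rw [Finset.sum_const_nat (m := 4), hb]
      intro l hl
      exact h.size l (Finset.mem_filter.1 hl).1
    have h3 : ∑ p ∈ P, ((L.filter (fun l => ∃ s : ℝ, l = mirror (c + s * d)
        (Complex.I * d))).filter (fun l => p ∈ l)).card
        ≤ ∑ p ∈ P, (if (p ∉ mirror c d ∧ ∃ l ∈ L, (∃ s : ℝ, l = mirror (c + s * d)
          (Complex.I * d)) ∧ p ∈ l) then 1 else 0) := by
      apply Finset.sum_le_sum
      intro p hpP
      by_cases hpm : (p ∉ mirror c d ∧ ∃ l ∈ L, (∃ s : ℝ, l = mirror (c + s * d)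
          (Complex.I * d)) ∧ p ∈ l)
      · rw [if_pos hpm, Finset.card_le_one]
        intro l hl l' hl'
        rw [Finset.mem_filter, Finset.mem_filter] at hl hl'
        obtain ⟨⟨_, s, hs⟩, hpl⟩ := hl
        obtain ⟨⟨_, s', hs'⟩, hpl'⟩ := hl'
        rw [hs, mem_perp hd] at hpl
        rw [hs', mem_perp hd] at hpl'
        rw [hs, hs', ← hpl, ← hpl']
      · rw [if_neg hpm, Nat.le_zero, Finset.card_eq_zero]
        apply Finset.filter_eq_empty_iff.2
        intro l hl hpl
        rw [Finset.mem_filter] at hl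
        exact hpm ⟨hfoot l hl.1 hl.2 p hpP hpl, l, hl.1, hl.2, hpl⟩
    have h4 : ∑ p ∈ P, (if (p ∉ mirror c d ∧ ∃ l ∈ L, (∃ s : ℝ, l = mirror (c + s * d)
          (Complex.I * d)) ∧ p ∈ l) then 1 else 0) =
        (P.filter (fun p => p ∉ mirror c d ∧ ∃ l ∈ L, (∃ s : ℝ, l = mirror (c + s * d)
          (Complex.I * d)) ∧ p ∈ l)).card := (Finset.card_filter _ _).symm
    rw [h1, h2, h4] at h3
    have h5 : (P.filter (fun p => p ∈ mirror c d)).card +
        (P.filter (fun p => ¬ p ∈ mirror c d)).card = P.card :=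
      Finset.card_filter_add_card_filter_not _
    rw [h.cardP, ha] at h5
    have h6 : P.filter (fun p => p ∉ mirror c d ∧ ∃ l ∈ L, (∃ s : ℝ, l = mirror (c + s * d)
          (Complex.I * d)) ∧ p ∈ l) = P.filter (fun p => ¬ p ∈ mirror c d) := by
      apply Finset.eq_of_subset_of_card_le
      · intro p hp
        rw [Finset.mem_filter] at hp ⊢
        exact ⟨hp.1, hp.2.1⟩
      · omega
    intro p hpP hpi
    have h7 : p ∈ P.filter (fun p => ¬ p ∈ mirror c d) := by
      rw [Finset.mem_filter, mem_mirror hd]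
      exact ⟨hpP, hpi⟩
    rw [← h6, Finset.mem_filter] at h7
    obtain ⟨_, _, l, hl, ⟨s, hs⟩, hpl⟩ := h7
    have h8 := hpl
    rw [hs, mem_perp hd] at h8
    rw [h8, ← hs]
    exact hl
  -- the point on the mirror
  obtain ⟨q, hq⟩ := Finset.card_eq_one.1 ha
  have hqm : q ∈ P ∧ (coord c d q).im = 0 := by
    have : q ∈ P.filter (fun p => p ∈ mirror c d) := by rw [hq]; exact Finset.mem_singleton_self q
    rw [Finset.mem_filter, mem_mirror hd] at this
    exact this
  have hquniq : ∀ p ∈ P, (coord c d p).im = 0 → p = q := by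
    intro p hp hpi
    have : p ∈ P.filter (fun p => p ∈ mirror c d) := by
      rw [Finset.mem_filter, mem_mirror hd]
      exact ⟨hp, hpi⟩
    rw [hq, Finset.mem_singleton] at this
    exact this
  set t : ℝ := (coord c d q).re with ht
  have ht0 : t ≠ 0 := by
    intro h0
    apply hcP
    have h1 : coord c d q = 0 := Complex.ext h0 hqm.2
    have h2 := coord_spec (c := c) hd q
    rw [h1, mul_zero, add_zero] at h2
    rw [← h2]
    exact hqm.1
  -- a rotation of order three
  obtain ⟨w, hw3, hw1⟩ : ∃ w : ℂ, w ^ 3 = 1 ∧ w ≠ 1 := by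
    have hprim := Complex.isPrimitiveRoot_exp 3 (by norm_num)
    exact ⟨_, hprim.pow_eq_one, hprim.ne_one (by norm_num)⟩
  obtain ⟨hwr, hwi, hww⟩ := root3 hw3 hw1
  have hcw3 : (conj w) ^ 3 = 1 := by rw [← map_pow, hw3, map_one]
  have hwi0 : w.im ≠ 0 := by
    intro h0
    rw [h0] at hwi
    norm_num at hwi
  -- the two coordinates
  have hs1 : ∀ p, (conj w * coord c d p).re =
      -(coord c d p).re / 2 + w.im * (coord c d p).im := by
    intro p
    rw [Complex.mul_re, Complex.conj_re, Complex.conj_im, hwr]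
    ring
  have hs1i : ∀ p, (conj w * coord c d p).im =
      -(coord c d p).im / 2 - w.im * (coord c d p).re := by
    intro p
    rw [Complex.mul_im, Complex.conj_re, Complex.conj_im, hwr]
    ring
  have hs2i : ∀ p, (w * coord c d p).im =
      -(coord c d p).im / 2 + w.im * (coord c d p).re := by
    intro p
    rw [Complex.mul_im, hwr]
    ring
  -- the points on the other two mirrors
  have hq1 : ∀ p ∈ P, (conj w * coord c d p).im = 0 → (coord c d p).re = -t / 2 := by
    intro p hp hpi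
    have h1 := (hpr _ hcw3).mem hp
    have h2 := hquniq _ h1 (by rw [coord_rho]; exact hpi)
    have h3 : coord c d p = w * coord c d q := by
      rw [← h2, coord_rho, ← mul_assoc, hww, one_mul]
    rw [h3, Complex.mul_re, hqm.2, hwr, ← ht]
    ring
  have hq2 : ∀ p ∈ P, (w * coord c d p).im = 0 → (coord c d p).re = -t / 2 := by
    intro p hp hpi
    have h1 := (hpr _ hw3).mem hp
    have h2 := hquniq _ h1 (by rw [coord_rho]; exact hpi)
    have h3 : coord c d p = conj w * coord c d q := by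
      rw [← h2, coord_rho, ← mul_assoc, mul_comm (conj w) w, hww, one_mul]
    rw [h3, Complex.mul_re, hqm.2, Complex.conj_re, hwr, ← ht]
    ring
  -- the offsets
  have hchoose : ∀ l ∈ L.filter (fun l => ∃ s : ℝ, l = mirror (c + s * d) (Complex.I * d)),
      ∃ s : ℝ, l = mirror (c + s * d) (Complex.I * d) := fun l hl => (Finset.mem_filter.1 hl).2
  choose! sv hsv using hchoose
  set X : Finset ℝ :=
    (L.filter (fun l => ∃ s : ℝ, l = mirror (c + s * d) (Complex.I * d))).image sv with hX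
  have hXc : X.card = 5 := by
    rw [hX, Finset.card_image_of_injOn, hb]
    intro l hl l' hl' hll
    rw [hsv l hl, hsv l' hl', hll]
  have hXmem : ∀ s : ℝ, s ∈ X ↔ mirror (c + s * d) (Complex.I * d) ∈ L := by
    intro s
    rw [hX, Finset.mem_image]
    constructor
    · rintro ⟨l, hl, rfl⟩
      rw [← hsv l hl]
      exact (Finset.mem_filter.1 hl).1
    · intro hs
      have h1 : mirror (c + s * d) (Complex.I * d) ∈
          L.filter (fun l => ∃ s : ℝ, l = mirror (c + s * d) (Complex.I * d)) :=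
        Finset.mem_filter.2 ⟨hs, s, rfl⟩
      refine ⟨_, h1, ?_⟩
      have h2 : c + s * d ∈ mirror (c + s * d) (Complex.I * d) := ⟨0, by simp⟩
      have h3 := h2
      rw [hsv _ h1, mem_perp hd] at h3
      rw [mem_perp hd] at h2
      rw [← h3, h2]
  have hXs1 : ∀ p ∈ P, (conj w * coord c d p).im ≠ 0 → (conj w * coord c d p).re ∈ X := by
    intro p hp hpi
    have h1 := (hpr _ hcw3).mem hp
    have h2 := hoff _ h1 (by rw [coord_rho]; exact hpi)
    rw [coord_rho] at h2
    exact (hXmem _).2 h2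
  have hσq : (conj w * coord c d q).re = -t / 2 := by
    rw [hs1, hqm.2, ← ht]
    ring
  have hσ : -t / 2 ∈ X := by
    rw [← hσq]
    apply hXs1 q hqm.1
    rw [hs1i, hqm.2, ← ht]
    intro h0
    have : w.im * t = 0 := by linarith
    rcases mul_eq_zero.1 this with h1 | h1
    · exact hwi0 h1
    · exact ht0 h1
  apply five_combi P X hXc hσ (fun p γ => (coord c d p).re = γ)
    (fun p γ => (conj w * coord c d p).re = γ)
  · intro γ hγ _
    rw [hXmem] at hγ
    rw [← h.size _ hγ]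
    congr 1
    apply Finset.filter_congr
    intro p _
    rw [mem_perp hd]
  · intro p hp γ _ hγσ hpγ
    refine ⟨(conj w * coord c d p).re, ?_, ?_, rfl⟩
    · apply hXs1 p hp
      intro h0
      exact hγσ (by rw [← hpγ]; exact hq1 p hp h0)
    · intro h0
      apply hγσ
      rw [← hpγ]
      apply hq2 p hp
      rw [hs2i]
      rw [hs1, ← hpγ] at h0
      have h1 : w.im * (-(coord c d p).im / 2 + w.im * (coord c d p).re) = 0 := by
        linear_combination (-1/2 : ℝ) * h0 + (coord c d p).re * hwi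
      exact (mul_eq_zero.1 h1).resolve_left hwi0
  · intro p _ p' _ γ _ δ _ e1 e2 e3 e4
    rw [hs1] at e3 e4
    apply coord_inj (c := c) hd
    apply Complex.ext
    · rw [e1, e2]
    · apply mul_left_cancel₀ hwi0
      rw [e1] at e3
      rw [e2] at e4
      linarith
  · have h1 := (hXmem _).1 hσ
    have h2 := (hpr _ hw3).memL h1
    rw [← h.size _ h2]
    congr 1
    apply Finset.filter_congr
    intro p _
    constructor
    · intro hp
      refine ⟨rho c (conj w) p, ?_, ?_⟩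
      · rw [mem_perp hd, coord_rho]
        exact hp
      · rw [rho_rho, hww, rho_one]
    · rintro ⟨y, hy, rfl⟩
      rw [mem_perp hd] at hy
      rw [coord_rho, ← mul_assoc, mul_comm (conj w) w, hww, one_mul]
      exact hy
  · refine ⟨q, hqm.1, hσq, ?_⟩
    intro γ hγ hqγ
    rw [hXmem] at hγ
    apply hfoot _ hγ ⟨γ, rfl⟩ q hqm.1
    · rw [mem_perp hd]
      exact hqγ
    · rw [mem_mirror hd]
      exact hqm.2
  · intro p _ γ _ γ' _ e1 e2
    rw [← e1, e2]

/-- no configuration with a threefold rotation and a mirror has type `(5, 1)` -/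
lemma no_five_one (h : IsConfig 21 4 P L) {c d : ℂ} (hd : ‖d‖ = 1) (hcP : c ∉ P)
    (hpr : ∀ w : ℂ, w ^ 3 = 1 → Preserves P L (rho c w)) (hm : mirror c d ∉ L)
    (hfoot : ∀ l ∈ L, (∃ s : ℝ, l = mirror (c + s * d) (Complex.I * d)) →
      ∀ p ∈ P, p ∈ l → p ∉ mirror c d)
    (ha : (P.filter (fun p => p ∈ mirror c d)).card = 5)
    (hb : (L.filter (fun l => ∃ s : ℝ, l = mirror (c + s * d) (Complex.I * d))).card = 1) :
    False := by
  have hd0 : d ≠ 0 := by
    rintro rfl
    simp at hd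
  -- every line that is not perpendicular has a point on the mirror
  have hmeet : ∀ l ∈ L, (¬ ∃ s : ℝ, l = mirror (c + s * d) (Complex.I * d)) →
      ∃ p ∈ P, p ∈ mirror c d ∧ p ∈ l := by
    have h1 := double_count (P.filter (fun p => p ∈ mirror c d)) L
    have h2 : ∑ p ∈ P.filter (fun p => p ∈ mirror c d), (L.filter (fun l => p ∈ l)).card =
        5 * 4 := by
      rw [Finset.sum_const_nat (m := 4), ha]
      intro p hpP
      exact h.deg p (Finset.mem_filter.1 hpP).1
    have h3 : ∑ l ∈ L, ((P.filter (fun p => p ∈ mirror c d)).filter (fun p => p ∈ l)).card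
        ≤ ∑ l ∈ L, (if ((¬ ∃ s : ℝ, l = mirror (c + s * d) (Complex.I * d)) ∧
          ∃ p ∈ P, p ∈ mirror c d ∧ p ∈ l) then 1 else 0) := by
      apply Finset.sum_le_sum
      intro l hl
      by_cases hlp : ((¬ ∃ s : ℝ, l = mirror (c + s * d) (Complex.I * d)) ∧
          ∃ p ∈ P, p ∈ mirror c d ∧ p ∈ l)
      · rw [if_pos hlp, Finset.card_le_one]
        intro p hp1 q hq1
        rw [Finset.mem_filter, Finset.mem_filter] at hp1 hq1
        by_contra hpq
        have : l = mirror c d := line_eq_of_two (h.line l hl) ⟨c, d, hd0, rfl⟩ hpq hp1.2 hq1.2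
          hp1.1.2 hq1.1.2
        rw [this] at hl
        exact hm hl
      · rw [if_neg hlp, Nat.le_zero, Finset.card_eq_zero]
        apply Finset.filter_eq_empty_iff.2
        intro p hpP hpl
        rw [Finset.mem_filter] at hpP
        apply hlp
        refine ⟨?_, p, hpP.1, hpP.2, hpl⟩
        intro hs
        exact hfoot l hl hs p hpP.1 hpl hpP.2
    have h4 : ∑ l ∈ L, (if ((¬ ∃ s : ℝ, l = mirror (c + s * d) (Complex.I * d)) ∧
          ∃ p ∈ P, p ∈ mirror c d ∧ p ∈ l) then 1 else 0) =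
        (L.filter (fun l => (¬ ∃ s : ℝ, l = mirror (c + s * d) (Complex.I * d)) ∧
          ∃ p ∈ P, p ∈ mirror c d ∧ p ∈ l)).card := (Finset.card_filter _ _).symm
    rw [← h1, h2, h4] at h3
    have h5 : (L.filter (fun l => ∃ s : ℝ, l = mirror (c + s * d) (Complex.I * d))).card +
        (L.filter (fun l => ¬ ∃ s : ℝ, l = mirror (c + s * d) (Complex.I * d))).card = L.card :=
      Finset.card_filter_add_card_filter_not _
    rw [h.cardL, hb] at h5
    have h6 : L.filter (fun l => (¬ ∃ s : ℝ, l = mirror (c + s * d) (Complex.I * d)) ∧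
          ∃ p ∈ P, p ∈ mirror c d ∧ p ∈ l) =
        L.filter (fun l => ¬ ∃ s : ℝ, l = mirror (c + s * d) (Complex.I * d)) := by
      apply Finset.eq_of_subset_of_card_le
      · intro l hl
        rw [Finset.mem_filter] at hl ⊢
        exact ⟨hl.1, hl.2.1⟩
      · omega
    intro l hl hls
    have h7 : l ∈ L.filter (fun l => ¬ ∃ s : ℝ, l = mirror (c + s * d) (Complex.I * d)) := by
      rw [Finset.mem_filter]
      exact ⟨hl, hls⟩
    rw [← h6, Finset.mem_filter] at h7
    exact h7.2.2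
  -- the perpendicular line
  obtain ⟨l0, hl0⟩ := Finset.card_eq_one.1 hb
  have hl0m : l0 ∈ L ∧ ∃ s : ℝ, l0 = mirror (c + s * d) (Complex.I * d) := by
    have : l0 ∈ L.filter (fun l => ∃ s : ℝ, l = mirror (c + s * d) (Complex.I * d)) := by
      rw [hl0]; exact Finset.mem_singleton_self l0
    rw [Finset.mem_filter] at this
    exact this
  obtain ⟨hl0L, τ, hτ⟩ := hl0m
  have huniq : ∀ s : ℝ, mirror (c + s * d) (Complex.I * d) ∈ L → s = τ := by
    intro s hs
    have h1 : mirror (c + s * d) (Complex.I * d) ∈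
        L.filter (fun l => ∃ s : ℝ, l = mirror (c + s * d) (Complex.I * d)) :=
      Finset.mem_filter.2 ⟨hs, s, rfl⟩
    rw [hl0, Finset.mem_singleton, hτ] at h1
    have h2 : c + s * d ∈ mirror (c + s * d) (Complex.I * d) := ⟨0, by simp⟩
    have h3 := h2
    rw [h1, mem_perp hd] at h3
    rw [mem_perp hd] at h2
    rw [← h3, h2]
  -- a rotation of order three
  obtain ⟨w, hw3, hw1⟩ : ∃ w : ℂ, w ^ 3 = 1 ∧ w ≠ 1 := by
    have hprim := Complex.isPrimitiveRoot_exp 3 (by norm_num)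
    exact ⟨_, hprim.pow_eq_one, hprim.ne_one (by norm_num)⟩
  obtain ⟨hwr, hwi, hww⟩ := root3 hw3 hw1
  have hcw3 : (conj w) ^ 3 = 1 := by rw [← map_pow, hw3, map_one]
  have hwi0 : w.im ≠ 0 := by
    intro h0
    rw [h0] at hwi
    norm_num at hwi
  have hw0 : w ≠ 0 := by
    rintro rfl
    norm_num at hw3
  have hc0 : ∀ (γ : ℝ) (v : ℂ), coord c d (c + γ * (v * d)) = γ * v := by
    intro γ v
    unfold coord
    linear_combination (γ * v : ℂ) * d_conj hd
  have hc1 : ∀ γ : ℝ, coord c d (c + γ * d) = γ := by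
    intro γ
    unfold coord
    linear_combination (γ : ℂ) * d_conj hd
  have hrr : ∀ (γ : ℝ) (v v' : ℂ), rho c v (c + γ * (v' * d)) = c + γ * ((v * v') * d) := by
    intro γ v v'
    unfold rho
    ring
  have hr1 : ∀ (γ : ℝ) (v : ℂ), rho c v (c + γ * d) = c + γ * (v * d) := by
    intro γ v
    unfold rho
    ring
  -- the positions on the mirror
  set X : Finset ℝ := (P.filter (fun p => p ∈ mirror c d)).image (fun p => (coord c d p).re)
    with hX
  have hXc : X.card = 5 := by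
    rw [hX, Finset.card_image_of_injOn, ha]
    intro p hp q hq hpq
    have hp' := (Finset.mem_filter.1 hp).2
    have hq' := (Finset.mem_filter.1 hq).2
    rw [mem_mirror hd] at hp' hq'
    apply coord_inj (c := c) hd
    apply Complex.ext
    · exact hpq
    · rw [hp', hq']
  have hXmem : ∀ γ : ℝ, γ ∈ X ↔ c + γ * d ∈ P := by
    intro γ
    rw [hX, Finset.mem_image]
    constructor
    · rintro ⟨p, hp, rfl⟩
      rw [Finset.mem_filter, mem_mirror hd] at hp
      have h1 := coord_spec (c := c) hd p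
      have h2 : coord c d p = ((coord c d p).re : ℂ) := by
        apply Complex.ext
        · simp
        · rw [hp.2, Complex.ofReal_im]
      rw [h2, mul_comm] at h1
      rw [← h1]
      exact hp.1
    · intro hs
      refine ⟨c + γ * d, ?_, ?_⟩
      · rw [Finset.mem_filter]
        exact ⟨hs, γ, rfl⟩
      · rw [hc1, Complex.ofReal_re]
  have hX0 : ∀ γ ∈ X, γ ≠ 0 := by
    rintro γ hγ rfl
    rw [hXmem] at hγ
    apply hcP
    simpa using hγ
  -- every line meets the rotated mirror in a point of the configuration, with one exception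
  have hB1 : ∀ l ∈ L, (∀ s : ℝ, rho c (conj w) '' l ≠ mirror (c + s * d) (Complex.I * d)) →
      ∃ δ ∈ X, c + δ * (w * d) ∈ l := by
    intro l hl hls
    have h1 := (hpr _ hcw3).memL hl
    obtain ⟨p, hpP, hpm, hpl⟩ := hmeet _ h1 (by rintro ⟨s, hs⟩; exact hls s hs)
    obtain ⟨δ, hδ⟩ := hpm
    rw [hδ] at hpP hpl
    refine ⟨δ, (hXmem δ).2 hpP, ?_⟩
    obtain ⟨y, hy, hyp⟩ := hpl
    have h2 : y = c + δ * (w * d) := by
      rw [← hr1, ← hyp, rho_rho, hww, rho_one]
    rw [← h2]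
    exact hy
  have hσ0 : ∀ γ : ℝ, c + γ * (w * d) ∈ l0 ↔ γ = -2 * τ := by
    intro γ
    rw [hτ, mem_perp hd, hc0, Complex.mul_re, Complex.ofReal_re, Complex.ofReal_im, hwr]
    constructor
    · intro h1; linarith
    · intro h1; rw [h1]; ring
  have hσ : -2 * τ ∈ X := by
    obtain ⟨δ, hδ, hδl⟩ := hB1 l0 hl0L (by
      intro s hs
      have h1 := (hpr _ hcw3).memL hl0L
      rw [hs] at h1
      rw [huniq s h1, ← hτ] at hs
      have h2 : c + τ * d ∈ l0 := by rw [hτ]; exact ⟨0, by simp⟩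
      have h3 : c + τ * d + Complex.I * d ∈ l0 := by rw [hτ]; exact ⟨1, by simp⟩
      have h4 := Set.mem_image_of_mem (rho c (conj w)) h2
      have h5 := Set.mem_image_of_mem (rho c (conj w)) h3
      rw [hs, hτ, mem_perp hd, coord_rho] at h4 h5
      have h6 : coord c d (c + τ * d + Complex.I * d) = τ + Complex.I := by
        unfold coord
        linear_combination (τ + Complex.I : ℂ) * d_conj hd
      rw [hc1, Complex.mul_re, Complex.conj_re, Complex.ofReal_re, Complex.ofReal_im, hwr] at h4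
      rw [h6, Complex.mul_re, Complex.conj_re, Complex.conj_im, hwr] at h5
      simp only [Complex.add_re, Complex.add_im, Complex.ofReal_re, Complex.ofReal_im,
        Complex.I_re, Complex.I_im] at h5
      apply hwi0
      linarith)
    rw [hσ0] at hδl
    rw [← hδl]
    exact hδ
  apply five_combi L X hXc hσ (fun l γ => c + γ * d ∈ l) (fun l γ => c + γ * (w * d) ∈ l)
  · intro γ hγ _
    rw [hXmem] at hγ
    exact h.deg _ hγ
  · intro l hl γ hγ hγσ hγl
    obtain ⟨δ, hδ, hδl⟩ := hB1 l hl (by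
      intro s hs
      have h1 := (hpr _ hcw3).memL hl
      rw [hs] at h1
      have h2 := huniq s h1
      have h4 := Set.mem_image_of_mem (rho c (conj w)) hγl
      rw [hs, mem_perp hd, coord_rho, hc1, Complex.mul_re, Complex.conj_re, Complex.ofReal_re,
        Complex.ofReal_im, hwr, h2] at h4
      apply hγσ
      linarith)
    refine ⟨δ, hδ, ?_, hδl⟩
    rintro rfl
    have h1 := (hpr _ hw3).memL hl
    have k1 := Set.mem_image_of_mem (rho c w) hγl
    have k2 := Set.mem_image_of_mem (rho c w) hδl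
    rw [hr1] at k1
    rw [hrr] at k2
    have hδ0 := hX0 δ hδ
    have k3 : c + δ * (w * d) ≠ c + δ * ((w * w) * d) := by
      intro h2
      have h3 : (δ : ℂ) * (w * d) * (w - 1) = 0 := by
        linear_combination -h2
      rcases mul_eq_zero.1 h3 with h4 | h4
      · rcases mul_eq_zero.1 h4 with h5 | h5
        · exact hδ0 (by exact_mod_cast h5)
        · exact (mul_ne_zero hw0 hd0) h5
      · exact hw1 (sub_eq_zero.1 h4)
    have hIL : IsLine (mirror (c + ((-δ / 2 : ℝ) : ℂ) * d) (Complex.I * d)) :=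
      ⟨_, _, mul_ne_zero Complex.I_ne_zero hd0, rfl⟩
    have k4 : rho c w '' l = mirror (c + ((-δ / 2 : ℝ) : ℂ) * d) (Complex.I * d) := by
      apply line_eq_of_two (h.line _ h1) hIL k3 k1 k2
      · rw [mem_perp hd, hc0, Complex.mul_re, Complex.ofReal_re, Complex.ofReal_im, hwr]
        ring
      · rw [mem_perp hd, hc0, Complex.mul_re, Complex.ofReal_re, Complex.ofReal_im,
          Complex.mul_re, hwr, hwi]
        ring
    rw [k4] at h1
    have k5 := huniq _ h1
    apply hγσ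
    linarith
  · intro l hl l' hl' γ hγ δ hδ e1 e2 e3 e4
    have hne : c + (γ : ℂ) * d ≠ c + δ * (w * d) := by
      intro h1
      have h2 := congrArg (coord c d) h1
      rw [hc1, hc0] at h2
      have h3 := congrArg Complex.im h2
      rw [Complex.ofReal_im, Complex.mul_im, Complex.ofReal_re, Complex.ofReal_im, zero_mul,
        add_zero] at h3
      rcases mul_eq_zero.1 h3.symm with h4 | h4
      · exact hX0 δ hδ h4
      · exact hwi0 h4
    exact line_eq_of_two (h.line _ hl) (h.line _ hl') hne e1 e3 e2 e4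
  · apply h.deg
    rw [← hr1]
    exact (hpr _ hw3).mem ((hXmem _).1 hσ)
  · refine ⟨l0, hl0L, (hσ0 _).2 rfl, ?_⟩
    intro γ hγ hγl
    exact hfoot l0 hl0L ⟨τ, hτ⟩ _ ((hXmem γ).1 hγ) hγl ⟨γ, rfl⟩
  · intro l hl γ hγ γ' hγ' e1 e2
    by_contra hne
    apply hm
    have hne' : c + (γ : ℂ) * d ≠ c + γ' * d := by
      intro h1
      apply hne
      have h2 := congrArg (coord c d) h1
      rw [hc1, hc1] at h2
      exact_mod_cast h2
    have := line_eq_of_two (h.line _ hl) ⟨c, d, hd0, rfl⟩ hne' e1 e2 ⟨γ, rfl⟩ ⟨γ', rfl⟩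
    rw [← show l = mirror c d from this]
    exact hl

/-! ### seven-fold dihedral symmetry -/

/-- `cos (2 π j / 7)` -/
noncomputable def kap (j : ℕ) : ℝ := Real.cos (2 * Real.pi * j / 7)

lemma kap_two : kap 2 = 2 * kap 1 ^ 2 - 1 := by
  unfold kap
  rw [← Real.cos_two_mul]
  congr 1
  push_cast
  ring

lemma kap_three : kap 3 = 4 * kap 1 ^ 3 - 3 * kap 1 := by
  unfold kap
  rw [← Real.cos_three_mul]
  congr 1
  push_cast
  ring

lemma kap_four : kap 3 = 2 * kap 2 ^ 2 - 1 := by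
  unfold kap
  rw [← Real.cos_two_mul, ← Real.cos_two_pi_sub]
  congr 1
  push_cast
  ring

lemma kap_one_gt : 1 / 2 < kap 1 := by
  unfold kap
  rw [← Real.cos_pi_div_three]
  have hpi := Real.pi_pos
  apply Real.cos_lt_cos_of_nonneg_of_le_pi_div_two
  · positivity
  · linarith
  · push_cast
    linarith

lemma kap_one_lt : kap 1 < 1 := by
  have h1 := Real.cos_zero
  unfold kap
  rw [← h1]
  have hpi := Real.pi_pos
  apply Real.cos_lt_cos_of_nonneg_of_le_pi_div_two le_rfl
  · push_cast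
    linarith
  · positivity

lemma kap_cubic : 8 * kap 1 ^ 3 + 4 * kap 1 ^ 2 - 4 * kap 1 - 1 = 0 := by
  have h1 := kap_four
  rw [kap_three, kap_two] at h1
  have h2 : (kap 1 - 1) * (8 * kap 1 ^ 3 + 4 * kap 1 ^ 2 - 4 * kap 1 - 1) = 0 := by
    linear_combination -h1
  have h3 : kap 1 - 1 ≠ 0 := by
    have := kap_one_lt
    linarith
  exact (mul_eq_zero.1 h2).resolve_left h3

lemma kap_bounds : 6234 / 10000 < kap 1 ∧ kap 1 < 6236 / 10000 := by
  have h0 := kap_cubic
  have h1 := kap_one_gt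
  constructor
  · by_contra hcon
    rw [not_lt] at hcon
    have h2 : 0 ≤ (6234 / 10000 - kap 1) * (8 * (kap 1 ^ 2 + kap 1 * (6234 / 10000) +
        (6234 / 10000) ^ 2) + 4 * (kap 1 + 6234 / 10000) - 4) := by
      apply mul_nonneg (by linarith)
      nlinarith
    nlinarith
  · by_contra hcon
    rw [not_lt] at hcon
    have h2 : 0 ≤ (kap 1 - 6236 / 10000) * (8 * (kap 1 ^ 2 + kap 1 * (6236 / 10000) +
        (6236 / 10000) ^ 2) + 4 * (kap 1 + 6236 / 10000) - 4) := by
      apply mul_nonneg (by linarith)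
      nlinarith
    nlinarith

lemma kap_sum : kap 1 + kap 2 + kap 3 = -1 / 2 := by
  rw [kap_two, kap_three]
  linear_combination (1 / 2 : ℝ) * kap_cubic

noncomputable def KK (i : Fin 3) : ℝ := kap (i.val + 1)

def QQ (i : Fin 3) : ℤ := ![6235, -2225, -9010] i

lemma KQ (i : Fin 3) : |KK i * 10000 - (QQ i : ℝ)| ≤ 5 := by
  obtain ⟨h1, h2⟩ := kap_bounds
  have h3 := kap_two
  have h4 := kap_sum
  have h5 : -2229 / 10000 < kap 2 ∧ kap 2 < -2221 / 10000 := by
    rw [h3]
    constructor <;> nlinarith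
  obtain ⟨h5, h6⟩ := h5
  rw [abs_le]
  fin_cases i
  · show -5 ≤ kap (0 + 1) * 10000 - ((6235 : ℤ) : ℝ) ∧ kap (0 + 1) * 10000 - ((6235 : ℤ) : ℝ) ≤ 5
    norm_num
    constructor <;> linarith
  · show -5 ≤ kap (1 + 1) * 10000 - ((-2225 : ℤ) : ℝ) ∧ kap (1 + 1) * 10000 - ((-2225 : ℤ) : ℝ) ≤ 5
    norm_num
    constructor <;> linarith
  · show -5 ≤ kap (2 + 1) * 10000 - ((-9010 : ℤ) : ℝ) ∧ kap (2 + 1) * 10000 - ((-9010 : ℤ) : ℝ) ≤ 5
    norm_num
    constructor <;> linarith

lemma QQ_abs (i : Fin 3) : |(QQ i : ℝ)| ≤ 10000 := by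
  have h : ∀ i : Fin 3, |QQ i| ≤ 10000 := by decide
  have h2 : ((|QQ i| : ℤ) : ℝ) ≤ ((10000 : ℤ) : ℝ) := by exact_mod_cast h i
  rw [Int.cast_abs] at h2
  simpa using h2

lemma approx3 (a b c : Fin 3) :
    |KK a * KK b * KK c * 1000000000000 - ((QQ a * QQ b * QQ c : ℤ) : ℝ)| ≤ 1800000000 := by
  have ha := KQ a
  have hb := KQ b
  have hc := KQ c
  have qa := QQ_abs a
  have qb := QQ_abs b
  have qc := QQ_abs c
  set A : ℝ := KK a * 10000 with hA
  set B : ℝ := KK b * 10000 with hB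
  set C : ℝ := KK c * 10000 with hC
  have e1 : KK a * KK b * KK c * 1000000000000 - ((QQ a * QQ b * QQ c : ℤ) : ℝ) =
      (A - QQ a) * (B * C) + QQ a * ((B - QQ b) * C) + QQ a * (QQ b * (C - QQ c)) := by
    rw [hA, hB, hC]
    push_cast
    ring
  have B1 : |B| ≤ 10005 := by
    have := abs_sub_abs_le_abs_sub B (QQ b)
    linarith
  have C1 : |C| ≤ 10005 := by
    have := abs_sub_abs_le_abs_sub C (QQ c)
    linarith
  have t1 : |(A - QQ a) * (B * C)| ≤ 5 * (10005 * 10005) := by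
    rw [abs_mul, abs_mul]
    exact mul_le_mul ha (mul_le_mul B1 C1 (abs_nonneg _) (by norm_num))
      (mul_nonneg (abs_nonneg _) (abs_nonneg _)) (by norm_num)
  have t2 : |(QQ a : ℝ) * ((B - QQ b) * C)| ≤ 10000 * (5 * 10005) := by
    rw [abs_mul, abs_mul]
    exact mul_le_mul qa (mul_le_mul hb C1 (abs_nonneg _) (by norm_num))
      (mul_nonneg (abs_nonneg _) (abs_nonneg _)) (by norm_num)
  have t3 : |(QQ a : ℝ) * (QQ b * (C - QQ c))| ≤ 10000 * (10000 * 5) := by
    rw [abs_mul, abs_mul]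
    exact mul_le_mul qa (mul_le_mul qb hc (abs_nonneg _) (by norm_num))
      (mul_nonneg (abs_nonneg _) (abs_nonneg _)) (by norm_num)
  rw [e1]
  refine (abs_add_le _ _).trans ?_
  have t4 := abs_add_le ((A - QQ a) * (B * C)) ((QQ a : ℝ) * ((B - QQ b) * C))
  linarith

lemma approx6 {a b c d e f : Fin 3} (h : KK a * KK b * KK c = KK d * KK e * KK f) :
    |QQ a * QQ b * QQ c - QQ d * QQ e * QQ f| ≤ 3600000000 := by
  have h1 := approx3 a b c
  have h2 := approx3 d e f
  rw [h] at h1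
  have h3 : |((QQ a * QQ b * QQ c - QQ d * QQ e * QQ f : ℤ) : ℝ)| ≤ 3600000000 := by
    rw [abs_le] at h1 h2 ⊢
    rw [Int.cast_sub]
    constructor <;> linarith
  rw [← Int.cast_abs] at h3
  exact_mod_cast h3

lemma KK_ne (i : Fin 3) : KK i ≠ 0 := by
  intro h0
  have h1 := KQ i
  rw [h0, zero_mul, zero_sub, abs_neg] at h1
  have h2 : ∀ i : Fin 3, ¬ |QQ i| ≤ 5 := by decide
  apply h2 i
  rw [← Int.cast_abs] at h1
  exact_mod_cast h1

lemma deg2 {a b c d : Fin 3} (h : KK a * KK d = KK b * KK c) (hab : a ≠ b) (hac : a ≠ c) :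
    False := by
  have h1 : KK a * KK d * KK 0 = KK b * KK c * KK 0 := by rw [h]
  have h2 := approx6 h1
  have h3 : ∀ a b c d : Fin 3, a ≠ b → a ≠ c →
      ¬ |QQ a * QQ d * QQ 0 - QQ b * QQ c * QQ 0| ≤ 3600000000 := by decide
  exact h3 a b c d hab hac h2

set_option maxRecDepth 100000 in
lemma deg3 {a12 a13 a21 a23 a31 a32 : Fin 3}
    (h : KK a12 * KK a23 * KK a31 = KK a13 * KK a21 * KK a32)
    (h1 : a12 ≠ a13) (h2 : a21 ≠ a23) (h3 : a31 ≠ a32) (h4 : a21 ≠ a31) (h5 : a12 ≠ a32)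
    (h6 : a13 ≠ a23) : a12 = a21 ∧ a23 = a32 ∧ a31 = a13 := by
  have h7 := approx6 h
  have h8 : ∀ a12 a13 : Fin 3, a12 ≠ a13 → ∀ a23 : Fin 3, a13 ≠ a23 → ∀ a21 : Fin 3,
      a21 ≠ a23 → ∀ a31 : Fin 3, a21 ≠ a31 → ∀ a32 : Fin 3, a31 ≠ a32 → a12 ≠ a32 →
      |QQ a12 * QQ a23 * QQ a31 - QQ a13 * QQ a21 * QQ a32| ≤ 3600000000 →
      a12 = a21 ∧ a23 = a32 ∧ a31 = a13 := by decide
  exact h8 a12 a13 h1 a23 h6 a21 h2 a31 h4 a32 h3 h5 h7

lemma root7_re {w : ℂ} (hw : w ^ 7 = 1) (hw1 : w ≠ 1) : ∃ a : Fin 3, w.re = KK a := by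
  have hu : w * conj w = 1 := d_conj (root7_norm hw)
  have h1 : w ^ 6 + w ^ 5 + w ^ 4 + w ^ 3 + w ^ 2 + w + 1 = 0 := by
    have h2 : (w - 1) * (w ^ 6 + w ^ 5 + w ^ 4 + w ^ 3 + w ^ 2 + w + 1) = 0 := by
      linear_combination hw
    exact (mul_eq_zero.1 h2).resolve_left (sub_ne_zero.2 hw1)
  have h2 : (w + conj w) ^ 3 + (w + conj w) ^ 2 - 2 * (w + conj w) - 1 = 0 := by
    linear_combination (conj w) ^ 3 * h1 + ((3 * w + 3 * conj w + 2) -
      ((w ^ 3 + w ^ 2 + w + 1) * ((conj w * w) ^ 2 + conj w * w + 1) +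
        conj w * (conj w * w + 1) + (conj w) ^ 2)) * hu
  rw [Complex.add_conj] at h2
  have hx : 8 * w.re ^ 3 + 4 * w.re ^ 2 - 4 * w.re - 1 = 0 := by
    have h3 : (2 * w.re) ^ 3 + (2 * w.re) ^ 2 - 2 * (2 * w.re) - 1 = 0 := by exact_mod_cast h2
    linear_combination h3
  have h4 : (w.re - kap 1) * ((w.re - kap 2) * (w.re - kap 3)) = 0 := by
    have h5 := kap_sum
    have h6 : kap 3 = 1 / 2 - kap 1 - 2 * kap 1 ^ 2 := by
      rw [kap_two] at h5
      linarith
    rw [h6, kap_two]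
    linear_combination (1 / 8 : ℝ) * hx +
      (-w.re * kap 1 / 2 + kap 1 ^ 2 / 2 - 1 / 8) * kap_cubic
  rcases mul_eq_zero.1 h4 with h5 | h5
  · exact ⟨0, sub_eq_zero.1 h5⟩
  · rcases mul_eq_zero.1 h5 with h6 | h6
    · exact ⟨1, sub_eq_zero.1 h6⟩
    · exact ⟨2, sub_eq_zero.1 h6⟩

lemma core (r s : Fin 3 → ℝ) (hr : Function.Injective r) (hs : Function.Injective s)
    (hr0 : ∀ i, r i ≠ 0) (hit : ∀ j i, i ≠ j → ∃ a : Fin 3, s j = r i * KK a) :
    ∃ ρ : ℝ, ρ ≠ 0 ∧ (∀ t, (∃ i, t = r i) ↔ ∃ j, t = ρ * KK j) ∧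
      (∀ t, (∃ i, t = s i) ↔ ∃ i j, i ≠ j ∧ t = ρ * KK i * KK j) := by
  obtain ⟨a21, e21⟩ := hit 0 1 (by decide)
  obtain ⟨a31, e31⟩ := hit 0 2 (by decide)
  obtain ⟨a12, e12⟩ := hit 1 0 (by decide)
  obtain ⟨a32, e32⟩ := hit 1 2 (by decide)
  obtain ⟨a13, e13⟩ := hit 2 0 (by decide)
  obtain ⟨a23, e23⟩ := hit 2 1 (by decide)
  have hprod : KK a12 * KK a23 * KK a31 = KK a13 * KK a21 * KK a32 := by
    have h1 : r 0 * r 1 * r 2 ≠ 0 := mul_ne_zero (mul_ne_zero (hr0 0) (hr0 1)) (hr0 2)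
    apply mul_left_cancel₀ h1
    calc r 0 * r 1 * r 2 * (KK a12 * KK a23 * KK a31) =
        (r 0 * KK a12) * (r 1 * KK a23) * (r 2 * KK a31) := by ring
      _ = s 1 * s 2 * s 0 := by rw [← e12, ← e23, ← e31]
      _ = (r 2 * KK a32) * (r 0 * KK a13) * (r 1 * KK a21) := by rw [← e32, ← e13, ← e21]
      _ = _ := by ring
  have h1 : a12 ≠ a13 := by
    rintro rfl
    exact absurd (hs (e12.trans e13.symm)) (by decide)
  have h2 : a21 ≠ a23 := by
    rintro rfl
    exact absurd (hs (e21.trans e23.symm)) (by decide)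
  have h3 : a31 ≠ a32 := by
    rintro rfl
    exact absurd (hs (e31.trans e32.symm)) (by decide)
  have h4 : a21 ≠ a31 := by
    rintro rfl
    exact absurd (hr (mul_right_cancel₀ (KK_ne _) (e21.symm.trans e31))) (by decide)
  have h5 : a12 ≠ a32 := by
    rintro rfl
    exact absurd (hr (mul_right_cancel₀ (KK_ne _) (e12.symm.trans e32))) (by decide)
  have h6 : a13 ≠ a23 := by
    rintro rfl
    exact absurd (hr (mul_right_cancel₀ (KK_ne _) (e13.symm.trans e23))) (by decide)
  obtain ⟨f1, f2, f3⟩ := deg3 hprod h1 h2 h3 h4 h5 h6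
  subst f1 f2 f3
  have hK := KK_ne a23
  obtain ⟨ρ, hρ⟩ : ∃ ρ : ℝ, ρ = r 0 / KK a23 := ⟨_, rfl⟩
  have k0 : r 0 = ρ * KK a23 := by rw [hρ]; field_simp
  have k1 : r 1 = ρ * KK a31 := by
    rw [hρ]
    field_simp
    linear_combination e13 - e23
  have k2 : r 2 = ρ * KK a12 := by
    rw [hρ]
    field_simp
    linear_combination e12 - e32
  have cov : ∀ x y z j : Fin 3, x ≠ y → x ≠ z → y ≠ z → (j = x ∨ j = y ∨ j = z) := by decide
  have three : ∀ j : Fin 3, j = 0 ∨ j = 1 ∨ j = 2 := by decide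
  refine ⟨ρ, ?_, ?_, ?_⟩
  · intro h0
    apply hr0 0
    rw [k0, h0, zero_mul]
  · intro t
    constructor
    · rintro ⟨i, rfl⟩
      rcases three i with rfl | rfl | rfl
      · exact ⟨_, k0⟩
      · exact ⟨_, k1⟩
      · exact ⟨_, k2⟩
    · rintro ⟨j, rfl⟩
      rcases cov a12 a31 a23 j h1 h5 h6 with rfl | rfl | rfl
      · exact ⟨2, k2.symm⟩
      · exact ⟨1, k1.symm⟩
      · exact ⟨0, k0.symm⟩
  · have s0 : s 0 = ρ * KK a31 * KK a12 := by rw [e21, k1]
    have s1 : s 1 = ρ * KK a23 * KK a12 := by rw [e12, k0]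
    have s2 : s 2 = ρ * KK a23 * KK a31 := by rw [e13, k0]
    intro t
    constructor
    · rintro ⟨i, rfl⟩
      rcases three i with rfl | rfl | rfl
      · exact ⟨_, _, h1.symm, s0⟩
      · exact ⟨_, _, h5.symm, s1⟩
      · exact ⟨_, _, h6.symm, s2⟩
    · rintro ⟨i, j, hij, rfl⟩
      rcases cov a12 a31 a23 i h1 h5 h6 with hi | hi | hi <;>
        rcases cov a12 a31 a23 j h1 h5 h6 with hj | hj | hj <;>
        rw [hi, hj] at hij ⊢
      · exact absurd rfl hij
      · exact ⟨0, by rw [s0]; ring⟩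
      · exact ⟨1, by rw [s1]; ring⟩
      · exact ⟨0, by rw [s0]⟩
      · exact absurd rfl hij
      · exact ⟨2, by rw [s2]; ring⟩
      · exact ⟨1, by rw [s1]⟩
      · exact ⟨2, by rw [s2]⟩
      · exact absurd rfl hij

lemma rho_mirror {v : ℂ} (c d e : ℂ) (s : ℂ) :
    rho c v '' mirror (c + s * d) e = mirror (c + s * (v * d)) (v * e) := by
  ext z
  constructor
  · rintro ⟨y, ⟨t, rfl⟩, rfl⟩
    refine ⟨t, ?_⟩
    unfold rho
    ring
  · rintro ⟨t, rfl⟩
    refine ⟨c + s * d + t * e, ⟨t, rfl⟩, ?_⟩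
    unfold rho
    ring

lemma dihedral7 (h : IsConfig 21 4 P L) {c d : ℂ} (hd : ‖d‖ = 1) (hcP : c ∉ P)
    (hpr : ∀ w : ℂ, w ^ 7 = 1 → Preserves P L (rho c w))
    (hO : ∀ p ∈ P, (orbP P c p).card = 7) (hOL : ∀ l ∈ L, (orbL L c l).card = 7)
    (hp : Preserves P L (refl c d))
    (ha : (P.filter (fun p => p ∈ mirror c d)).card = 3)
    (hb : (L.filter (fun l => ∃ s : ℝ, l = mirror (c + s * d) (Complex.I * d))).card = 3) :
    ∃ ρ : ℝ, ρ ≠ 0 ∧
      (∀ z, z ∈ P ↔ ∃ w : ℂ, w ^ 7 = 1 ∧ ∃ j : Fin 3,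
        z = c + ((ρ * KK j : ℝ) : ℂ) * (w * d)) ∧
      (∀ l, l ∈ L ↔ ∃ w : ℂ, w ^ 7 = 1 ∧ ∃ i j : Fin 3, i ≠ j ∧
        l = mirror (c + ((ρ * KK i * KK j : ℝ) : ℂ) * (w * d)) (Complex.I * (w * d))) := by
  have hd0 : d ≠ 0 := by
    rintro rfl
    simp at hd
  obtain ⟨hm, hfoot, -⟩ := reflection_types h hd hp
  have hc1 : ∀ (γ : ℝ) (v : ℂ), coord c d (c + γ * (v * d)) = γ * v := by
    intro γ v
    unfold coord
    linear_combination (γ * v : ℂ) * d_conj hd
  have hc2 : ∀ γ : ℝ, coord c d (c + γ * d) = γ := by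
    intro γ
    unfold coord
    linear_combination (γ : ℂ) * d_conj hd
  have hr1 : ∀ (γ : ℝ) (v : ℂ), rho c v (c + γ * d) = c + γ * (v * d) := by
    intro γ v
    unfold rho
    ring
  -- the positions on the mirror
  obtain ⟨X, hX⟩ : ∃ X : Finset ℝ,
    X = (P.filter (fun p => p ∈ mirror c d)).image (fun p => (coord c d p).re) := ⟨_, rfl⟩
  have hXc : X.card = 3 := by
    rw [hX, Finset.card_image_of_injOn, ha]
    intro p hp q hq hpq
    have hp' := (Finset.mem_filter.1 hp).2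
    have hq' := (Finset.mem_filter.1 hq).2
    rw [mem_mirror hd] at hp' hq'
    apply coord_inj (c := c) hd
    apply Complex.ext
    · exact hpq
    · rw [hp', hq']
  have hXmem : ∀ γ : ℝ, γ ∈ X ↔ c + γ * d ∈ P := by
    intro γ
    rw [hX, Finset.mem_image]
    constructor
    · rintro ⟨p, hp, rfl⟩
      rw [Finset.mem_filter, mem_mirror hd] at hp
      have h1 := coord_spec (c := c) hd p
      have h2 : coord c d p = ((coord c d p).re : ℂ) := by
        apply Complex.ext
        · simp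
        · rw [hp.2, Complex.ofReal_im]
      rw [h2, mul_comm] at h1
      rw [← h1]
      exact hp.1
    · intro hs
      refine ⟨c + γ * d, ?_, ?_⟩
      · rw [Finset.mem_filter]
        exact ⟨hs, γ, rfl⟩
      · rw [hc2, Complex.ofReal_re]
  have hX0 : ∀ γ ∈ X, γ ≠ 0 := by
    rintro γ hγ rfl
    rw [hXmem] at hγ
    apply hcP
    simpa using hγ
  -- the offsets of the perpendicular lines
  have hchoose : ∀ l ∈ L.filter (fun l => ∃ s : ℝ, l = mirror (c + s * d) (Complex.I * d)),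
      ∃ s : ℝ, l = mirror (c + s * d) (Complex.I * d) := fun l hl => (Finset.mem_filter.1 hl).2
  choose! sv hsv using hchoose
  obtain ⟨S, hS⟩ : ∃ S : Finset ℝ, S =
    (L.filter (fun l => ∃ s : ℝ, l = mirror (c + s * d) (Complex.I * d))).image sv := ⟨_, rfl⟩
  have hSc : S.card = 3 := by
    rw [hS, Finset.card_image_of_injOn, hb]
    intro l hl l' hl' hll
    rw [hsv l hl, hsv l' hl', hll]
  have hSmem : ∀ s : ℝ, s ∈ S ↔ mirror (c + s * d) (Complex.I * d) ∈ L := by
    intro s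
    rw [hS, Finset.mem_image]
    constructor
    · rintro ⟨l, hl, rfl⟩
      rw [← hsv l hl]
      exact (Finset.mem_filter.1 hl).1
    · intro hs
      have h1 : mirror (c + s * d) (Complex.I * d) ∈
          L.filter (fun l => ∃ s : ℝ, l = mirror (c + s * d) (Complex.I * d)) :=
        Finset.mem_filter.2 ⟨hs, s, rfl⟩
      refine ⟨_, h1, ?_⟩
      have h2 : c + s * d ∈ mirror (c + s * d) (Complex.I * d) := ⟨0, by simp⟩
      have h3 := h2
      rw [hsv _ h1, mem_perp hd] at h3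
      rw [mem_perp hd] at h2
      rw [← h3, h2]
  -- all points and all lines
  have hPX : ∀ p ∈ P, ∃ w : ℂ, w ^ 7 = 1 ∧ ∃ r ∈ X, p = c + (r : ℂ) * (w * d) := by
    intro p hpP
    obtain ⟨x, hx, t, ht⟩ := orbP_fixed h hd hO hp hpP
    unfold orbP at hx
    rw [Finset.mem_filter] at hx
    obtain ⟨hxP, w, hw, hxw⟩ := hx
    refine ⟨w⁻¹, root7_inv hw, t, ?_, ?_⟩
    · rw [hXmem, ← ht]
      exact hxP
    · rw [← hr1, ← ht, hxw, rho_rho, inv_mul_cancel₀ (root7_ne hw), rho_one]
  have hLS : ∀ l ∈ L, ∃ w : ℂ, w ^ 7 = 1 ∧ ∃ s ∈ S,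
      l = mirror (c + (s : ℂ) * (w * d)) (Complex.I * (w * d)) := by
    intro l hl
    obtain ⟨x, hx, hxf⟩ := orbL_fixed h hd hcP hO hOL hp hl
    unfold orbL at hx
    rw [Finset.mem_filter] at hx
    obtain ⟨hxL, w, hw, hxw⟩ := hx
    rcases fixed_line_refl hd (h.line x hxL) hxf with h1 | ⟨s, hs⟩
    · rw [h1] at hxL; exact absurd hxL hm
    · refine ⟨w⁻¹, root7_inv hw, s, ?_, ?_⟩
      · rw [hSmem, ← hs]
        exact hxL
      · have e : Complex.I * (w⁻¹ * d) = w⁻¹ * (Complex.I * d) := by ring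
        rw [e, ← rho_mirror, ← hs, hxw, rho_image_image, inv_mul_cancel₀ (root7_ne hw),
          rho_image_one]
  -- a perpendicular line meets two of the orbits
  have hhit : ∀ s ∈ S, ∃ r ∈ X, ∃ r' ∈ X, r ≠ r' ∧ (∃ a : Fin 3, s = r * KK a) ∧
      ∃ a : Fin 3, s = r' * KK a := by
    intro s hs
    have hl := (hSmem s).1 hs
    have hpt : ∀ p ∈ P, p ∈ mirror (c + s * d) (Complex.I * d) →
        ∃ r ∈ X, (∃ a : Fin 3, s = r * KK a) ∧ Complex.normSq (p - c) = r ^ 2 := by
      intro p hpP hpl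
      obtain ⟨w, hw, r, hr, hpw⟩ := hPX p hpP
      have hpl' := hpl
      rw [mem_perp hd, hpw, hc1, Complex.mul_re, Complex.ofReal_re, Complex.ofReal_im, zero_mul,
        sub_zero] at hpl'
      refine ⟨r, hr, ?_, ?_⟩
      · have hw1 : w ≠ 1 := by
          rintro rfl
          apply hfoot _ hl ⟨s, rfl⟩ p hpP hpl
          rw [hpw, one_mul]
          exact ⟨r, rfl⟩
        obtain ⟨a, ha⟩ := root7_re hw hw1
        exact ⟨a, by rw [← hpl', ha]⟩
      · have e : p - c = r * (w * d) := by rw [hpw]; ring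
        rw [e, Complex.normSq_mul, Complex.normSq_ofReal, Complex.normSq_eq_norm_sq (w * d),
          norm_mul, root7_norm hw, hd]
        ring
    obtain ⟨x, y, z, hxP, hyP, hzP, hx, hy, hz, hxy, hxz, hyz⟩ := h.three hl
    obtain ⟨rx, hrx, ax, nx⟩ := hpt x hxP hx
    obtain ⟨ry, hry, ay, ny⟩ := hpt y hyP hy
    obtain ⟨rz, hrz, az, nz⟩ := hpt z hzP hz
    by_cases h1 : rx = ry
    · by_cases h2 : rx = rz
      · exfalso
        rw [← h1] at ny
        rw [← h2] at nz
        exact not_three_circle (h.line _ hl) c _ hx hy hz hxy hxz hyz nx ny nz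
      · exact ⟨rx, hrx, rz, hrz, h2, ax, az⟩
    · exact ⟨rx, hrx, ry, hry, h1, ax, ay⟩
  -- labels
  obtain ⟨r, hr, hrX⟩ : ∃ r : Fin 3 → ℝ, Function.Injective r ∧ ∀ t, t ∈ X ↔ ∃ i, t = r i := by
    refine ⟨fun i => ((X.equivFinOfCardEq hXc).symm i : ℝ), ?_, ?_⟩
    · intro i j hij
      exact (X.equivFinOfCardEq hXc).symm.injective (Subtype.ext hij)
    · intro t
      constructor
      · intro ht
        exact ⟨(X.equivFinOfCardEq hXc) ⟨t, ht⟩, by simp⟩
      · rintro ⟨i, rfl⟩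
        exact ((X.equivFinOfCardEq hXc).symm i).2
  obtain ⟨s, hs, hsS⟩ : ∃ r : Fin 3 → ℝ, Function.Injective r ∧ ∀ t, t ∈ S ↔ ∃ i, t = r i := by
    refine ⟨fun i => ((S.equivFinOfCardEq hSc).symm i : ℝ), ?_, ?_⟩
    · intro i j hij
      exact (S.equivFinOfCardEq hSc).symm.injective (Subtype.ext hij)
    · intro t
      constructor
      · intro ht
        exact ⟨(S.equivFinOfCardEq hSc) ⟨t, ht⟩, by simp⟩
      · rintro ⟨i, rfl⟩
        exact ((S.equivFinOfCardEq hSc).symm i).2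
  have hν : ∀ j : Fin 3, ∃ n : Fin 3, ∀ i, i ≠ n → ∃ a : Fin 3, s j = r i * KK a := by
    intro j
    obtain ⟨t, ht, t', ht', htt, h1, h2⟩ := hhit (s j) ((hsS _).2 ⟨j, rfl⟩)
    obtain ⟨i, rfl⟩ := (hrX t).1 ht
    obtain ⟨i', rfl⟩ := (hrX t').1 ht'
    have hii : i ≠ i' := by
      rintro rfl
      exact htt rfl
    have hcov : ∀ i i' : Fin 3, i ≠ i' → ∃ n : Fin 3, ∀ k, k ≠ n → (k = i ∨ k = i') := by decide
    obtain ⟨n, hn⟩ := hcov i i' hii
    refine ⟨n, fun k hk => ?_⟩
    rcases hn k hk with rfl | rfl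
    · exact h1
    · exact h2
  choose ν hν using hν
  have hνinj : Function.Injective ν := by
    intro j j' hjj
    by_contra hne
    have hoth : ∀ n : Fin 3, ∃ i i' : Fin 3, i ≠ i' ∧ i ≠ n ∧ i' ≠ n := by decide
    obtain ⟨i, i', hii, hin, hin'⟩ := hoth (ν j)
    obtain ⟨a, ea⟩ := hν j i hin
    obtain ⟨b, eb⟩ := hν j i' hin'
    obtain ⟨e, ee⟩ := hν j' i (by rw [← hjj]; exact hin)
    obtain ⟨f, ef⟩ := hν j' i' (by rw [← hjj]; exact hin')
    have hri : r i ≠ 0 := hX0 _ ((hrX _).2 ⟨i, rfl⟩)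
    have hri' : r i' ≠ 0 := hX0 _ ((hrX _).2 ⟨i', rfl⟩)
    have h1 : KK a * KK f = KK b * KK e := by
      apply mul_left_cancel₀ (mul_ne_zero hri hri')
      calc r i * r i' * (KK a * KK f) = (r i * KK a) * (r i' * KK f) := by ring
        _ = (r i' * KK b) * (r i * KK e) := by rw [← ea, ← ef, ← eb, ← ee]
        _ = _ := by ring
    refine deg2 h1 ?_ ?_
    · rintro rfl
      exact hii (hr (mul_right_cancel₀ (KK_ne _) (ea.symm.trans eb)))
    · rintro rfl
      exact hne (hs (ea.trans ee.symm))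
  have hνsurj : Function.Surjective ν := Finite.surjective_of_injective hνinj
  obtain ⟨ρ, hρ, hρX, hρS⟩ := core (fun i => r (ν i)) s (hr.comp hνinj) hs
    (fun i => hX0 _ ((hrX _).2 ⟨_, rfl⟩)) (fun j i hij => hν j (ν i) (fun h0 => hij (hνinj h0)))
  refine ⟨ρ, hρ, ?_, ?_⟩
  · intro z
    constructor
    · intro hz
      obtain ⟨w, hw, t, ht, hzt⟩ := hPX z hz
      obtain ⟨i, hi⟩ := (hrX t).1 ht
      obtain ⟨k, rfl⟩ := hνsurj i
      obtain ⟨j, hj⟩ := (hρX t).1 ⟨k, hi⟩
      exact ⟨w, hw, j, by rw [hzt, hj]⟩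
    · rintro ⟨w, hw, j, rfl⟩
      obtain ⟨k, hk⟩ := (hρX (ρ * KK j)).2 ⟨j, rfl⟩
      have h1 := (hXmem _).1 ((hrX _).2 ⟨_, hk⟩)
      rw [← hr1]
      exact (hpr w hw).mem h1
  · intro l
    constructor
    · intro hl
      obtain ⟨w, hw, t, ht, hzt⟩ := hLS l hl
      obtain ⟨i, j, hij, hj⟩ := (hρS t).1 ((hsS t).1 ht)
      exact ⟨w, hw, i, j, hij, by rw [hzt, hj]⟩
    · rintro ⟨w, hw, i, j, hij, rfl⟩
      have h1 := (hSmem _).1 ((hsS _).2 ((hρS (ρ * KK i * KK j)).2 ⟨i, j, hij, rfl⟩))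
      have e : Complex.I * (w * d) = w * (Complex.I * d) := by ring
      rw [e, ← rho_mirror]
      exact (hpr w hw).memL h1

/-! ### sevenfold rotations: the celestial case has a mirror -/

/-- `x` is a real multiple of `y` up to a seventh root of unity -/
def Al (x y : ℂ) : Prop := ∃ (s : ℝ) (w : ℂ), w ^ 7 = 1 ∧ x = s * (w * y)

lemma Al.trans {x y z : ℂ} (h1 : Al x y) (h2 : Al y z) : Al x z := by
  obtain ⟨s, w, hw, rfl⟩ := h1
  obtain ⟨t, v, hv, rfl⟩ := h2
  exact ⟨s * t, w * v, root7_mul hw hv, by push_cast; ring⟩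

lemma Al.symm {x y : ℂ} (h1 : Al x y) (hx : x ≠ 0) : Al y x := by
  obtain ⟨s, w, hw, rfl⟩ := h1
  have hw0 := root7_ne hw
  have hs : (s : ℂ) ≠ 0 := left_ne_zero_of_mul hx
  refine ⟨s⁻¹, w⁻¹, root7_inv hw, ?_⟩
  push_cast
  field_simp

lemma al_pole {c p u v : ℂ} (hv : v ^ 7 = 1) (hv1 : v ≠ 1)
    (h1 : ((p - c) * conj u).re = 1) (h2 : (v * (p - c) * conj u).re = 1) : Al (p - c) u := by
  have hvv := d_conj (root7_norm hv)
  set y : ℂ := (p - c) * conj u with hy
  have hy0 : y ≠ 0 := by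
    intro h0
    rw [h0] at h1
    simp at h1
  have hvy : v * y = conj y := by
    have e1 : (v * y).re = 1 := by rw [hy, ← mul_assoc]; exact h2
    have e2 : Complex.normSq (v * y) = Complex.normSq y := by
      rw [Complex.normSq_mul, Complex.normSq_eq_norm_sq v, root7_norm hv]; ring
    rw [Complex.normSq_apply, Complex.normSq_apply, e1, h1] at e2
    have e3 : ((v * y).im - y.im) * ((v * y).im + y.im) = 0 := by linear_combination e2
    rcases mul_eq_zero.1 e3 with e4 | e4
    · exfalso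
      apply hv1
      have e5 : v * y = y := Complex.ext (e1.trans h1.symm) (sub_eq_zero.1 e4)
      exact mul_right_cancel₀ hy0 (by rw [e5, one_mul])
    · apply Complex.ext
      · rw [e1, Complex.conj_re, h1]
      · rw [Complex.conj_im]; linarith
  have hs : conj (y * (conj v) ^ 3) = y * (conj v) ^ 3 := by
    rw [map_mul, map_pow, Complex.conj_conj, ← hvy]
    linear_combination (y * (conj v) ^ 3) * hv -
      y * v ^ 4 * ((v * conj v) ^ 2 + v * conj v + 1) * hvv
  obtain ⟨s, hs'⟩ := Complex.conj_eq_iff_real.1 hs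
  have hu0 : conj u ≠ 0 := by
    intro h0
    apply hy0
    rw [hy, h0, mul_zero]
  have hu1 : u ≠ 0 := by
    rintro rfl
    simp at hu0
  have hN : u * conj u = ((Complex.normSq u : ℝ) : ℂ) := Complex.mul_conj u
  have hN0 : ((Complex.normSq u : ℝ) : ℂ) ≠ 0 := by
    rw [← hN]
    exact mul_ne_zero hu1 hu0
  refine ⟨s / Complex.normSq u, v ^ 3, by rw [← pow_mul, mul_comm 3 7, pow_mul, hv, one_pow], ?_⟩
  have e6 : y = s * v ^ 3 := by
    rw [← hs']
    linear_combination (-y) * ((v * conj v) ^ 2 + v * conj v + 1) * hvv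
  apply mul_right_cancel₀ hu0
  rw [← hy, e6]
  push_cast
  rw [← hN]
  field_simp

lemma thirteen (h : IsConfig 21 4 P L) {Q : Finset ℂ} (hQP : Q ⊆ P)
    (hQ : ∀ p ∈ Q, ∀ l ∈ L, p ∈ l → ∀ q ∈ P, q ∈ l → q ∈ Q) {p : ℂ} (hp : p ∈ Q) :
    12 < Q.card := by
  have hpP := hQP hp
  have h1 : ((L.filter (fun l => p ∈ l)).biUnion
      (fun l => (P.filter (fun q => q ∈ l)).erase p)).card =
      ∑ l ∈ L.filter (fun l => p ∈ l), ((P.filter (fun q => q ∈ l)).erase p).card := by
    apply Finset.card_biUnion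
    intro l hl l' hl' hll
    rw [Finset.mem_coe, Finset.mem_filter] at hl hl'
    show Disjoint ((P.filter (fun q => q ∈ l)).erase p) ((P.filter (fun q => q ∈ l')).erase p)
    rw [Finset.disjoint_left]
    intro x hx hx'
    rw [Finset.mem_erase, Finset.mem_filter] at hx hx'
    exact hll (line_eq_of_two (h.line l hl.1) (h.line l' hl'.1) hx.1 hx.2.2 hl.2 hx'.2.2 hl'.2)
  have h2 : ∑ l ∈ L.filter (fun l => p ∈ l), ((P.filter (fun q => q ∈ l)).erase p).card = 4 * 3 := by
    rw [Finset.sum_const_nat (m := 3), h.deg p hpP]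
    intro l hl
    rw [Finset.mem_filter] at hl
    rw [Finset.card_erase_of_mem (Finset.mem_filter.2 ⟨hpP, hl.2⟩), h.size l hl.1]
  have h3 : (L.filter (fun l => p ∈ l)).biUnion
      (fun l => (P.filter (fun q => q ∈ l)).erase p) ⊆ Q.erase p := by
    intro x hx
    rw [Finset.mem_biUnion] at hx
    obtain ⟨l, hl, hx⟩ := hx
    rw [Finset.mem_filter] at hl
    rw [Finset.mem_erase, Finset.mem_filter] at hx
    rw [Finset.mem_erase]
    exact ⟨hx.1, hQ p hp l hl.1 hl.2 x hx.2.1 hx.2.2⟩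
  have h4 := Finset.card_le_card h3
  have h5 := Finset.card_pos.2 ⟨p, hp⟩
  rw [h1, h2, Finset.card_erase_of_mem hp] at h4
  omega

lemma connected (h : IsConfig 21 4 P L) {Q : Finset ℂ} (hQP : Q ⊆ P)
    (hQ : ∀ p ∈ Q, ∀ l ∈ L, p ∈ l → ∀ q ∈ P, q ∈ l → q ∈ Q) {p : ℂ} (hp : p ∈ Q) : Q = P := by
  by_contra hne
  have hex : ∃ q ∈ P, q ∉ Q := by
    by_contra hcon
    push Not at hcon
    exact hne (Finset.Subset.antisymm hQP hcon)
  obtain ⟨q, hqP, hq⟩ := hex
  have h1 := thirteen h hQP hQ hp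
  have h2 := thirteen h (Q := P \ Q) Finset.sdiff_subset (by
    intro x hx l hl hxl y hy hyl
    rw [Finset.mem_sdiff] at hx ⊢
    exact ⟨hy, fun hyQ => hx.2 (hQ y hyQ l hl hyl x hx.1 hxl)⟩) (Finset.mem_sdiff.2 ⟨hqP, hq⟩)
  rw [Finset.card_sdiff_of_subset hQP, h.cardP] at h2
  omega

lemma celestial_mirror (h : IsConfig 21 4 P L) {c : ℂ} (hcP : c ∉ P)
    (hpr : ∀ w : ℂ, w ^ 7 = 1 → Preserves P L (rho c w))
    (hO : ∀ p ∈ P, (orbP P c p).card = 7)
    (hev : ∀ l ∈ L, ∀ p ∈ P, ((orbP P c p).filter (fun x => x ∈ l)).card ≠ 1) :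
    ∃ d : ℂ, ‖d‖ = 1 ∧ Preserves P L (refl c d) := by
  have hne : P.Nonempty := by rw [← Finset.card_pos, h.cardP]; norm_num
  obtain ⟨p0, hp0⟩ := hne
  have hp0c : p0 - c ≠ 0 := by
    rw [sub_ne_zero]
    rintro rfl
    exact hcP hp0
  have hn0 : (‖p0 - c‖ : ℂ) ≠ 0 := by
    exact_mod_cast (norm_ne_zero_iff.2 hp0c)
  obtain ⟨d, hdd⟩ : ∃ d : ℂ, d = (p0 - c) / ‖p0 - c‖ := ⟨_, rfl⟩
  have hd : ‖d‖ = 1 := by
    rw [hdd, norm_div, Complex.norm_real, norm_norm, div_self (norm_ne_zero_iff.2 hp0c)]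
  have hd1 := d_conj hd
  -- an incident point and line are aligned
  have hal : ∀ l ∈ L, ∀ u, IsPole c l u → ∀ p ∈ P, p ∈ l → Al (p - c) u := by
    intro l hl u hu p hp hpl
    have hpo : p ∈ (orbP P c p).filter (fun x => x ∈ l) := by
      unfold orbP
      rw [Finset.mem_filter, Finset.mem_filter]
      exact ⟨⟨hp, 1, one_pow 7, (rho_one c p).symm⟩, hpl⟩
    have h1 : 1 < ((orbP P c p).filter (fun x => x ∈ l)).card := by
      have h2 := hev l hl p hp
      have h3 := Finset.card_pos.2 ⟨p, hpo⟩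
      omega
    obtain ⟨x, hx, hxp⟩ := Finset.exists_mem_ne h1 p
    rw [Finset.mem_filter] at hx
    obtain ⟨hx1, hxl⟩ := hx
    unfold orbP at hx1
    rw [Finset.mem_filter] at hx1
    obtain ⟨_, v, hv, hxv⟩ := hx1
    rw [hu] at hpl hxl
    refine al_pole hv ?_ hpl ?_
    · rintro rfl
      rw [rho_one] at hxv
      exact hxp hxv
    · have e : x - c = v * (p - c) := by rw [hxv]; unfold rho; ring
      rw [← e]
      exact hxl
  have hQ : P.filter (fun p => Al (p - c) d) = P := by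
    apply connected h (Finset.filter_subset _ _) (p := p0)
    · intro p hp l hl hpl q hq hql
      rw [Finset.mem_filter] at hp ⊢
      refine ⟨hq, ?_⟩
      obtain ⟨u, hu⟩ := exists_pole (h.line l hl) (no_line_through h hcP hO hl)
      have h1 := hal l hl u hu p hp.1 hpl
      have h2 := hal l hl u hu q hq hql
      have hpc : p - c ≠ 0 := by
        rw [sub_ne_zero]
        rintro rfl
        exact hcP hp.1
      exact (h2.trans (h1.symm hpc)).trans hp.2
    · rw [Finset.mem_filter]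
      refine ⟨hp0, ‖p0 - c‖, 1, one_pow 7, ?_⟩
      rw [hdd]
      field_simp
  have hPd : ∀ p ∈ P, Al (p - c) d := by
    intro p hp
    rw [← hQ, Finset.mem_filter] at hp
    exact hp.2
  have hinj : Function.Injective (refl c d) := by
    intro x y hxy
    rw [← refl_refl (c := c) hd x, hxy, refl_refl hd]
  refine ⟨d, hd, ?_, ?_⟩
  · apply Finset.eq_of_subset_of_card_le
    · intro x hx
      obtain ⟨p, hp, rfl⟩ := Finset.mem_image.1 hx
      obtain ⟨s, w, hw, hpw⟩ := hPd p hp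
      have hww := d_conj (root7_norm hw)
      have hcw : (conj w) ^ 7 = 1 := by rw [← map_pow, hw, map_one]
      have e : refl c d p = rho c (conj w * conj w) p := by
        unfold refl rho
        rw [hpw, map_mul, map_mul, Complex.conj_ofReal]
        linear_combination (s * conj w * d) * hd1 - (s * conj w * d) * hww
      rw [e]
      exact (hpr _ (root7_mul hcw hcw)).mem hp
    · rw [Finset.card_image_of_injective _ hinj]
  · apply Finset.eq_of_subset_of_card_le
    · intro x hx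
      obtain ⟨l, hl, rfl⟩ := Finset.mem_image.1 hx
      obtain ⟨u, hu⟩ := exists_pole (h.line l hl) (no_line_through h hcP hO hl)
      obtain ⟨p, _, _, hpP, _, _, hpl, _, _, _, _, _⟩ := h.three hl
      have hpc : p - c ≠ 0 := by
        rw [sub_ne_zero]
        rintro rfl
        exact hcP hpP
      obtain ⟨s, w, hw, huw⟩ := ((hal l hl u hu p hpP hpl).symm hpc).trans (hPd p hpP)
      have hww := d_conj (root7_norm hw)
      have hcw : (conj w) ^ 7 = 1 := by rw [← map_pow, hw, map_one]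
      have h1 := pole_refl hd hu
      have h2 := pole_rho (w := conj w * conj w) (root7_norm (root7_mul hcw hcw)) hu
      have e : d ^ 2 * conj u = conj w * conj w * u := by
        rw [huw, map_mul, map_mul, Complex.conj_ofReal]
        linear_combination (s * conj w * d) * hd1 - (s * conj w * d) * hww
      rw [e] at h1
      have h3 : refl c d '' l = rho c (conj w * conj w) '' l := h1.trans h2.symm
      show refl c d '' l ∈ L
      rw [h3]
      exact (hpr _ (root7_mul hcw hcw)).memL hl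
    · rw [Finset.card_image_of_injective _ hinj.image_injective]

/-! ### a finite check in the cubic field -/

noncomputable def vl (t : ℤ × ℤ × ℤ) : ℝ :=
  t.1 + t.2.1 * (2 * kap 1) + t.2.2 * (2 * kap 1) ^ 2

def mlT (a b : ℤ × ℤ × ℤ) : ℤ × ℤ × ℤ :=
  (a.1 * b.1 + (a.2.1 * b.2.2 + a.2.2 * b.2.1) - a.2.2 * b.2.2,
   a.1 * b.2.1 + a.2.1 * b.1 + 2 * (a.2.1 * b.2.2 + a.2.2 * b.2.1) - a.2.2 * b.2.2,
   a.1 * b.2.2 + a.2.1 * b.2.1 + a.2.2 * b.1 - (a.2.1 * b.2.2 + a.2.2 * b.2.1) +
     3 * (a.2.2 * b.2.2))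

def sbT (a b : ℤ × ℤ × ℤ) : ℤ × ℤ × ℤ := (a.1 - b.1, a.2.1 - b.2.1, a.2.2 - b.2.2)

lemma vl_mul (a b : ℤ × ℤ × ℤ) : vl (mlT a b) = vl a * vl b := by
  have h : (2 * kap 1) ^ 3 + (2 * kap 1) ^ 2 - 2 * (2 * kap 1) - 1 = 0 := by
    linear_combination kap_cubic
  unfold vl mlT
  push_cast
  linear_combination (-((a.2.1 : ℝ) * b.2.2 + a.2.2 * b.2.1 +
    (a.2.2 * b.2.2) * (2 * kap 1 - 1))) * h

lemma vl_sub (a b : ℤ × ℤ × ℤ) : vl (sbT a b) = vl a - vl b := by
  unfold vl sbT
  push_cast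
  ring

def nzT (t : ℤ × ℤ × ℤ) : Bool :=
  decide (20000 * |t.2.1| + 50000 * |t.2.2| <
    |t.1 * 100000000 + t.2.1 * 124700000 + t.2.2 * 155500900|)

lemma nz_ne {t : ℤ × ℤ × ℤ} (h : nzT t = true) : vl t ≠ 0 := by
  unfold nzT at h
  rw [decide_eq_true_eq] at h
  intro h0
  obtain ⟨b1, b2⟩ := kap_bounds
  have h1 : ((20000 * |t.2.1| + 50000 * |t.2.2| : ℤ) : ℝ) <
      ((|t.1 * 100000000 + t.2.1 * 124700000 + t.2.2 * 155500900| : ℤ) : ℝ) := by
    exact_mod_cast h
  rw [Int.cast_abs] at h1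
  push_cast at h1
  unfold vl at h0
  have e : (t.1 * 100000000 + t.2.1 * 124700000 + t.2.2 * 155500900 : ℝ) =
      t.2.1 * (124700000 - 100000000 * (2 * kap 1)) +
      t.2.2 * (155500900 - 100000000 * (2 * kap 1) ^ 2) := by
    linear_combination 100000000 * h0
  rw [e] at h1
  have e1 : |(t.2.1 : ℝ) * (124700000 - 100000000 * (2 * kap 1))| ≤ 20000 * |(t.2.1 : ℝ)| := by
    rw [abs_mul, mul_comm]
    apply mul_le_mul_of_nonneg_right _ (abs_nonneg _)
    rw [abs_le]
    constructor <;> linarith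
  have e2 : |(t.2.2 : ℝ) * (155500900 - 100000000 * (2 * kap 1) ^ 2)| ≤ 50000 * |(t.2.2 : ℝ)| := by
    rw [abs_mul, mul_comm]
    apply mul_le_mul_of_nonneg_right _ (abs_nonneg _)
    rw [abs_le]
    constructor <;> nlinarith
  have e3 := abs_add_le ((t.2.1 : ℝ) * (124700000 - 100000000 * (2 * kap 1)))
    ((t.2.2 : ℝ) * (155500900 - 100000000 * (2 * kap 1) ^ 2))
  linarith

/-- `2 cos (2 π (j + 1) / 7)` -/
def K2 : ℕ → ℤ × ℤ × ℤ
  | 0 => (0, 1, 0)
  | 1 => (-2, 0, 1)
  | _ => (1, -1, -1)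

lemma vl_K2 (a : Fin 3) : vl (K2 a.val) = 2 * KK a := by
  have h2 := kap_two
  have h3 := kap_sum
  have three : a = 0 ∨ a = 1 ∨ a = 2 := by
    revert a
    decide
  rcases three with rfl | rfl | rfl
  · show vl (0, 1, 0) = 2 * kap (0 + 1)
    unfold vl
    norm_num
  · show vl (-2, 0, 1) = 2 * kap (1 + 1)
    unfold vl
    norm_num
    rw [h2]
    ring
  · show vl (1, -1, -1) = 2 * kap (2 + 1)
    unfold vl
    norm_num
    rw [h2] at h3
    linear_combination (-2 : ℝ) * h3

/-- coefficients of `G 1` -/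
def S7 : ℕ → ℤ × ℤ × ℤ
  | 0 => (0, 0, 0)
  | 1 => (1, 0, 0)
  | 2 => (0, 1, 0)
  | 3 => (-1, 0, 1)
  | 4 => (1, 0, -1)
  | 5 => (0, -1, 0)
  | _ => (-1, 0, 0)

/-- coefficients of `G 0` -/
def A7 : ℕ → ℤ × ℤ × ℤ
  | 0 => (1, 0, 0)
  | 1 => (0, 0, 0)
  | 2 => (-1, 0, 0)
  | 3 => (0, -1, 0)
  | 4 => (1, 0, -1)
  | 5 => (-1, 0, 1)
  | _ => (0, 1, 0)

/-- determinant of the two linear forms `p G k - q G l` and `r G m - s G n` -/
def detT (p q r s : ℕ) (k l m n : ℕ) : ℤ × ℤ × ℤ :=
  sbT (mlT (sbT (mlT (K2 p) (A7 k)) (mlT (K2 q) (A7 l)))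
      (sbT (mlT (K2 r) (S7 m)) (mlT (K2 s) (S7 n))))
    (mlT (sbT (mlT (K2 p) (S7 k)) (mlT (K2 q) (S7 l)))
      (sbT (mlT (K2 r) (A7 m)) (mlT (K2 s) (A7 n))))

def okT (a b a2 a3 x y z : ℕ) : Bool :=
  a == b || a2 == a3 || y == 0 || x == 0 || z == x || z == y ||
    nzT (detT b a a3 a2 0 y y z) || nzT (detT b a a3 a2 x z y z)

def allT : Bool :=
  (List.range 3).all fun a => (List.range 3).all fun b => (List.range 3).all fun a2 =>
  (List.range 3).all fun a3 => (List.range 7).all fun x => (List.range 7).all fun y =>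
  (List.range 7).all fun z => okT a b a2 a3 x y z

set_option maxRecDepth 1000000 in
lemma allT_true : allT = true := by decide +kernel

lemma detT_zero {p q r s k l m n : ℕ} {G0 G1 Gk Gl Gm Gn : ℝ}
    (hk : Gk = vl (A7 k) * G0 + vl (S7 k) * G1) (hl : Gl = vl (A7 l) * G0 + vl (S7 l) * G1)
    (hm : Gm = vl (A7 m) * G0 + vl (S7 m) * G1) (hn : Gn = vl (A7 n) * G0 + vl (S7 n) * G1)
    (e1 : vl (K2 p) * Gk = vl (K2 q) * Gl) (e2 : vl (K2 r) * Gm = vl (K2 s) * Gn)
    (hnz : nzT (detT p q r s k l m n) = true) : G0 = 0 := by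
  have h1 := nz_ne hnz
  have h2 : vl (detT p q r s k l m n) * G0 = 0 := by
    unfold detT
    simp only [vl_sub, vl_mul]
    rw [hk, hl] at e1
    rw [hm, hn] at e2
    linear_combination (vl (K2 r) * vl (S7 m) - vl (K2 s) * vl (S7 n)) * e1 -
      (vl (K2 p) * vl (S7 k) - vl (K2 q) * vl (S7 l)) * e2
  exact (mul_eq_zero.1 h2).resolve_left h1

lemma G_form {ξ F : ℂ} (hξ : ξ ^ 7 = 1) (hre : ξ.re = kap 1) {k : ℕ} (hk : k < 7) :
    (ξ ^ k * F).re = vl (A7 k) * F.re + vl (S7 k) * (ξ * F).re := by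
  have hC : (2 * kap 1) ^ 3 + (2 * kap 1) ^ 2 - 2 * (2 * kap 1) - 1 = 0 := by
    linear_combination kap_cubic
  have hq : ξ ^ 2 = ((2 * kap 1 : ℝ) : ℂ) * ξ - 1 := by
    have h1 := d_conj (root7_norm hξ)
    have h2 := Complex.add_conj ξ
    rw [hre] at h2
    push_cast at h2 ⊢
    linear_combination ξ * h2 - h1
  have rec' : ∀ k : ℕ, (ξ ^ (k + 2) * F).re =
      (2 * kap 1) * (ξ ^ (k + 1) * F).re - (ξ ^ k * F).re := by
    intro k
    have h1 : ξ ^ (k + 2) * F = ((2 * kap 1 : ℝ) : ℂ) * (ξ ^ (k + 1) * F) - ξ ^ k * F := by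
      rw [pow_add, hq]
      ring
    rw [h1, Complex.sub_re, Complex.re_ofReal_mul]
  have g2 : (ξ ^ 2 * F).re = (2 * kap 1) * (ξ * F).re - F.re := by
    have h1 := rec' 0
    rw [zero_add, zero_add, pow_one, pow_zero, one_mul] at h1
    exact h1
  have g3 : (ξ ^ 3 * F).re = (2 * kap 1) * (ξ ^ 2 * F).re - (ξ * F).re := by
    have h1 : (ξ ^ 3 * F).re = (2 * kap 1) * (ξ ^ 2 * F).re - (ξ ^ 1 * F).re := rec' 1
    rw [pow_one] at h1
    exact h1
  have g4 : (ξ ^ 4 * F).re = (2 * kap 1) * (ξ ^ 3 * F).re - (ξ ^ 2 * F).re := rec' 2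
  have g5 : (ξ ^ 5 * F).re = (2 * kap 1) * (ξ ^ 4 * F).re - (ξ ^ 3 * F).re := rec' 3
  have g6 : (ξ ^ 6 * F).re = (2 * kap 1) * (ξ ^ 5 * F).re - (ξ ^ 4 * F).re := rec' 4
  have e2 : (ξ ^ 2 * F).re = -F.re + (2 * kap 1) * (ξ * F).re := by linear_combination g2
  have e3 : (ξ ^ 3 * F).re = -(2 * kap 1) * F.re + ((2 * kap 1) ^ 2 - 1) * (ξ * F).re := by
    linear_combination g3 + (2 * kap 1) * e2
  have e4 : (ξ ^ 4 * F).re = (1 - (2 * kap 1) ^ 2) * F.re + (1 - (2 * kap 1) ^ 2) * (ξ * F).re := by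
    linear_combination g4 + (2 * kap 1) * e3 - e2 + (ξ * F).re * hC
  have e5 : (ξ ^ 5 * F).re = ((2 * kap 1) ^ 2 - 1) * F.re - (2 * kap 1) * (ξ * F).re := by
    linear_combination g5 + (2 * kap 1) * e4 - e3 - (F.re + (ξ * F).re) * hC
  have e6 : (ξ ^ 6 * F).re = (2 * kap 1) * F.re - (ξ * F).re := by
    linear_combination g6 + (2 * kap 1) * e5 - e4 + F.re * hC
  interval_cases k
  · show _ = vl (1, 0, 0) * F.re + vl (0, 0, 0) * (ξ * F).re
    rw [pow_zero, one_mul]
    unfold vl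
    push_cast
    ring
  · show _ = vl (0, 0, 0) * F.re + vl (1, 0, 0) * (ξ * F).re
    rw [pow_one]
    unfold vl
    push_cast
    ring
  · show _ = vl (-1, 0, 0) * F.re + vl (0, 1, 0) * (ξ * F).re
    rw [e2]
    unfold vl
    push_cast
    ring
  · show _ = vl (0, -1, 0) * F.re + vl (-1, 0, 1) * (ξ * F).re
    rw [e3]
    unfold vl
    push_cast
    ring
  · show _ = vl (1, 0, -1) * F.re + vl (1, 0, -1) * (ξ * F).re
    rw [e4]
    unfold vl
    push_cast
    ring
  · show _ = vl (-1, 0, 1) * F.re + vl (0, -1, 0) * (ξ * F).re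
    rw [e5]
    unfold vl
    push_cast
    ring
  · show _ = vl (0, 1, 0) * F.re + vl (-1, 0, 0) * (ξ * F).re
    rw [e6]
    unfold vl
    push_cast
    ring

lemma noB_alg {F ζ1 ζ2 ζ3 ζ4 : ℂ} (h1 : ζ1 ^ 7 = 1) (h2 : ζ2 ^ 7 = 1) (h3 : ζ3 ^ 7 = 1)
    (h4 : ζ4 ^ 7 = 1) {a b a2 a3 : Fin 3} (hab : a ≠ b) (h23 : a2 ≠ a3)
    (e1 : KK b * (ζ1 * F).re = KK a * (ζ2 * F).re) (e2 : KK b * (ζ3 * F).re = KK a * (ζ4 * F).re)
    (e3 : KK a3 * (ζ1 * F).re = KK a2 * (ζ3 * F).re)
    (e4 : KK a3 * (ζ2 * F).re = KK a2 * (ζ4 * F).re) (n1 : (ζ1 * F).re ≠ 0) : False := by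
  have n2 : (ζ2 * F).re ≠ 0 := by
    intro h0
    rw [h0, mul_zero] at e1
    exact (mul_ne_zero (KK_ne b) n1) e1
  have n3 : (ζ3 * F).re ≠ 0 := by
    intro h0
    rw [h0, mul_zero] at e3
    exact (mul_ne_zero (KK_ne a3) n1) e3
  have n4 : (ζ4 * F).re ≠ 0 := by
    intro h0
    rw [h0, mul_zero] at e2
    exact (mul_ne_zero (KK_ne b) n3) e2
  have Kinj : ∀ i j : Fin 3, KK i = KK j → i = j := by
    intro i j hij
    by_contra hne
    exact deg2 (a := i) (b := j) (c := j) (d := i) (by rw [hij]) hne hne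
  have m12 : ζ1 ≠ ζ2 := by
    intro h0
    rw [← h0] at e1
    exact hab (Kinj _ _ (mul_right_cancel₀ n1 e1)).symm
  have m34 : ζ3 ≠ ζ4 := by
    intro h0
    rw [← h0] at e2
    exact hab (Kinj _ _ (mul_right_cancel₀ n3 e2)).symm
  have m13 : ζ1 ≠ ζ3 := by
    intro h0
    rw [← h0] at e3
    exact h23 (Kinj _ _ (mul_right_cancel₀ n1 e3)).symm
  have m24 : ζ2 ≠ ζ4 := by
    intro h0
    rw [← h0] at e4
    exact h23 (Kinj _ _ (mul_right_cancel₀ n2 e4)).symm
  have hprim := Complex.isPrimitiveRoot_exp 7 (by norm_num)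
  obtain ⟨ξ, hξd⟩ : ∃ ξ : ℂ, ξ = Complex.exp (2 * Real.pi * Complex.I / ((7 : ℕ) : ℂ)) := ⟨_, rfl⟩
  rw [← hξd] at hprim
  have hre : ξ.re = kap 1 := by
    rw [hξd]
    have e : (2 * Real.pi * Complex.I / ((7 : ℕ) : ℂ)) =
        ((2 * Real.pi * ((1 : ℕ) : ℝ) / 7 : ℝ) : ℂ) * Complex.I := by
      push_cast
      ring
    rw [e, Complex.exp_ofReal_mul_I_re]
    rfl
  have hz1 := root7_ne h1
  have hpow : ∀ ζ : ℂ, ζ ^ 7 = 1 → ∃ k < 7, ζ = ξ ^ k * ζ1 := by
    intro ζ hζ
    obtain ⟨k, hk, hk'⟩ := hprim.eq_pow_of_pow_eq_one (ξ := ζ * ζ1⁻¹) (by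
      rw [mul_pow, hζ, inv_pow, h1, inv_one, one_mul])
    exact ⟨k, hk, by rw [hk', inv_mul_cancel_right₀ hz1]⟩
  obtain ⟨y, hy, hy'⟩ := hpow ζ2 h2
  obtain ⟨x, hx, hx'⟩ := hpow ζ3 h3
  obtain ⟨z, hz, hz'⟩ := hpow ζ4 h4
  have g0 := G_form (F := ζ1 * F) hprim.pow_eq_one hre (k := 0) (by norm_num)
  have gx := G_form (F := ζ1 * F) hprim.pow_eq_one hre hx
  have gy := G_form (F := ζ1 * F) hprim.pow_eq_one hre hy
  have gz := G_form (F := ζ1 * F) hprim.pow_eq_one hre hz
  rw [pow_zero, one_mul] at g0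
  rw [← mul_assoc, ← hx'] at gx
  rw [← mul_assoc, ← hy'] at gy
  rw [← mul_assoc, ← hz'] at gz
  have f1 : vl (K2 b.val) * (ζ1 * F).re = vl (K2 a.val) * (ζ2 * F).re := by
    rw [vl_K2, vl_K2]; linear_combination 2 * e1
  have f2 : vl (K2 b.val) * (ζ3 * F).re = vl (K2 a.val) * (ζ4 * F).re := by
    rw [vl_K2, vl_K2]; linear_combination 2 * e2
  have f4 : vl (K2 a3.val) * (ζ2 * F).re = vl (K2 a2.val) * (ζ4 * F).re := by
    rw [vl_K2, vl_K2]; linear_combination 2 * e4
  have hall := allT_true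
  unfold allT at hall
  simp only [List.all_eq_true, List.mem_range] at hall
  have hok := hall a.val a.isLt b.val b.isLt a2.val a2.isLt a3.val a3.isLt x hx y hy z hz
  unfold okT at hok
  simp only [Bool.or_eq_true, beq_iff_eq] at hok
  rcases hok with ((((((( hok | hok) | hok) | hok) | hok) | hok) | hok) | hok)
  · exact hab (Fin.ext hok)
  · exact h23 (Fin.ext hok)
  · apply m12
    rw [hy', hok, pow_zero, one_mul]
  · apply m13
    rw [hx', hok, pow_zero, one_mul]
  · apply m34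
    rw [hx', hz', hok]
  · apply m24
    rw [hy', hz', hok]
  · exact n1 (detT_zero g0 gy gy gz f1 f4 hok)
  · exact n1 (detT_zero gx gz gy gz f2 f4 hok)

/-! ### sevenfold rotations without mirror: every line meets every orbit -/

lemma mem_orbP_self {c p : ℂ} (hp : p ∈ P) : p ∈ orbP P c p := by
  unfold orbP
  rw [Finset.mem_filter]
  exact ⟨hp, 1, one_pow 7, (rho_one c p).symm⟩

lemma orbP_disj {c p q : ℂ} (hq : q ∈ P) (h : q ∉ orbP P c p) :
    Disjoint (orbP P c p) (orbP P c q) := by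
  rw [Finset.disjoint_left]
  intro x hx hx'
  apply h
  unfold orbP at hx hx' ⊢
  rw [Finset.mem_filter] at hx hx' ⊢
  obtain ⟨_, w, hw, rfl⟩ := hx
  obtain ⟨_, v, hv, hx'⟩ := hx'
  refine ⟨hq, v⁻¹ * w, root7_mul (root7_inv hv) hw, ?_⟩
  rw [← rho_rho, hx', rho_rho, inv_mul_cancel₀ (root7_ne hv), rho_one]

lemma orbL_disj {c : ℂ} {l l' : Set ℂ} (hl : l' ∈ L) (h : l' ∉ orbL L c l) :
    Disjoint (orbL L c l) (orbL L c l') := by
  rw [Finset.disjoint_left]
  intro x hx hx'
  apply h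
  unfold orbL at hx hx' ⊢
  rw [Finset.mem_filter] at hx hx' ⊢
  obtain ⟨_, w, hw, rfl⟩ := hx
  obtain ⟨_, v, hv, hx'⟩ := hx'
  refine ⟨hl, v⁻¹ * w, root7_mul (root7_inv hv) hw, ?_⟩
  rw [← rho_image_image, hx', rho_image_image, inv_mul_cancel₀ (root7_ne hv), rho_image_one]

lemma no4 {α : Type*} {A : Finset α} (hA : A.card = 21) {O1 O2 O3 O4 : Finset α}
    (c1 : O1.card = 7) (c2 : O2.card = 7) (c3 : O3.card = 7) (c4 : O4.card = 7)
    (s1 : O1 ⊆ A) (s2 : O2 ⊆ A) (s3 : O3 ⊆ A) (s4 : O4 ⊆ A) (d12 : Disjoint O1 O2)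
    (d13 : Disjoint O1 O3) (d14 : Disjoint O1 O4) (d23 : Disjoint O2 O3) (d24 : Disjoint O2 O4)
    (d34 : Disjoint O3 O4) : False := by
  have h1 := Finset.card_union_of_disjoint d12
  have h2 : Disjoint (O1 ∪ O2) O3 := Finset.disjoint_union_left.2 ⟨d13, d23⟩
  have h3 := Finset.card_union_of_disjoint h2
  have h4 : Disjoint (O1 ∪ O2 ∪ O3) O4 :=
    Finset.disjoint_union_left.2 ⟨Finset.disjoint_union_left.2 ⟨d14, d24⟩, d34⟩
  have h5 := Finset.card_union_of_disjoint h4
  have h6 : O1 ∪ O2 ∪ O3 ∪ O4 ⊆ A :=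
    Finset.union_subset (Finset.union_subset (Finset.union_subset s1 s2) s3) s4
  have h7 := Finset.card_le_card h6
  rw [h5, h3, h1, hA, c1, c2, c3, c4] at h7
  omega

/-- a point off the first two of three orbits is in the third one -/
lemma third_orbit (h : IsConfig 21 4 P L) {c : ℂ} (hO : ∀ p ∈ P, (orbP P c p).card = 7)
    {p q r x : ℂ} (hp : p ∈ P) (hq : q ∈ P) (hr : r ∈ P) (hx : x ∈ P) (h1 : q ∉ orbP P c p)
    (h2 : r ∉ orbP P c p) (h3 : r ∉ orbP P c q) (h4 : x ∉ orbP P c p) (h5 : x ∉ orbP P c q) :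
    x ∈ orbP P c r := by
  by_contra h6
  exact no4 h.cardP (hO p hp) (hO q hq) (hO r hr) (hO x hx) (Finset.filter_subset _ _)
    (Finset.filter_subset _ _) (Finset.filter_subset _ _) (Finset.filter_subset _ _)
    (orbP_disj hq h1) (orbP_disj hr h2) (orbP_disj hx h4) (orbP_disj hr h3) (orbP_disj hx h5)
    (orbP_disj hx h6)

lemma third_orbitL (h : IsConfig 21 4 P L) {c : ℂ} (hO : ∀ p ∈ L, (orbL L c p).card = 7)
    {p q r x : Set ℂ} (hp : p ∈ L) (hq : q ∈ L) (hr : r ∈ L) (hx : x ∈ L) (h1 : q ∉ orbL L c p)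
    (h2 : r ∉ orbL L c p) (h3 : r ∉ orbL L c q) (h4 : x ∉ orbL L c p) (h5 : x ∉ orbL L c q) :
    x ∈ orbL L c r := by
  by_contra h6
  exact no4 h.cardL (hO p hp) (hO q hq) (hO r hr) (hO x hx) (Finset.filter_subset _ _)
    (Finset.filter_subset _ _) (Finset.filter_subset _ _) (Finset.filter_subset _ _)
    (orbL_disj hq h1) (orbL_disj hr h2) (orbL_disj hx h4) (orbL_disj hr h3) (orbL_disj hx h5)
    (orbL_disj hx h6)

lemma orb_normSq {c p x : ℂ} (hx : x ∈ orbP P c p) :
    Complex.normSq (x - c) = Complex.normSq (p - c) := by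
  unfold orbP at hx
  rw [Finset.mem_filter] at hx
  obtain ⟨_, w, hw, rfl⟩ := hx
  exact normSq_rho (root7_norm hw)

/-- at most two lines of an orbit pass through a point -/
lemma orbL_le_two (h : IsConfig 21 4 P L) {c : ℂ} (hcP : c ∉ P)
    (hnl : ∀ l ∈ L, c ∉ l) {l : Set ℂ} (hl : l ∈ L) {p : ℂ} (hp : p ∈ P) :
    ((orbL L c l).filter (fun x => p ∈ x)).card ≤ 2 := by
  by_contra hcon
  rw [not_le] at hcon
  obtain ⟨u, hu⟩ := exists_pole (h.line l hl) (hnl l hl)
  obtain ⟨x, hx, y, hy, z, hz, hxy, hxz, hyz⟩ := Finset.two_lt_card.1 hcon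
  have key : ∀ x ∈ (orbL L c l).filter (fun x => p ∈ x), ∃ v, IsPole c x v ∧
      v ∈ {u | ((p - c) * conj u).re = 1} ∧ Complex.normSq (v - 0) = Complex.normSq u := by
    intro x hx
    rw [Finset.mem_filter] at hx
    obtain ⟨hx1, hx2⟩ := hx
    unfold orbL at hx1
    rw [Finset.mem_filter] at hx1
    obtain ⟨_, w, hw, hxw⟩ := hx1
    have h1 := pole_rho (root7_norm hw) hu
    rw [← hxw] at h1
    refine ⟨w * u, h1, ?_, ?_⟩
    · rw [h1] at hx2
      exact hx2
    · rw [sub_zero, Complex.normSq_mul, Complex.normSq_eq_norm_sq w, root7_norm hw]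
      ring
  obtain ⟨ux, hux, hux1, hux2⟩ := key x hx
  obtain ⟨uy, huy, huy1, huy2⟩ := key y hy
  obtain ⟨uz, huz, huz1, huz2⟩ := key z hz
  have hpc : p - c ≠ 0 := by
    rw [sub_ne_zero]
    rintro rfl
    exact hcP hp
  exact not_three_circle (isLine_dual hpc) 0 _ hux1 huy1 huz1
    (by rintro rfl; exact hxy (hux.trans huy.symm))
    (by rintro rfl; exact hxz (hux.trans huz.symm))
    (by rintro rfl; exact hyz (huy.trans huz.symm)) hux2 huy2 huz2

/-- a point and a line that share a second point of the orbit -/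
def Dbl (c : ℂ) (l : Set ℂ) (p : ℂ) : Prop := ∃ v : ℂ, v ^ 7 = 1 ∧ v ≠ 1 ∧ rho c v p ∈ l

lemma dbl_form {c p u : ℂ} {l : Set ℂ} (hu : IsPole c l u) (hp : p ∈ l) (hd : Dbl c l p) :
    ∃ (s : ℝ) (w : ℂ), w ^ 7 = 1 ∧ w ≠ 1 ∧ p - c = s * (w * u) ∧
      s * Complex.normSq u * w.re = 1 := by
  obtain ⟨v, hv, hv1, hvp⟩ := hd
  rw [hu] at hp hvp
  have hp' : ((p - c) * conj u).re = 1 := hp
  have e : rho c v p - c = v * (p - c) := by unfold rho; ring
  have h2 : ((rho c v p - c) * conj u).re = 1 := hvp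
  rw [e] at h2
  obtain ⟨s, w, hw, hpw⟩ := al_pole hv hv1 hp' h2
  have h3 : s * Complex.normSq u * w.re = 1 := by
    rw [← hp', hpw]
    have e2 : (s : ℂ) * (w * u) * conj u = ((s * Complex.normSq u : ℝ) : ℂ) * w := by
      push_cast
      rw [← Complex.mul_conj]
      ring
    rw [e2, Complex.re_ofReal_mul]
  refine ⟨s, w, hw, ?_, hpw, h3⟩
  rintro rfl
  rw [Complex.one_re, mul_one] at h3
  rw [hpw] at h2
  have e3 : v * ((s : ℂ) * (1 * u)) * conj u = ((s * Complex.normSq u : ℝ) : ℂ) * v := by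
    push_cast
    rw [← Complex.mul_conj]
    ring
  rw [e3, Complex.re_ofReal_mul, h3, one_mul] at h2
  apply hv1
  have h4 := root7_norm hv
  have h5 : Complex.normSq v = 1 := by rw [Complex.normSq_eq_norm_sq, h4]; norm_num
  rw [Complex.normSq_apply, h2] at h5
  have h6 : v.im = 0 := by nlinarith
  exact Complex.ext (by rw [h2, Complex.one_re]) (by rw [h6, Complex.one_im])

lemma aligned_mirror (h : IsConfig 21 4 P L) {c d : ℂ} (hd : ‖d‖ = 1)
    (hnl : ∀ l ∈ L, c ∉ l) (hpr : ∀ w : ℂ, w ^ 7 = 1 → Preserves P L (rho c w))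
    (hPd : ∀ p ∈ P, Al (p - c) d) (hLd : ∀ l ∈ L, ∀ u, IsPole c l u → Al u d) :
    Preserves P L (refl c d) := by
  have hd1 := d_conj hd
  have hinj : Function.Injective (refl c d) := by
    intro x y hxy
    rw [← refl_refl (c := c) hd x, hxy, refl_refl hd]
  refine ⟨?_, ?_⟩
  · apply Finset.eq_of_subset_of_card_le
    · intro x hx
      obtain ⟨p, hp, rfl⟩ := Finset.mem_image.1 hx
      obtain ⟨s, w, hw, hpw⟩ := hPd p hp
      have hww := d_conj (root7_norm hw)
      have hcw : (conj w) ^ 7 = 1 := by rw [← map_pow, hw, map_one]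
      have e : refl c d p = rho c (conj w * conj w) p := by
        unfold refl rho
        rw [hpw, map_mul, map_mul, Complex.conj_ofReal]
        linear_combination (s * conj w * d) * hd1 - (s * conj w * d) * hww
      rw [e]
      exact (hpr _ (root7_mul hcw hcw)).mem hp
    · rw [Finset.card_image_of_injective _ hinj]
  · apply Finset.eq_of_subset_of_card_le
    · intro x hx
      obtain ⟨l, hl, rfl⟩ := Finset.mem_image.1 hx
      obtain ⟨u, hu⟩ := exists_pole (h.line l hl) (hnl l hl)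
      obtain ⟨s, w, hw, huw⟩ := hLd l hl u hu
      have hww := d_conj (root7_norm hw)
      have hcw : (conj w) ^ 7 = 1 := by rw [← map_pow, hw, map_one]
      have h1 := pole_refl hd hu
      have h2 := pole_rho (w := conj w * conj w) (root7_norm (root7_mul hcw hcw)) hu
      have e : d ^ 2 * conj u = conj w * conj w * u := by
        rw [huw, map_mul, map_mul, Complex.conj_ofReal]
        linear_combination (s * conj w * d) * hd1 - (s * conj w * d) * hww
      rw [e] at h1
      have h3 : refl c d '' l = rho c (conj w * conj w) '' l := h1.trans h2.symm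
      show refl c d '' l ∈ L
      rw [h3]
      exact (hpr _ (root7_mul hcw hcw)).memL hl
    · rw [Finset.card_image_of_injective _ hinj.image_injective]

lemma meet_eq {c p p3 q u u1 v w' : ℂ} {l : Set ℂ} {s σ : ℝ} (hu : IsPole c l u) (hv : v ^ 7 = 1)
    (hw' : w' ^ 7 = 1) (hp : p - c = s * (w' * u1)) (hp3 : p3 - c = σ * (v * u))
    (hq : q ∈ orbP P c p) (hql : q ∈ l) :
    ∃ ζ : ℂ, ζ ^ 7 = 1 ∧ s * (ζ * (u1 * conj (p3 - c))).re = σ := by
  unfold orbP at hq
  rw [Finset.mem_filter] at hq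
  obtain ⟨_, w, hw, hqw⟩ := hq
  rw [hu] at hql
  have h1 : ((q - c) * conj u).re = 1 := hql
  have e : q - c = w * (p - c) := by rw [hqw]; unfold rho; ring
  refine ⟨w * w' * v, root7_mul (root7_mul hw hw') hv, ?_⟩
  have hvv := d_conj (root7_norm hv)
  have e2 : ((s : ℝ) : ℂ) * (w * w' * v * (u1 * conj (p3 - c))) =
      ((σ : ℝ) : ℂ) * ((q - c) * conj u) := by
    rw [e, hp, hp3, map_mul, map_mul, Complex.conj_ofReal]
    linear_combination (s * w * w' * u1 * σ * conj u) * hvv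
  have e3 := congrArg Complex.re e2
  rw [Complex.re_ofReal_mul, Complex.re_ofReal_mul, h1, mul_one] at e3
  exact e3

lemma meets_all (h : IsConfig 21 4 P L) {c : ℂ} (hcP : c ∉ P)
    (hpr : ∀ w : ℂ, w ^ 7 = 1 → Preserves P L (rho c w))
    (hO : ∀ p ∈ P, (orbP P c p).card = 7) (hOL : ∀ l ∈ L, (orbL L c l).card = 7)
    (hmir : ¬ ∃ d : ℂ, ‖d‖ = 1 ∧ Preserves P L (refl c d)) {l1 : Set ℂ} (hl1 : l1 ∈ L) {p3 : ℂ}
    (hp3 : p3 ∈ P) (he : ∀ x ∈ orbP P c p3, x ∉ l1) : False := by
  have hnl : ∀ l ∈ L, c ∉ l := fun l hl => no_line_through h hcP hO hl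
  have hpc : ∀ p ∈ P, p - c ≠ 0 := by
    intro p hp
    rw [sub_ne_zero]
    rintro rfl
    exact hcP hp
  have hdbl : ∀ l : Set ℂ, ∀ p ∈ P, ∀ q ∈ orbP P c p, q ∈ l → q ≠ p → Dbl c l p := by
    intro l p hp q hq hql hqp
    unfold orbP at hq
    rw [Finset.mem_filter] at hq
    obtain ⟨_, v, hv, hqv⟩ := hq
    refine ⟨v, hv, ?_, by rw [← hqv]; exact hql⟩
    rintro rfl
    rw [rho_one] at hqv
    exact hqp hqv
  have hoff : ∀ p ∈ P, p ∈ l1 → p3 ∉ orbP P c p ∧ p ∉ orbP P c p3 := by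
    intro p hp hpl
    have h1 : p ∉ orbP P c p3 := fun h2 => he p h2 hpl
    have h2 := orbP_disj hp h1
    rw [Finset.disjoint_left] at h2
    exact ⟨h2 (mem_orbP_self hp3), h1⟩
  -- every point of the line is double
  have hA : ∀ p ∈ P, p ∈ l1 → Dbl c l1 p := by
    intro p hp hpl
    by_contra hnd
    have hcard : 2 < ((P.filter (fun x => x ∈ l1)).erase p).card := by
      rw [Finset.card_erase_of_mem (Finset.mem_filter.2 ⟨hp, hpl⟩), h.size l1 hl1]
      norm_num
    obtain ⟨x, hx, y, hy, z, hz, hxy, hxz, hyz⟩ := Finset.two_lt_card.1 hcard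
    have key : ∀ x ∈ (P.filter (fun x => x ∈ l1)).erase p,
        x ∈ P ∧ x ∈ l1 ∧ x ∉ orbP P c p ∧ x ∉ orbP P c p3 := by
      intro x hx
      rw [Finset.mem_erase, Finset.mem_filter] at hx
      refine ⟨hx.2.1, hx.2.2, ?_, fun h2 => he x h2 hx.2.2⟩
      intro h2
      exact hnd (hdbl l1 p hp x h2 hx.2.2 hx.1)
    obtain ⟨x1, x2, x3, x4⟩ := key x hx
    obtain ⟨y1, y2, y3, y4⟩ := key y hy
    obtain ⟨z1, z2, z3, z4⟩ := key z hz
    have hyx := third_orbit h hO hp hp3 x1 y1 (hoff p hp hpl).1 x3 x4 y3 y4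
    have hzx := third_orbit h hO hp hp3 x1 z1 (hoff p hp hpl).1 x3 x4 z3 z4
    exact not_three_circle (h.line l1 hl1) c _ x2 y2 z2 hxy hxz hyz rfl (orb_normSq hyx)
      (orb_normSq hzx)
  -- two orbits on the line
  obtain ⟨p1, _, _, hp1, _, _, hp1l, _, _, _, _, _⟩ := h.three hl1
  have hex2 : ∃ p2 ∈ P, p2 ∈ l1 ∧ p2 ∉ orbP P c p1 := by
    by_contra hcon
    push Not at hcon
    have h1 : P.filter (fun x => x ∈ l1) ⊆ (orbP P c p1).filter (fun x => x ∈ l1) := by
      intro x hx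
      rw [Finset.mem_filter] at hx ⊢
      exact ⟨hcon x hx.1 hx.2, hx.2⟩
    have h2 := Finset.card_le_card h1
    have h3 := circle_le_two (U := orbP P c p1) (fun x hx => orb_normSq hx) (h.line l1 hl1)
    rw [h.size l1 hl1] at h2
    omega
  obtain ⟨p2, hp2, hp2l, hp21⟩ := hex2
  -- lines through `p3`
  have hC : ∀ l ∈ L, p3 ∈ l → l ∉ orbL L c l1 := by
    intro l hl hpl hlo
    unfold orbL at hlo
    rw [Finset.mem_filter] at hlo
    obtain ⟨_, w, hw, rfl⟩ := hlo
    obtain ⟨x, hx, hxp⟩ := hpl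
    apply he x _ hx
    have hx' : x = rho c w⁻¹ p3 := by
      rw [← hxp, rho_rho, inv_mul_cancel₀ (root7_ne hw), rho_one]
    unfold orbP
    rw [Finset.mem_filter]
    refine ⟨?_, w⁻¹, root7_inv hw, hx'⟩
    rw [hx']
    exact (hpr _ (root7_inv hw)).mem hp3
  have hD : ∀ l ∈ L, p3 ∈ l → Dbl c l p3 := by
    intro l hl hpl
    by_contra hnd
    have hcard : 2 < ((L.filter (fun x => p3 ∈ x)).erase l).card := by
      rw [Finset.card_erase_of_mem (Finset.mem_filter.2 ⟨hl, hpl⟩), h.deg p3 hp3]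
      norm_num
    obtain ⟨x, hx, y, hy, z, hz, hxy, hxz, hyz⟩ := Finset.two_lt_card.1 hcard
    have key : ∀ x ∈ (L.filter (fun x => p3 ∈ x)).erase l,
        x ∈ L ∧ p3 ∈ x ∧ x ∉ orbL L c l ∧ x ∉ orbL L c l1 := by
      intro x hx
      rw [Finset.mem_erase, Finset.mem_filter] at hx
      refine ⟨hx.2.1, hx.2.2, ?_, hC x hx.2.1 hx.2.2⟩
      intro h2
      unfold orbL at h2
      rw [Finset.mem_filter] at h2
      obtain ⟨_, w, hw, hxw⟩ := h2
      apply hnd
      have h3 := hx.2.2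
      rw [hxw] at h3
      obtain ⟨t, ht, htp⟩ := h3
      refine ⟨w⁻¹, root7_inv hw, ?_, ?_⟩
      · intro h4
        have hw1 : w = 1 := inv_eq_one.1 h4
        rw [hw1, rho_image_one] at hxw
        exact hx.1 hxw
      · rw [← htp, rho_rho, inv_mul_cancel₀ (root7_ne hw), rho_one]
        exact ht
    obtain ⟨x1, x2, x3, x4⟩ := key x hx
    obtain ⟨y1, y2, y3, y4⟩ := key y hy
    obtain ⟨z1, z2, z3, z4⟩ := key z hz
    have hl1l : l1 ∉ orbL L c l := by
      have h2 := orbL_disj hl (hC l hl hpl)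
      rw [Finset.disjoint_left] at h2
      apply h2
      unfold orbL
      rw [Finset.mem_filter]
      exact ⟨hl1, 1, one_pow 7, (rho_image_one c l1).symm⟩
    have hyx := third_orbitL h hOL hl hl1 x1 y1 hl1l x3 x4 y3 y4
    have hzx := third_orbitL h hOL hl hl1 x1 z1 hl1l x3 x4 z3 z4
    have hxx : x ∈ orbL L c x := by
      unfold orbL
      rw [Finset.mem_filter]
      exact ⟨x1, 1, one_pow 7, (rho_image_one c x).symm⟩
    have h5 := orbL_le_two h hcP hnl x1 hp3
    have h6 : 2 < ((orbL L c x).filter (fun t => p3 ∈ t)).card :=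
      Finset.two_lt_card.2 ⟨x, Finset.mem_filter.2 ⟨hxx, x2⟩, y, Finset.mem_filter.2 ⟨hyx, y2⟩,
        z, Finset.mem_filter.2 ⟨hzx, z2⟩, hxy, hxz, hyz⟩
    omega
  have hexl2 : ∃ l2 ∈ L, p3 ∈ l2 := by
    have h1 : 0 < (L.filter (fun x => p3 ∈ x)).card := by rw [h.deg p3 hp3]; norm_num
    obtain ⟨l2, hl2⟩ := Finset.card_pos.1 h1
    rw [Finset.mem_filter] at hl2
    exact ⟨l2, hl2⟩
  obtain ⟨l2, hl2, hp3l2⟩ := hexl2
  have hexl3 : ∃ l3 ∈ L, p3 ∈ l3 ∧ l3 ∉ orbL L c l2 := by
    by_contra hcon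
    push Not at hcon
    have h1 : L.filter (fun x => p3 ∈ x) ⊆ (orbL L c l2).filter (fun x => p3 ∈ x) := by
      intro x hx
      rw [Finset.mem_filter] at hx ⊢
      exact ⟨hcon x hx.1 hx.2, hx.2⟩
    have h2 := Finset.card_le_card h1
    have h3 := orbL_le_two h hcP hnl hl2 hp3
    rw [h.deg p3 hp3] at h2
    omega
  obtain ⟨l3, hl3, hp3l3, hl32⟩ := hexl3
  obtain ⟨u1, hu1⟩ := exists_pole (h.line l1 hl1) (hnl l1 hl1)
  obtain ⟨u2, hu2⟩ := exists_pole (h.line l2 hl2) (hnl l2 hl2)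
  obtain ⟨u3, hu3⟩ := exists_pole (h.line l3 hl3) (hnl l3 hl3)
  obtain ⟨ρ1, w1, hw1, hw11, hp1u, hn1⟩ := dbl_form hu1 hp1l (hA p1 hp1 hp1l)
  obtain ⟨ρ2, w2, hw2, hw21, hp2u, hn2⟩ := dbl_form hu1 hp2l (hA p2 hp2 hp2l)
  obtain ⟨σ2, v2, hv2, hv21, hp3u2, hm2⟩ := dbl_form hu2 hp3l2 (hD l2 hl2 hp3l2)
  obtain ⟨σ3, v3, hv3, hv31, hp3u3, hm3⟩ := dbl_form hu3 hp3l3 (hD l3 hl3 hp3l3)
  have al1 : Al (p1 - c) u1 := ⟨ρ1, w1, hw1, hp1u⟩
  have al2 : Al (p2 - c) u1 := ⟨ρ2, w2, hw2, hp2u⟩
  have al3 : Al (p3 - c) u2 := ⟨σ2, v2, hv2, hp3u2⟩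
  have al3' : Al (p3 - c) u3 := ⟨σ3, v3, hv3, hp3u3⟩
  have alorb : ∀ p q : ℂ, q ∈ orbP P c p → Al (q - c) (p - c) := by
    intro p q hq
    unfold orbP at hq
    rw [Finset.mem_filter] at hq
    obtain ⟨_, w, hw, hqw⟩ := hq
    refine ⟨1, w, hw, ?_⟩
    rw [hqw]
    unfold rho
    push_cast
    ring
  have hP3 : ∀ x ∈ P, x ∈ orbP P c p1 ∨ x ∈ orbP P c p2 ∨ x ∈ orbP P c p3 := by
    intro x hx
    by_cases h1 : x ∈ orbP P c p1
    · exact Or.inl h1
    · by_cases h2 : x ∈ orbP P c p2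
      · exact Or.inr (Or.inl h2)
      · exact Or.inr (Or.inr (third_orbit h hO hp1 hp2 hp3 hx hp21 (hoff p1 hp1 hp1l).1
          (hoff p2 hp2 hp2l).1 h1 h2))
  have hL3 : ∀ x ∈ L, x ∈ orbL L c l1 ∨ x ∈ orbL L c l2 ∨ x ∈ orbL L c l3 := by
    intro x hx
    by_cases h1 : x ∈ orbL L c l1
    · exact Or.inl h1
    · by_cases h2 : x ∈ orbL L c l2
      · exact Or.inr (Or.inl h2)
      · exact Or.inr (Or.inr (third_orbitL h hOL hl1 hl2 hl3 hx (hC l2 hl2 hp3l2)
          (hC l3 hl3 hp3l3) hl32 h1 h2))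
  -- not everything is aligned
  have hF : ¬ Al (p3 - c) (p1 - c) := by
    intro hal
    apply hmir
    have hn0 : (‖p1 - c‖ : ℂ) ≠ 0 := by
      exact_mod_cast (norm_ne_zero_iff.2 (hpc p1 hp1))
    obtain ⟨d, hdd⟩ : ∃ d : ℂ, d = (p1 - c) / ‖p1 - c‖ := ⟨_, rfl⟩
    have hd : ‖d‖ = 1 := by
      rw [hdd, norm_div, Complex.norm_real, norm_norm,
        div_self (norm_ne_zero_iff.2 (hpc p1 hp1))]
    have ald : Al (p1 - c) d := by
      refine ⟨‖p1 - c‖, 1, one_pow 7, ?_⟩
      rw [hdd]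
      field_simp
    have alu1 : Al u1 d := (al1.symm (hpc p1 hp1)).trans ald
    have al3d : Al (p3 - c) d := hal.trans ald
    refine ⟨d, hd, aligned_mirror h hd hnl hpr ?_ ?_⟩
    · intro x hx
      rcases hP3 x hx with h1 | h1 | h1
      · exact (alorb _ _ h1).trans ald
      · exact ((alorb _ _ h1).trans al2).trans alu1
      · exact (alorb _ _ h1).trans al3d
    · intro l hl u hu
      have key : ∀ (l' : Set ℂ) (u' : ℂ), IsPole c l' u' → l ∈ orbL L c l' → Al u u' := by
        intro l' u' hu' hlo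
        unfold orbL at hlo
        rw [Finset.mem_filter] at hlo
        obtain ⟨_, w, hw, hlw⟩ := hlo
        have h1 := pole_rho (root7_norm hw) hu'
        rw [← hlw] at h1
        have h2 := pole_unique (h.line l hl) hu h1
        exact ⟨1, w, hw, by rw [h2]; push_cast; ring⟩
      rcases hL3 l hl with h1 | h1 | h1
      · exact (key l1 u1 hu1 h1).trans alu1
      · exact (key l2 u2 hu2 h1).trans ((al3.symm (hpc p3 hp3)).trans al3d)
      · exact (key l3 u3 hu3 h1).trans ((al3'.symm (hpc p3 hp3)).trans al3d)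
  -- lines through `p3` meet the other two orbits
  have hG : ∀ l ∈ L, ∀ u, IsPole c l u → Al (p3 - c) u →
      (∃ q ∈ orbP P c p1, q ∈ l) ∧ ∃ q ∈ orbP P c p2, q ∈ l := by
    intro l hl u hu hal
    have hle : ∀ p ∈ P, Al (p - c) (p1 - c) →
        ((orbP P c p).filter (fun x => x ∈ l)).card ≤ 1 := by
      intro p hp hap
      rw [Finset.card_le_one]
      intro q hq q' hq'
      by_contra hne
      rw [Finset.mem_filter] at hq hq'
      have hqP : q ∈ P := by
        have := hq.1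
        unfold orbP at this
        exact (Finset.mem_filter.1 this).1
      have hqq : q' ∈ orbP P c q := by
        by_contra h1
        have hq'P : q' ∈ P := by
          have := hq'.1
          unfold orbP at this
          exact (Finset.mem_filter.1 this).1
        have h2 := orbP_disj hq'P h1
        have h3 := hq.1
        have h4 := hq'.1
        unfold orbP at h3 h4
        rw [Finset.mem_filter] at h3 h4
        obtain ⟨_, w, hw, hqw⟩ := h3
        obtain ⟨_, v, hv, hqv⟩ := h4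
        apply h1
        unfold orbP
        rw [Finset.mem_filter]
        refine ⟨hq'P, v * w⁻¹, root7_mul hv (root7_inv hw), ?_⟩
        rw [hqw, rho_rho, inv_mul_cancel_right₀ (root7_ne hw), hqv]
      obtain ⟨s, w, hw, _, hqu, _⟩ := dbl_form hu hq.2 (hdbl l q hqP q' hqq hq'.2 (Ne.symm hne))
      have a1 : Al (q - c) u := ⟨s, w, hw, hqu⟩
      have a2 : Al u (p1 - c) :=
        (a1.symm (hpc q hqP)).trans ((alorb p q hq.1).trans hap)
      exact hF (hal.trans a2)
    have e1 := hle p1 hp1 ⟨1, 1, one_pow 7, by push_cast; ring⟩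
    have e2 := hle p2 hp2 (al2.trans (al1.symm (hpc p1 hp1)))
    have e3 := circle_le_two (U := orbP P c p3) (fun x hx => orb_normSq hx) (h.line l hl)
    have hsub : P.filter (fun x => x ∈ l) ⊆ (orbP P c p1).filter (fun x => x ∈ l) ∪
        ((orbP P c p2).filter (fun x => x ∈ l) ∪ (orbP P c p3).filter (fun x => x ∈ l)) := by
      intro x hx
      rw [Finset.mem_filter] at hx
      rw [Finset.mem_union, Finset.mem_union, Finset.mem_filter, Finset.mem_filter,
        Finset.mem_filter]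
      rcases hP3 x hx.1 with h1 | h1 | h1
      · exact Or.inl ⟨h1, hx.2⟩
      · exact Or.inr (Or.inl ⟨h1, hx.2⟩)
      · exact Or.inr (Or.inr ⟨h1, hx.2⟩)
    have e4 := Finset.card_le_card hsub
    have e5 := Finset.card_union_le ((orbP P c p1).filter (fun x => x ∈ l))
      ((orbP P c p2).filter (fun x => x ∈ l) ∪ (orbP P c p3).filter (fun x => x ∈ l))
    have e6 := Finset.card_union_le ((orbP P c p2).filter (fun x => x ∈ l))
      ((orbP P c p3).filter (fun x => x ∈ l))
    rw [h.size l hl] at e4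
    constructor
    · have : 0 < ((orbP P c p1).filter (fun x => x ∈ l)).card := by omega
      obtain ⟨q, hq⟩ := Finset.card_pos.1 this
      exact ⟨q, (Finset.mem_filter.1 hq).1, (Finset.mem_filter.1 hq).2⟩
    · have : 0 < ((orbP P c p2).filter (fun x => x ∈ l)).card := by omega
      obtain ⟨q, hq⟩ := Finset.card_pos.1 this
      exact ⟨q, (Finset.mem_filter.1 hq).1, (Finset.mem_filter.1 hq).2⟩
  obtain ⟨⟨q1, hq1, hq1l⟩, q2, hq2, hq2l⟩ := hG l2 hl2 u2 hu2 al3
  obtain ⟨⟨q3, hq3, hq3l⟩, q4, hq4, hq4l⟩ := hG l3 hl3 u3 hu3 al3'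
  obtain ⟨ζ1, hζ1, g1⟩ := meet_eq hu2 hv2 hw1 hp1u hp3u2 hq1 hq1l
  obtain ⟨ζ2, hζ2, g2⟩ := meet_eq hu2 hv2 hw2 hp2u hp3u2 hq2 hq2l
  obtain ⟨ζ3, hζ3, g3⟩ := meet_eq hu3 hv3 hw1 hp1u hp3u3 hq3 hq3l
  obtain ⟨ζ4, hζ4, g4⟩ := meet_eq hu3 hv3 hw2 hp2u hp3u3 hq4 hq4l
  obtain ⟨a, ha⟩ := root7_re hw1 hw11
  obtain ⟨b, hb⟩ := root7_re hw2 hw21
  obtain ⟨a2, ha2⟩ := root7_re hv2 hv21
  obtain ⟨a3, ha3⟩ := root7_re hv3 hv31
  rw [ha] at hn1
  rw [hb] at hn2
  rw [ha2] at hm2
  rw [ha3] at hm3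
  have hρ1 : ρ1 ≠ 0 := by
    rintro rfl
    norm_num at hn1
  have hρ2 : ρ2 ≠ 0 := by
    rintro rfl
    norm_num at hn2
  have hσ2 : σ2 ≠ 0 := by
    rintro rfl
    norm_num at hm2
  have hσ3 : σ3 ≠ 0 := by
    rintro rfl
    norm_num at hm3
  have hN1 : Complex.normSq u1 ≠ 0 := by
    intro h0
    rw [h0] at hn1
    norm_num at hn1
  have hab : a ≠ b := by
    rintro rfl
    have h1 : ρ1 = ρ2 := by
      have h2 : (ρ1 - ρ2) * (Complex.normSq u1 * KK a) = 0 := by linear_combination hn1 - hn2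
      exact sub_eq_zero.1 ((mul_eq_zero.1 h2).resolve_right (mul_ne_zero hN1 (KK_ne a)))
    apply hp21
    unfold orbP
    rw [Finset.mem_filter]
    refine ⟨hp2, w2 * w1⁻¹, root7_mul hw2 (root7_inv hw1), ?_⟩
    unfold rho
    rw [hp1u, h1]
    have h3 := root7_ne hw1
    have h4 : p2 = c + ρ2 * (w2 * u1) := by rw [← hp2u]; ring
    rw [h4]
    field_simp
  have k2 : KK a2 * Complex.normSq (p3 - c) = σ2 := by
    have h1 : Complex.normSq (p3 - c) = σ2 ^ 2 * Complex.normSq u2 := by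
      rw [hp3u2, Complex.normSq_mul, Complex.normSq_mul, Complex.normSq_ofReal,
        Complex.normSq_eq_norm_sq v2, root7_norm hv2]
      ring
    rw [h1]
    linear_combination σ2 * hm2
  have k3 : KK a3 * Complex.normSq (p3 - c) = σ3 := by
    have h1 : Complex.normSq (p3 - c) = σ3 ^ 2 * Complex.normSq u3 := by
      rw [hp3u3, Complex.normSq_mul, Complex.normSq_mul, Complex.normSq_ofReal,
        Complex.normSq_eq_norm_sq v3, root7_norm hv3]
      ring
    rw [h1]
    linear_combination σ3 * hm3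
  have h23 : a2 ≠ a3 := by
    rintro rfl
    have h1 : σ2 = σ3 := by rw [← k2, k3]
    apply hl32
    have h2 : (σ2 : ℂ) ≠ 0 := by exact_mod_cast hσ2
    have h3 : v2 * u2 = v3 * u3 := by
      apply mul_left_cancel₀ h2
      rw [← hp3u2, hp3u3, h1]
    have h4 : u3 = v3⁻¹ * v2 * u2 := by
      have := root7_ne hv3
      rw [mul_assoc, h3]
      field_simp
    have h5 := pole_rho (w := v3⁻¹ * v2) (root7_norm (root7_mul (root7_inv hv3) hv2)) hu2
    rw [← h4] at h5
    unfold orbL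
    rw [Finset.mem_filter]
    exact ⟨hl3, v3⁻¹ * v2, root7_mul (root7_inv hv3) hv2, hu3.trans h5.symm⟩
  have hD1 : ρ1 * ρ2 * Complex.normSq u1 ≠ 0 := mul_ne_zero (mul_ne_zero hρ1 hρ2) hN1
  refine noB_alg hζ1 hζ2 hζ3 hζ4 hab h23 (F := u1 * conj (p3 - c)) ?_ ?_ ?_ ?_ ?_
  · apply mul_left_cancel₀ hD1
    linear_combination (ρ2 * Complex.normSq u1 * KK b) * g1 -
      (ρ1 * Complex.normSq u1 * KK a) * g2 + σ2 * hn2 - σ2 * hn1
  · apply mul_left_cancel₀ hD1
    linear_combination (ρ2 * Complex.normSq u1 * KK b) * g3 -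
      (ρ1 * Complex.normSq u1 * KK a) * g4 + σ3 * hn2 - σ3 * hn1
  · apply mul_left_cancel₀ hρ1
    linear_combination KK a3 * g1 - KK a2 * g3 - KK a3 * k2 + KK a2 * k3
  · apply mul_left_cancel₀ hρ2
    linear_combination KK a3 * g2 - KK a2 * g4 - KK a3 * k2 + KK a2 * k3
  · intro h0
    rw [h0, mul_zero] at g1
    exact hσ2 g1.symm

/-- sevenfold dihedral symmetry: the numbers and the explicit form -/
lemma explicit7 (h : IsConfig 21 4 P L) {c d : ℂ} (hd : ‖d‖ = 1) (hcP : c ∉ P)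
    (hpr : ∀ w : ℂ, w ^ 7 = 1 → Preserves P L (rho c w))
    (hO : ∀ p ∈ P, (orbP P c p).card = 7) (hOL : ∀ l ∈ L, (orbL L c l).card = 7)
    (hp : Preserves P L (refl c d)) :
    (P.filter (fun p => p ∈ mirror c d)).card = 3 ∧
    (L.filter (fun l => ∃ s : ℝ, l = mirror (c + s * d) (Complex.I * d))).card = 3 ∧
    ∃ r : ℝ, r ≠ 0 ∧
      (∀ z, z ∈ P ↔ ∃ (w : ℂ) (j : ℕ), w ^ 7 = 1 ∧ 1 ≤ j ∧ j ≤ 3 ∧
        z = c + ((r * Real.cos (2 * Real.pi * j / 7) : ℝ) : ℂ) * (w * d)) ∧
      (∀ l, l ∈ L ↔ ∃ (w : ℂ) (i j : ℕ), w ^ 7 = 1 ∧ 1 ≤ i ∧ i < j ∧ j ≤ 3 ∧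
        l = mirror (c + ((r * Real.cos (2 * Real.pi * i / 7) *
          Real.cos (2 * Real.pi * j / 7) : ℝ) : ℂ) * (w * d)) (Complex.I * (w * d))) := by
  obtain ⟨h1, h1', a, b, ha, hb, h2, h3, h4, h5⟩ := reflection_types h hd hp
  have h7 : a = 3 ∧ b = 3 := by
    have hodd : Odd 7 := by decide
    have k1 := mul_axis hodd hpr hcP hd
    have k2 := mul_perp hodd hpr hd
    have k3 := two_axis h hd hO hp
    have k4 := two_perp h hd hcP hO hOL hp h1
    rw [ha, h.cardP] at k1
    rw [hb, h.cardL] at k2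
    rw [ha] at k3
    rw [hb] at k4
    omega
  obtain ⟨rfl, rfl⟩ := h7
  obtain ⟨r, hr, hrP, hrL⟩ := dihedral7 h hd hcP hpr hO hOL hp ha hb
  refine ⟨ha, hb, r, hr, ?_, ?_⟩
  · intro z
    rw [hrP]
    constructor
    · rintro ⟨w, hw7, j, hz⟩
      exact ⟨w, j.val + 1, hw7, by omega, by omega, hz⟩
    · rintro ⟨w, j, hw7, hj1, hj3, hz⟩
      refine ⟨w, hw7, ⟨j - 1, by omega⟩, ?_⟩
      rw [hz]
      have : KK ⟨j - 1, by omega⟩ = Real.cos (2 * Real.pi * j / 7) := by
        unfold KK kap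
        rw [show j - 1 + 1 = j by omega]
      rw [this]
  · intro l
    rw [hrL]
    have hK : ∀ (j : ℕ) (hj : j - 1 < 3), 1 ≤ j →
        KK ⟨j - 1, hj⟩ = Real.cos (2 * Real.pi * j / 7) := by
      intro j hj hj1
      unfold KK kap
      rw [show j - 1 + 1 = j by omega]
    constructor
    · rintro ⟨w, hw7, i, j, hij, hz⟩
      rcases lt_or_gt_of_ne hij with hlt | hlt
      · exact ⟨w, i.val + 1, j.val + 1, hw7, by omega, by omega, by omega, hz⟩
      · refine ⟨w, j.val + 1, i.val + 1, hw7, by omega, by omega, by omega, ?_⟩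
        rw [hz, mul_right_comm r (KK i) (KK j)]
        rfl
    · rintro ⟨w, i, j, hw7, hi1, hij, hj3, hz⟩
      refine ⟨w, hw7, ⟨i - 1, by omega⟩, ⟨j - 1, by omega⟩, ?_, ?_⟩
      · intro h0
        have := congrArg Fin.val h0
        simp only at this
        omega
      · rw [hz, hK i (by omega) hi1, hK j (by omega) (by omega)]

lemma centre_lines (h : IsConfig 21 4 P L) {c : ℂ} {m : ℕ} (hm0 : m ≠ 0) (hcP : c ∉ P)
    (hL : ∀ l ∈ L, (L.filter (fun l' => ∃ w : ℂ, w ^ m = 1 ∧ l' = rho c w '' l)).card = m) :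
    m ∣ (L.filter (fun l => c ∈ l)).card ∧ (L.filter (fun l => c ∈ l)).card ≤ 5 := by
  have hne : ∀ w : ℂ, w ^ m = 1 → w ≠ 0 := by
    rintro w hw rfl
    rw [zero_pow hm0] at hw
    exact zero_ne_one hw
  constructor
  · apply dvd_of_classes (L.filter (fun l => c ∈ l)) m
      (fun l => L.filter (fun l' => ∃ w : ℂ, w ^ m = 1 ∧ l' = rho c w '' l))
    · intro l hl
      rw [Finset.mem_filter] at hl ⊢
      exact ⟨hl.1, 1, one_pow m, (rho_image_one c l).symm⟩
    · intro l hl l' hl'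
      rw [Finset.mem_filter] at hl hl' ⊢
      obtain ⟨hl'L, w, hw, rfl⟩ := hl'
      refine ⟨hl'L, c, hl.2, ?_⟩
      unfold rho
      ring
    · intro l hl
      exact hL l (Finset.mem_filter.1 hl).1
    · intro l hl l' hl'
      rw [Finset.mem_filter] at hl'
      obtain ⟨hl'L, w, hw, rfl⟩ := hl'
      ext x
      rw [Finset.mem_filter, Finset.mem_filter]
      constructor
      · rintro ⟨hx, v, hv, rfl⟩
        exact ⟨hx, v * w, by rw [mul_pow, hv, hw, one_mul], by rw [rho_image_image]⟩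
      · rintro ⟨hx, v, hv, rfl⟩
        refine ⟨hx, v * w⁻¹, by rw [mul_pow, hv, inv_pow, hw, inv_one, one_mul], ?_⟩
        rw [rho_image_image, inv_mul_cancel_right₀ (hne w hw)]
  · have h1 := double_count P (L.filter (fun l => c ∈ l))
    have h2 : ∑ l ∈ L.filter (fun l => c ∈ l), (P.filter (fun p => p ∈ l)).card =
        (L.filter (fun l => c ∈ l)).card * 4 := by
      rw [Finset.sum_const_nat]
      intro l hl
      exact h.size l (Finset.mem_filter.1 hl).1
    have h3 : ∑ p ∈ P, ((L.filter (fun l => c ∈ l)).filter (fun l => p ∈ l)).card ≤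
        ∑ p ∈ P, 1 := by
      apply Finset.sum_le_sum
      intro p hp
      rw [Finset.card_le_one]
      intro l hl l' hl'
      rw [Finset.mem_filter, Finset.mem_filter] at hl hl'
      have hpc : c ≠ p := by
        rintro rfl
        exact hcP hp
      exact line_eq_of_two (h.line l hl.1.1) (h.line l' hl'.1.1) hpc hl.1.2 hl.2 hl'.1.2 hl'.2
    rw [h1, h2, Finset.sum_const, h.cardP] at h3
    simp only [smul_eq_mul, mul_one] at h3
    omega

/-- **Symmetries of the geometric `(21_4)` configurations.** -/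
theorem main (P : Finset ℂ) (L : Finset (Set ℂ)) (h : IsConfig 21 4 P L) :
    ∃ (c : ℂ) (m : ℕ), (m = 1 ∨ m = 3 ∨ m = 7) ∧
      (∀ g : ℂ ≃ᵢ ℂ, (Preserves P L g ∧ Direct g) ↔
        ∃ w : ℂ, w ^ m = 1 ∧ ∀ z, g z = rho c w z) ∧
      (∀ w : ℂ, w ^ m = 1 → w ≠ 1 →
        (∀ p ∈ P, rho c w p ≠ p) ∧ (∀ l ∈ L, rho c w '' l ≠ l)) ∧
      (∀ p ∈ P, (P.filter (fun q => ∃ w : ℂ, w ^ m = 1 ∧ q = rho c w p)).card = m) ∧
      (∀ l ∈ L, (L.filter (fun l' => ∃ w : ℂ, w ^ m = 1 ∧ l' = rho c w '' l)).card = m) ∧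
      (m ≠ 1 → (L.filter (fun l => c ∈ l)).card = 0 ∨
        (m = 3 ∧ (L.filter (fun l => c ∈ l)).card = 3)) ∧
      (m = 7 →
        (∃ (d : ℂ) (r : ℝ), ‖d‖ = 1 ∧ r ≠ 0 ∧
          (∀ z, z ∈ P ↔ ∃ (w : ℂ) (j : ℕ), w ^ 7 = 1 ∧ 1 ≤ j ∧ j ≤ 3 ∧
            z = c + ((r * Real.cos (2 * Real.pi * j / 7) : ℝ) : ℂ) * (w * d)) ∧
          (∀ l, l ∈ L ↔ ∃ (w : ℂ) (i j : ℕ), w ^ 7 = 1 ∧ 1 ≤ i ∧ i < j ∧ j ≤ 3 ∧
            l = mirror (c + ((r * Real.cos (2 * Real.pi * i / 7) *
              Real.cos (2 * Real.pi * j / 7) : ℝ) : ℂ) * (w * d)) (Complex.I * (w * d)))) ∨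
        ((∀ g : ℂ ≃ᵢ ℂ, Preserves P L g → Direct g) ∧
          (∀ p ∈ P, ∀ q ∈ P, ‖p - c‖ = ‖q - c‖ → ∃ w : ℂ, w ^ 7 = 1 ∧ q = rho c w p) ∧
          ∀ l ∈ L, ∀ p ∈ P,
            ((P.filter (fun q => ∃ w : ℂ, w ^ 7 = 1 ∧ q = rho c w p)).filter
              (fun q => q ∈ l)).card = 1 ∨
            ((P.filter (fun q => ∃ w : ℂ, w ^ 7 = 1 ∧ q = rho c w p)).filter
              (fun q => q ∈ l)).card = 2)) ∧
      (∀ g : ℂ ≃ᵢ ℂ, Preserves P L g → ¬ Direct g →
        ∃ d : ℂ, ‖d‖ = 1 ∧ (∀ z, g z = refl c d z) ∧ mirror c d ∉ L ∧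
          (∀ l ∈ L, (∃ s : ℝ, l = mirror (c + s * d) (Complex.I * d)) →
            ∀ p ∈ P, p ∈ l → p ∉ mirror c d) ∧
          ∃ a b : ℕ, (P.filter (fun p => p ∈ mirror c d)).card = a ∧
            (L.filter (fun l => ∃ s : ℝ, l = mirror (c + s * d) (Complex.I * d))).card = b ∧
            ((a = 3 ∧ b = 3) ∨
              (m ≠ 7 ∧ ((a = 1 ∧ b = 1) ∨ (a = 1 ∧ b = 3) ∨ (a = 3 ∧ b = 1))) ∨
              (m = 1 ∧ ((a = 1 ∧ b = 5) ∨ (a = 5 ∧ b = 1))))) := by
  have hn : P.card ≠ 0 := by rw [h.cardP]; norm_num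
  set c : ℂ := (∑ p ∈ P, p) / P.card with hc
  obtain ⟨m, hm, hw, hfree, hP, hL⟩ := rot_group h c
  have hcen7 : m ≠ 1 → c ∉ P := by
    intro h7 hcP
    have hprim := Complex.isPrimitiveRoot_exp m (by omega)
    have hne1 := hprim.ne_one (by omega)
    apply (hfree _ hprim.pow_eq_one hne1).1 c hcP
    unfold rho
    ring
  have hopp : ∀ g : ℂ ≃ᵢ ℂ, Preserves P L g → ¬ Direct g →
      ∃ d : ℂ, ‖d‖ = 1 ∧ (∀ z, g z = refl c d z) ∧ Preserves P L (refl c d) := by
    intro g hg hnd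
    obtain ⟨u, v, hu, hform | hform⟩ := isometry_form g
    · exact absurd ⟨u, v, hform⟩ hnd
    · have hu0 : u ≠ 0 := by rintro rfl; simp at hu
      have hgf : (g : ℂ → ℂ) = fun z => u * conj z + v := funext hform
      have himg : P.image (fun z => u * conj z + v) = P := by rw [← hgf]; exact hg.1
      have hcen := centre_conj hu0 hn himg
      rw [← hc] at hcen
      obtain ⟨d, hdu⟩ := IsAlgClosed.exists_pow_nat_eq u (n := 2) (by norm_num)
      have hd : ‖d‖ = 1 := by
        have h1 : ‖d‖ ^ 2 = 1 := by rw [← norm_pow, hdu, hu]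
        have h2 : 0 ≤ ‖d‖ := norm_nonneg d
        nlinarith
      have hrefl : ∀ z, g z = refl c d z := by
        intro z
        rw [hform z]
        unfold refl
        rw [hdu, map_sub]
        linear_combination hcen
      refine ⟨d, hd, hrefl, ?_⟩
      have : refl c d = (g : ℂ → ℂ) := (funext hrefl).symm
      rw [this]
      exact hg
  refine ⟨c, m, hm, ?_, hfree, hP, hL, ?_, ?_, ?_⟩
  · intro g
    constructor
    · rintro ⟨hg, u0, v0, huv⟩
      obtain ⟨u, v, hu, hform | hform⟩ := isometry_form g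
      · have hu0 : u ≠ 0 := by rintro rfl; simp at hu
        have hgf : (g : ℂ → ℂ) = fun z => u * z + v := funext hform
        have himg : P.image (fun z => u * z + v) = P := by rw [← hgf]; exact hg.1
        have hcen := centre_direct hu0 hn himg
        rw [← hc] at hcen
        have hrho : ∀ z, g z = rho c u z := by
          intro z
          rw [hform z]
          unfold rho
          linear_combination hcen
        refine ⟨u, (hw u).2 ⟨hu, ?_⟩, hrho⟩
        have : rho c u = (g : ℂ → ℂ) := (funext hrho).symm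
        rw [this]
        exact hg
      · exfalso
        -- a map cannot be direct and opposite
        have e0 := hform 0
        have e1 := hform 1
        have eI := hform Complex.I
        rw [huv] at e0 e1 eI
        simp only [mul_zero, map_zero, zero_add, mul_one, map_one, Complex.conj_I] at e0 e1 eI
        have f1 : u0 = u := by linear_combination e1 - e0
        have f2 : u0 * Complex.I = -(u * Complex.I) := by linear_combination eI - e0
        rw [f1] at f2
        have f3 : u * Complex.I = 0 := by linear_combination (1/2 : ℂ) * f2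
        rcases mul_eq_zero.1 f3 with f4 | f4
        · rw [f4] at hu; simp at hu
        · exact Complex.I_ne_zero f4
    · rintro ⟨w, hw1, hg⟩
      have : (g : ℂ → ℂ) = rho c w := funext hg
      rw [this]
      refine ⟨((hw w).1 hw1).2, w, c - w * c, fun z => ?_⟩
      unfold rho; ring
  · intro hm1
    obtain ⟨k1, k2⟩ := centre_lines h (by omega) (hcen7 hm1) hL
    rcases hm with rfl | rfl | rfl
    · exact absurd rfl hm1
    · omega
    · left
      omega
  · intro h7
    have hcP := hcen7 (by omega)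
    subst h7
    have hO : ∀ p ∈ P, (orbP P c p).card = 7 := hP
    have hOL : ∀ l ∈ L, (orbL L c l).card = 7 := hL
    have hpr : ∀ w : ℂ, w ^ 7 = 1 → Preserves P L (rho c w) := fun w hw1 => ((hw w).1 hw1).2
    by_cases hmir : ∃ d : ℂ, ‖d‖ = 1 ∧ Preserves P L (refl c d)
    · left
      obtain ⟨d, hd, hp⟩ := hmir
      obtain ⟨_, _, r, hr, hrP, hrL⟩ := explicit7 h hd hcP hpr hO hOL hp
      exact ⟨d, r, hd, hr, hrP, hrL⟩
    · right
      refine ⟨?_, ?_, ?_⟩
      · intro g hg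
        by_contra hnd
        obtain ⟨d, hd, _, hp⟩ := hopp g hg hnd
        exact hmir ⟨d, hd, hp⟩
      · intro p hp q hq hpq
        exact radius_orbit h hO hp hq (by
          rw [Complex.normSq_eq_norm_sq, Complex.normSq_eq_norm_sq, hpq])
      · intro l hl p hp
        have h1 := circle_le_two (U := orbP P c p) (fun x hx => orb_normSq hx) (h.line l hl)
        have h2 : ((orbP P c p).filter (fun x => x ∈ l)).card ≠ 0 := by
          intro h0
          rw [Finset.card_eq_zero] at h0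
          apply meets_all h hcP hpr hO hOL hmir hl hp
          intro x hx hxl
          have h3 : x ∈ (orbP P c p).filter (fun x => x ∈ l) := Finset.mem_filter.2 ⟨hx, hxl⟩
          rw [h0] at h3
          exact absurd h3 (Finset.notMem_empty x)
        have h3 : ((orbP P c p).filter (fun x => x ∈ l)).card = 1 ∨
            ((orbP P c p).filter (fun x => x ∈ l)).card = 2 := by omega
        exact h3
  · intro g hg hnd
    obtain ⟨d, hd, hrefl, hpres⟩ := hopp g hg hnd
    obtain ⟨h1, h1', a, b, ha, hb, h2, h3, h4, h5⟩ := reflection_types h hd hpres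
    refine ⟨d, hd, hrefl, h1, h1', a, b, ha, hb, ?_⟩
    have h7 : m = 7 → a = 3 ∧ b = 3 := by
      intro hm7
      have hcP := hcen7 (by omega)
      subst hm7
      have hpr : ∀ w : ℂ, w ^ 7 = 1 → Preserves P L (rho c w) := fun w hw1 => ((hw w).1 hw1).2
      obtain ⟨k1, k2, _⟩ := explicit7 h hd hcP hpr hP hL hpres
      exact ⟨ha.symm.trans k1, hb.symm.trans k2⟩
    have h15 : m = 3 → ¬ (a = 1 ∧ b = 5) := by
      rintro hm3 ⟨rfl, rfl⟩
      have hcP := hcen7 (by omega)
      subst hm3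
      exact no_one_five h hd hcP (fun w hw1 => ((hw w).1 hw1).2) h1' ha hb
    have h51 : m = 3 → ¬ (a = 5 ∧ b = 1) := by
      rintro hm3 ⟨rfl, rfl⟩
      have hcP := hcen7 (by omega)
      subst hm3
      exact no_five_one h hd hcP (fun w hw1 => ((hw w).1 hw1).2) h1 h1' ha hb
    have ha5 : a ≤ 5 := by omega
    have hb5 : b ≤ 5 := by omega
    interval_cases a <;> interval_cases b <;> omega

end Pool.Agent.ST79
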